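import Pool.Agent.Helper46.E.Fix2

set_option autoImplicit false
set_option linter.unusedSectionVars false

namespace Pool.Agent.Helper46.E

open Set Module Mon

variable {n : ℕ} {F : Type} [Field F] [Fintype F]

/-- The rank of `g - μ` for a linear `g` that is tame at `μ`. -/
def TameAt (g : Mon n F) (μ : F) (s : ℕ) : Prop :=
  ∃ h : g.aut = 1, finrank F (LinearMap.range (lin g h - μ • LinearMap.id)) = s ∧ 4 * s ≤ 3 * n

theorem tame_of_not_wild (hn : 0 < n) (g : Mon n F) (hg : ¬ Wild g)
    (hs : g ∉ Set.range (scalar : Fˣ → Mon n F)) : ∃ μ : F, ∃ s ∈ Finset.Icc 1 n, TameAt g μ s := by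
  unfold Wild at hg
  push Not at hg
  obtain ⟨h, μ, hμ⟩ := hg
  refine ⟨μ, finrank F (LinearMap.range (lin g h - μ • LinearMap.id)), ?_, h, rfl, by omega⟩
  rw [Finset.mem_Icc]
  constructor
  · by_contra hcon
    push Not at hcon
    exact hs (scalar_of_rank_zero hn g h μ (by omega))
  · omega

open Classical in
theorem tame_card (hn : 0 < n) (μ : F) (s : ℕ) :
    (Finset.univ.filter (fun g : Mon n F => TameAt g μ s)).card
      ≤ (n * n * (Fintype.card F - 1)) ^ (3 * s) := by
  have h1 := card_small_supp (F := F) hn μ (3 * s)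
  rw [Nat.card_eq_fintype_card (α := F)] at h1
  refine le_trans ?_ h1
  rw [Nat.card_eq_fintype_card, Fintype.card_subtype]
  apply Finset.card_le_card
  intro g hg
  rw [Finset.mem_filter] at hg ⊢
  obtain ⟨-, h, hr, -⟩ := hg
  refine ⟨Finset.mem_univ _, h, ?_⟩
  have := supp_card_le μ g h
  rw [hr] at this
  exact this

open Classical in
theorem sum_fix (hq : 4 ≤ Fintype.card F) (hn : 200 ≤ n) :
    ((∑ g ∈ Finset.univ.filter (fun g : Mon n F => g ∉ Set.range (scalar : Fˣ → Mon n F)),
          Nat.card {U : Submodule F (Fin n → F) // g • U = U} : ℕ) : ℝ) ≤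
      (Nat.card (Mon n F) : ℝ) * (((n : ℝ) + 1) * (2 ^ (n + 1) *
        (Fintype.card F : ℝ) ^ (15 * n * n / 64))) +
      (Fintype.card F : ℝ) * ∑ s ∈ Finset.Icc 1 n,
        ((n : ℝ) * n * ((Fintype.card F : ℝ) - 1)) ^ (3 * s) *
        (4 * ((n : ℝ) + 1) ^ 2 * (Fintype.card F : ℝ) ^ (n * n / 4) /
          (Fintype.card F : ℝ) ^ (s * n / 8)) := by
  have hq0 : (0 : ℝ) < (Fintype.card F : ℝ) := by exact_mod_cast Fintype.card_pos
  set q : ℝ := (Fintype.card F : ℝ) with hqdef
  set fx : Mon n F → ℕ := fun g => Nat.card {U : Submodule F (Fin n → F) // g • U = U} with hfx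
  set N := Finset.univ.filter (fun g : Mon n F => g ∉ Set.range (scalar : Fˣ → Mon n F)) with hN
  set b : ℕ → ℝ := fun s => 4 * ((n : ℝ) + 1) ^ 2 * q ^ (n * n / 4) / q ^ (s * n / 8) with hb
  have hb0 : ∀ s, 0 ≤ b s := by
    intro s
    simp only [hb]
    positivity
  have htame : ∀ (g : Mon n F) (μ : F) (s : ℕ), TameAt g μ s → (fx g : ℝ) ≤ b s := by
    rintro g μ s ⟨h, hr, hs⟩
    have h1 := tame_fix (F := F) (by omega) g h μ s hr hs
    simp only [hb]
    rw [le_div_iff₀ (by positivity)]
    have h2 : ((fx g * Fintype.card F ^ (s * n / 8) : ℕ) : ℝ)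
        ≤ ((4 * (n + 1) ^ 2 * Fintype.card F ^ (n * n / 4) : ℕ) : ℝ) := by
      exact_mod_cast h1
    push_cast at h2
    exact h2
  have hwild : ∀ g : Mon n F, Wild g → (fx g : ℝ) ≤ ((n : ℝ) + 1) * (2 ^ (n + 1) *
        q ^ (15 * n * n / 64)) := by
    intro g hg
    have h1 := wild_fix hq hn g hg
    have h2 : ((fx g : ℕ) : ℝ)
        ≤ (((n + 1) * (2 ^ (n + 1) * Fintype.card F ^ (15 * n * n / 64)) : ℕ) : ℝ) := by
      exact_mod_cast h1
    push_cast at h2
    exact h2
  have hpt : ∀ g ∈ N, (fx g : ℝ) ≤ ((n : ℝ) + 1) * (2 ^ (n + 1) * q ^ (15 * n * n / 64)) +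
      ∑ μ : F, ∑ s ∈ Finset.Icc 1 n, (if TameAt g μ s then b s else 0) := by
    intro g hg
    rw [hN, Finset.mem_filter] at hg
    have hnn : 0 ≤ ∑ μ : F, ∑ s ∈ Finset.Icc 1 n, (if TameAt g μ s then b s else 0) := by
      apply Finset.sum_nonneg
      intro μ _
      apply Finset.sum_nonneg
      intro s _
      split_ifs
      · exact hb0 s
      · exact le_refl _
    by_cases hw : Wild g
    · have := hwild g hw
      linarith
    · obtain ⟨μ, s, hs, ht⟩ := tame_of_not_wild (by omega) g hw hg.2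
      have h1 := htame g μ s ht
      have h2 : (if TameAt g μ s then b s else 0) ≤
          ∑ s ∈ Finset.Icc 1 n, (if TameAt g μ s then b s else 0) := by
        apply Finset.single_le_sum (f := fun s => if TameAt g μ s then b s else 0) _ hs
        intro s _
        split_ifs
        · exact hb0 s
        · exact le_refl _
      have h3 : ∑ s ∈ Finset.Icc 1 n, (if TameAt g μ s then b s else 0) ≤
          ∑ μ : F, ∑ s ∈ Finset.Icc 1 n, (if TameAt g μ s then b s else 0) := by
        apply Finset.single_le_sum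
          (f := fun μ => ∑ s ∈ Finset.Icc 1 n, (if TameAt g μ s then b s else 0)) _
          (Finset.mem_univ μ)
        intro μ _
        apply Finset.sum_nonneg
        intro s _
        split_ifs
        · exact hb0 s
        · exact le_refl _
      rw [if_pos ht] at h2
      have h4 : 0 ≤ ((n : ℝ) + 1) * (2 ^ (n + 1) * q ^ (15 * n * n / 64)) := by positivity
      linarith
  push_cast
  refine (Finset.sum_le_sum hpt).trans ?_
  rw [Finset.sum_add_distrib]
  apply add_le_add
  · rw [Finset.sum_const, nsmul_eq_mul]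
    apply mul_le_mul_of_nonneg_right _ (by positivity)
    have : N.card ≤ Nat.card (Mon n F) := by
      rw [Nat.card_eq_fintype_card]
      exact Finset.card_le_univ _
    exact_mod_cast this
  · rw [Finset.sum_comm]
    have h5 : ∀ μ ∈ (Finset.univ : Finset F),
        ∑ g ∈ N, ∑ s ∈ Finset.Icc 1 n, (if TameAt g μ s then b s else 0) ≤
        ∑ s ∈ Finset.Icc 1 n, ((n : ℝ) * n * (q - 1)) ^ (3 * s) * b s := by
      intro μ _
      rw [Finset.sum_comm]
      apply Finset.sum_le_sum
      intro s _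
      rw [← Finset.sum_filter, Finset.sum_const, nsmul_eq_mul]
      apply mul_le_mul_of_nonneg_right _ (hb0 s)
      have h6 : (N.filter (fun g => TameAt g μ s)).card
          ≤ (n * n * (Fintype.card F - 1)) ^ (3 * s) := by
        refine le_trans (Finset.card_le_card ?_) (tame_card (by omega) μ s)
        intro g hg
        rw [Finset.mem_filter] at hg ⊢
        exact ⟨Finset.mem_univ _, hg.2⟩
      have h7 : ((N.filter (fun g => TameAt g μ s)).card : ℝ)
          ≤ (((n * n * (Fintype.card F - 1)) ^ (3 * s) : ℕ) : ℝ) := by exact_mod_cast h6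
      refine h7.trans (le_of_eq ?_)
      rw [Nat.cast_pow, Nat.cast_mul, Nat.cast_mul, Nat.cast_sub (by omega), Nat.cast_one]
    refine (Finset.sum_le_sum h5).trans ?_
    rw [Finset.sum_const, Finset.card_univ, nsmul_eq_mul]

end Pool.Agent.Helper46.E
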