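import Pool.Agent.Helper46.E.Total
import Pool.Agent.Helper46.E.SumFix

set_option autoImplicit false
set_option linter.unusedSectionVars false

namespace Pool.Agent.Helper46.E

open Set Module Mon Filter

theorem tend (r : ℝ) (h0 : 0 < r) (h1 : r < 1) (c : ℕ) (hc : 0 < c) (d : ℕ) :
    Tendsto (fun n : ℕ => ((n : ℝ) + 1) ^ d * r ^ (n / c)) atTop (nhds 0) := by
  have e1 : Tendsto (fun m : ℕ => ((m : ℝ) + 1) ^ d * r ^ m) atTop (nhds 0) := by
    have e2 := (tendsto_pow_const_mul_const_pow_of_abs_lt_one d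
      (show |r| < 1 by rw [abs_of_pos h0]; exact h1)).comp (tendsto_add_atTop_nat 1)
    have e3 := e2.mul_const r⁻¹
    rw [zero_mul] at e3
    refine e3.congr ?_
    intro m
    simp only [Function.comp_apply, Nat.cast_add, Nat.cast_one]
    rw [pow_succ]
    field_simp
  have e4 : Tendsto (fun n : ℕ => n / c) atTop atTop :=
    tendsto_atTop_atTop.2 (fun b => ⟨b * c, fun a ha => (Nat.le_div_iff_mul_le hc).2 ha⟩)
  have e5 := (e1.comp e4).const_mul ((c : ℝ) ^ d)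
  rw [mul_zero] at e5
  refine squeeze_zero (fun n => by positivity) ?_ e5
  intro n
  simp only [Function.comp_apply]
  rw [← mul_assoc]
  apply mul_le_mul_of_nonneg_right _ (by positivity)
  rw [← mul_pow]
  apply pow_le_pow_left₀ (by positivity)
  have h2 : n + 1 ≤ c * (n / c + 1) := by
    have := Nat.lt_mul_div_succ n hc
    omega
  exact_mod_cast h2

variable {n : ℕ} {F : Type} [Field F] [Fintype F]

/-- Lower estimate. -/
theorem lower_est (hq : 4 ≤ Fintype.card F) (hn : 200 ≤ n) :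
    (((Fintype.card F : ℝ) - 1) * (ns F (Fin n → F) : ℝ)) *
      (1 - 4 * (1 + (Fintype.card F : ℝ) ^ 3) * (((n : ℝ) + 1) ^ 9 *
        (1 - 1 / (Fintype.card F : ℝ) ^ 3) ^ (n / 64))) ≤
      (Nat.card (Quot (isoRel n F)) : ℝ) * (Nat.card (Mon n F) : ℝ) := by
  obtain ⟨d1, d2, d3⟩ := delta_bounds (F := F) (by omega)
  have h1 := good_le (F := F) (n := n) (by omega)
  have h2 := bad_total (F := F) (n := n) (by omega) (by omega)
  have h3 := ns_lower (F := F) (V := Fin n → F) (by omega)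
  rw [finrank_fin_fun] at h3
  have hq' : (4 : ℝ) ≤ (Fintype.card F : ℝ) := by exact_mod_cast hq
  have h1' : (Nat.card {U : Submodule F (Fin n → F) // Good U} : ℝ) * ((Fintype.card F : ℝ) - 1)
      ≤ (Nat.card (Quot (isoRel n F)) : ℝ) * (Nat.card (Mon n F) : ℝ) := by
    have : ((Nat.card {U : Submodule F (Fin n → F) // Good U} * (Nat.card F - 1) : ℕ) : ℝ)
      ≤ ((Nat.card (Quot (isoRel n F)) * Nat.card (Mon n F) : ℕ) : ℝ) := by exact_mod_cast h1
    rw [Nat.cast_mul, Nat.cast_mul, Nat.card_eq_fintype_card (α := F),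
      Nat.cast_sub (by omega), Nat.cast_one] at this
    exact this
  set q : ℝ := (Fintype.card F : ℝ) with hqdef
  set δ : ℝ := 1 - 1 / q ^ 3 with hδ
  have hδ0 : 0 < δ := by linarith
  set N : ℝ := (ns F (Fin n → F) : ℝ) with hN
  set G : ℝ := (Nat.card {U : Submodule F (Fin n → F) // Good U} : ℝ) with hG
  have e1 : q ^ (3 * n * n / 16) ≤ δ ^ (n / 64) * q ^ (n * n / 4) := by
    have e2 : 3 * n * n / 16 + n / 64 ≤ n * n / 4 := by
      have h4 : 3 * n * n / 16 + n / 64 ≤ 3 * n * n / 16 + n * n / 16 := by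
        have : n / 64 ≤ n * n / 16 := by
          apply Nat.div_le_div (by nlinarith) (by norm_num) (by norm_num)
        omega
      have h5 : 3 * n * n / 16 + n * n / 16 ≤ n * n / 4 := by
        have h6 : 3 * n * n = 3 * (n * n) := by ring
        rw [h6]
        omega
      omega
    have e3 : (1 / q) ^ (n / 64) ≤ δ ^ (n / 64) := pow_le_pow_left₀ d3.le d1 _
    have e4 : q ^ (3 * n * n / 16) * q ^ (n / 64) ≤ q ^ (n * n / 4) := by
      rw [← pow_add]
      exact pow_le_pow_right₀ (by linarith) e2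
    have e5 : q ^ (3 * n * n / 16) ≤ (1 / q) ^ (n / 64) * q ^ (n * n / 4) := by
      rw [one_div_pow, div_mul_eq_mul_div, one_mul, le_div_iff₀ (by positivity)]
      exact e4
    exact e5.trans (mul_le_mul_of_nonneg_right e3 (by positivity))
  have e6 : δ ^ (n / 8) ≤ δ ^ (n / 64) :=
    pow_le_pow_of_le_one hδ0.le d2 (Nat.div_le_div_left (by norm_num) (by norm_num))
  have e7 : (1 + (n : ℝ) ^ 3 * q ^ 3) ≤ (1 + q ^ 3) * ((n : ℝ) + 1) ^ 3 := by
    have h8 : (n : ℝ) ^ 3 ≤ ((n : ℝ) + 1) ^ 3 := pow_le_pow_left₀ (by positivity) (by linarith) 3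
    have h9 : (1 : ℝ) ≤ ((n : ℝ) + 1) ^ 3 := one_le_pow₀ (by linarith [Nat.cast_nonneg (α := ℝ) n])
    have h10 : (n : ℝ) ^ 3 * q ^ 3 ≤ ((n : ℝ) + 1) ^ 3 * q ^ 3 :=
      mul_le_mul_of_nonneg_right h8 (by positivity)
    linarith
  set t : ℝ := δ ^ (n / 64) with ht
  have ht0 : 0 ≤ t := by positivity
  have hnn : (1 : ℝ) ≤ (n : ℝ) + 1 := by linarith [Nat.cast_nonneg (α := ℝ) n]
  have e8 : ((n : ℝ) + 1) * (2 * ((1 + (n : ℝ) ^ 3 * q ^ 3) * δ ^ (n / 8)) * q ^ (n * n / 4)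
      + 2 * q ^ (3 * n * n / 16))
      ≤ (4 * (1 + q ^ 3) * (((n : ℝ) + 1) ^ 9 * t)) * q ^ (n * n / 4) := by
    have f1 : (1 + (n : ℝ) ^ 3 * q ^ 3) * δ ^ (n / 8) ≤ ((1 + q ^ 3) * ((n : ℝ) + 1) ^ 3) * t :=
      mul_le_mul e7 e6 (by positivity) (by positivity)
    have f2 : ((n : ℝ) + 1) ^ 4 ≤ ((n : ℝ) + 1) ^ 9 := pow_le_pow_right₀ hnn (by norm_num)
    have f3 : ((n : ℝ) + 1) ≤ ((n : ℝ) + 1) ^ 9 := le_self_pow₀ hnn (by norm_num)
    have f4 : (1 : ℝ) ≤ 1 + q ^ 3 := by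
      have : 0 ≤ q ^ 3 := by positivity
      linarith
    have f5 : ((n : ℝ) + 1) * (2 * ((1 + (n : ℝ) ^ 3 * q ^ 3) * δ ^ (n / 8)) * q ^ (n * n / 4))
        ≤ (2 * (1 + q ^ 3) * (((n : ℝ) + 1) ^ 9 * t)) * q ^ (n * n / 4) := by
      rw [← mul_assoc]
      apply mul_le_mul_of_nonneg_right _ (by positivity)
      calc ((n : ℝ) + 1) * (2 * ((1 + (n : ℝ) ^ 3 * q ^ 3) * δ ^ (n / 8)))
          ≤ ((n : ℝ) + 1) * (2 * (((1 + q ^ 3) * ((n : ℝ) + 1) ^ 3) * t)) := by
            apply mul_le_mul_of_nonneg_left _ (by positivity)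
            linarith
        _ = 2 * (1 + q ^ 3) * (((n : ℝ) + 1) ^ 4 * t) := by ring
        _ ≤ 2 * (1 + q ^ 3) * (((n : ℝ) + 1) ^ 9 * t) := by
            apply mul_le_mul_of_nonneg_left _ (by positivity)
            exact mul_le_mul_of_nonneg_right f2 ht0
    have f6 : ((n : ℝ) + 1) * (2 * q ^ (3 * n * n / 16))
        ≤ (2 * (1 + q ^ 3) * (((n : ℝ) + 1) ^ 9 * t)) * q ^ (n * n / 4) := by
      calc ((n : ℝ) + 1) * (2 * q ^ (3 * n * n / 16))
          ≤ ((n : ℝ) + 1) * (2 * (t * q ^ (n * n / 4))) := by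
            apply mul_le_mul_of_nonneg_left _ (by positivity)
            linarith
        _ = (2 * 1 * (((n : ℝ) + 1) * t)) * q ^ (n * n / 4) := by ring
        _ ≤ (2 * (1 + q ^ 3) * (((n : ℝ) + 1) ^ 9 * t)) * q ^ (n * n / 4) := by
            apply mul_le_mul_of_nonneg_right _ (by positivity)
            apply mul_le_mul
            · linarith
            · exact mul_le_mul_of_nonneg_right f3 ht0
            · positivity
            · positivity
    rw [mul_add]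
    calc _ ≤ (2 * (1 + q ^ 3) * (((n : ℝ) + 1) ^ 9 * t)) * q ^ (n * n / 4) +
        (2 * (1 + q ^ 3) * (((n : ℝ) + 1) ^ 9 * t)) * q ^ (n * n / 4) := add_le_add f5 f6
      _ = _ := by ring
  set Q : ℝ := 4 * (1 + q ^ 3) * (((n : ℝ) + 1) ^ 9 * t) with hQ
  have hQ0 : 0 ≤ Q := by positivity
  have e9 : N * (1 - Q) ≤ G := by
    have : Q * q ^ (n * n / 4) ≤ Q * N := mul_le_mul_of_nonneg_left h3 hQ0
    linarith
  calc (q - 1) * N * (1 - Q) = (N * (1 - Q)) * (q - 1) := by ring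
    _ ≤ G * (q - 1) := mul_le_mul_of_nonneg_right e9 (by linarith)
    _ ≤ _ := h1'

end Pool.Agent.Helper46.E
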