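import Pool.Agent.Helper46.E.GoodBound

set_option autoImplicit false
set_option linter.unusedSectionVars false

namespace Pool.Agent.Helper46.E

open Set Module Mon

variable {n j : ℕ} {F : Type} [Field F] [Fintype F]

theorem rowSp_eq (U : Submodule F (Fin n → F)) (hU : finrank F U = j)
    (s : Fin j → U) (hs : LinearIndependent F s) :
    rowSp (fun i k => (s k : Fin n → F) i) = U := by
  rw [rowSp]
  apply Submodule.eq_of_le_of_finrank_eq
  · rw [Submodule.span_le]
    rintro _ ⟨k, rfl⟩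
    exact (s k).2
  · have h1 : LinearIndependent F (fun k => (s k : Fin n → F)) :=
      hs.map' U.subtype (Submodule.ker_subtype _)
    have h2 := finrank_span_eq_card h1
    rw [Fintype.card_fin] at h2
    rw [hU]
    exact h2

theorem pairs_card :
    Nat.card {U : Submodule F (Fin n → F) // finrank F U = j ∧ ¬ Good U} *
      ∏ i ∈ Finset.range j, (Fintype.card F ^ j - Fintype.card F ^ i)
      ≤ Nat.card {c : Fin n → Fin j → F // ¬ Good (rowSp c)} := by
  classical
  let _ : Fintype {U : Submodule F (Fin n → F) // finrank F U = j ∧ ¬ Good U} :=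
    Fintype.ofFinite _
  have h2 : ∀ U : {U : Submodule F (Fin n → F) // finrank F U = j ∧ ¬ Good U},
      Nat.card {s : Fin j → U.1 // LinearIndependent F s}
        = ∏ i ∈ Finset.range j, (Fintype.card F ^ j - Fintype.card F ^ i) := by
    intro U
    rw [card_linearIndependent (K := F) (V := U.1) (by rw [U.2.1]),
      U.2.1, Finset.prod_range]
  have h3 : Nat.card (Σ U : {U : Submodule F (Fin n → F) // finrank F U = j ∧ ¬ Good U},
      {s : Fin j → U.1 // LinearIndependent F s})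
      = Nat.card {U : Submodule F (Fin n → F) // finrank F U = j ∧ ¬ Good U} *
      ∏ i ∈ Finset.range j, (Fintype.card F ^ j - Fintype.card F ^ i) := by
    rw [Nat.card_sigma, Finset.sum_congr rfl (fun U _ => h2 U), Finset.sum_const, smul_eq_mul,
      Nat.card_eq_fintype_card, Finset.card_univ]
  rw [← h3]
  refine Nat.card_le_card_of_injective
    (fun x => ⟨fun i k => (x.2.1 k : Fin n → F) i, ?_⟩) ?_
  · rw [rowSp_eq x.1.1 x.1.2.1 x.2.1 x.2.2]
    exact x.1.2.2
  · rintro ⟨⟨U, hU⟩, s, hs⟩ ⟨⟨U', hU'⟩, s', hs'⟩ h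
    have h4 := congrArg Subtype.val h
    simp only at h4
    have h5 : U = U' := by
      rw [← rowSp_eq U hU.1 s hs, ← rowSp_eq U' hU'.1 s' hs', h4]
    subst h5
    have h6 : s = s' := by
      ext k i
      exact congrFun (congrFun h4 i) k
    subst h6
    rfl

theorem card_lt_sub (a : ℕ) (ha : a ≤ n) : Nat.card {i : Fin n // i.val < a} = a := by
  have h : Nat.card (Fin a) = a := Nat.card_fin a
  conv_rhs => rw [← h]
  refine Nat.card_congr ⟨fun i => ⟨i.1.1, i.2⟩, fun i => ⟨⟨i.1, i.2.trans_le ha⟩, i.2⟩,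
    fun _ => rfl, fun _ => rfl⟩

theorem card_not_lt_sub (a : ℕ) (ha : a ≤ n) : Nat.card {i : Fin n // ¬ i.val < a} = n - a := by
  have h1 := Fintype.card_subtype_compl (fun i : Fin n => i.val < a)
  rw [← Nat.card_eq_fintype_card, ← Nat.card_eq_fintype_card, ← Nat.card_eq_fintype_card,
    card_lt_sub a ha, Nat.card_fin] at h1
  exact h1

theorem bad_mat (hj : 3 ≤ j) (t : ℕ) (hjt : j + t ≤ n) :
    (Nat.card {c : Fin n → Fin j → F // ¬ Good (rowSp c)} : ℝ) ≤
      (1 / (Fintype.card F : ℝ) ^ t + (n : ℝ) ^ 3 * (Fintype.card F : ℝ) ^ 3 *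
        (1 - 1 / (Fintype.card F : ℝ) ^ 3) ^ (n - (j + t))) * (Fintype.card F : ℝ) ^ (j * n) := by
  classical
  have hq1 : (1 : ℝ) < (Fintype.card F : ℝ) := by exact_mod_cast (one_lt_card (F := F))
  set q : ℝ := (Fintype.card F : ℝ) with hqdef
  set S : Finset (Fin n → Fin j → F) := Finset.univ.filter (fun c => ¬ Good (rowSp c)) with hS
  have h0 : Nat.card {c : Fin n → Fin j → F // ¬ Good (rowSp c)} = S.card := by
    rw [Nat.card_eq_fintype_card, Fintype.card_subtype]
  have ha := card_lt_sub (n := n) (j + t) hjt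
  have hb := card_not_lt_sub (n := n) (j + t) hjt
  have h1 := bad1_count (fun i : Fin n => i.val < j + t) _ _ ha hb
    (S.filter (fun c => Submodule.span F (c '' {i | i.val < j + t}) ≠ ⊤))
    (fun c hc => (Finset.mem_filter.1 hc).2)
  have h2 := bad2_count hj (fun i : Fin n => i.val < j + t) _ _ ha hb
    (S.filter (fun c => ¬ (Submodule.span F (c '' {i | i.val < j + t}) ≠ ⊤)))
    (fun c hc => ⟨not_not.1 (Finset.mem_filter.1 hc).2,
      (Finset.mem_filter.1 (Finset.mem_filter.1 hc).1).2⟩)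
  have h3 := Finset.card_filter_add_card_filter_not (s := S)
    (fun c => Submodule.span F (c '' {i | i.val < j + t}) ≠ ⊤)
  have h1' : ((S.filter (fun c => Submodule.span F (c '' {i | i.val < j + t}) ≠ ⊤)).card : ℝ)
      ≤ q ^ j * ((q ^ (j - 1)) ^ (j + t) * (q ^ j) ^ (n - (j + t))) := by
    rw [hqdef]
    exact_mod_cast h1
  have h3' : (S.card : ℝ) =
      ((S.filter (fun c => Submodule.span F (c '' {i | i.val < j + t}) ≠ ⊤)).card : ℝ) +
      ((S.filter (fun c => ¬ (Submodule.span F (c '' {i | i.val < j + t}) ≠ ⊤))).card : ℝ) := by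
    rw [← h3]
    push_cast
    rfl
  rw [h0, h3']
  obtain ⟨r, hr⟩ := Nat.exists_eq_add_of_le hjt
  have hnr : n - (j + t) = r := by omega
  rw [hnr] at h1' h2 ⊢
  have e1 : q ^ j * ((q ^ (j - 1)) ^ (j + t) * (q ^ j) ^ r) = 1 / q ^ t * q ^ (j * n) := by
    have : q ^ t ≠ 0 := by positivity
    rw [div_mul_eq_mul_div, one_mul, eq_div_iff this, ← pow_mul, ← pow_mul, ← pow_add, ← pow_add,
      ← pow_add]
    congr 1
    obtain ⟨l, rfl⟩ : ∃ l, j = l + 1 := ⟨j - 1, by omega⟩
    rw [Nat.add_sub_cancel, hr]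
    ring
  have e2 : (n : ℝ) ^ 3 * q ^ 3 * ((q ^ j) ^ (j + t) * (q ^ j * (1 - 1 / q ^ 3)) ^ r)
      = (n : ℝ) ^ 3 * q ^ 3 * (1 - 1 / q ^ 3) ^ r * q ^ (j * n) := by
    have e3 : q ^ (j * n) = (q ^ j) ^ (j + t) * (q ^ j) ^ r := by
      rw [pow_mul, ← pow_add, ← hr]
    rw [e3, mul_pow]
    ring
  rw [e1] at h1'
  rw [e2] at h2
  rw [add_mul]
  exact add_le_add h1' h2

theorem bad_sub (hq : 3 ≤ Fintype.card F) (hj : 3 ≤ j) (t : ℕ) (hjt : j + t ≤ n) :
    (Nat.card {U : Submodule F (Fin n → F) // finrank F U = j ∧ ¬ Good U} : ℝ) ≤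
      2 * (1 / (Fintype.card F : ℝ) ^ t + (n : ℝ) ^ 3 * (Fintype.card F : ℝ) ^ 3 *
        (1 - 1 / (Fintype.card F : ℝ) ^ 3) ^ (n - (j + t))) *
        (Fintype.card F : ℝ) ^ (n * n / 4) := by
  classical
  have h1 := bad_mat (F := F) hj t hjt
  have h2 := pairs_card (F := F) (n := n) (j := j)
  set X : ℕ := Nat.card {U : Submodule F (Fin n → F) // finrank F U = j ∧ ¬ Good U} with hX
  have hq' : (3 : ℝ) ≤ (Fintype.card F : ℝ) := by exact_mod_cast hq
  set q : ℝ := (Fintype.card F : ℝ) with hqdef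
  have h3 : ((∏ i ∈ Finset.range j, (Fintype.card F ^ j - Fintype.card F ^ i) : ℕ) : ℝ)
      = ∏ i ∈ Finset.range j, (q ^ j - q ^ i) := by
    rw [Nat.cast_prod]
    apply Finset.prod_congr rfl
    intro i hi
    rw [Nat.cast_sub]
    · push_cast
      rfl
    · exact Nat.pow_le_pow_right (by omega) (Finset.mem_range.1 hi).le
  have h4 := prod_bound q hq' j
  set ε : ℝ := 1 / q ^ t + (n : ℝ) ^ 3 * q ^ 3 * (1 - 1 / q ^ 3) ^ (n - (j + t)) with hε
  have h5 : (X : ℝ) * ∏ i ∈ Finset.range j, (q ^ j - q ^ i) ≤ ε * q ^ (j * n) := by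
    rw [← h3]
    refine le_trans ?_ h1
    exact_mod_cast h2
  have hδ : 0 ≤ (1 - 1 / q ^ 3) := by
    rw [sub_nonneg, div_le_iff₀ (by positivity), one_mul]
    exact one_le_pow₀ (by linarith)
  have hε0 : 0 ≤ ε := by positivity
  have h6 : (X : ℝ) * q ^ (j * j) ≤ 2 * ε * q ^ (j * n) := by
    calc (X : ℝ) * q ^ (j * j) ≤ X * (2 * ∏ i ∈ Finset.range j, (q ^ j - q ^ i)) :=
          mul_le_mul_of_nonneg_left h4 (Nat.cast_nonneg _)
      _ = 2 * (X * ∏ i ∈ Finset.range j, (q ^ j - q ^ i)) := by ring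
      _ ≤ 2 * (ε * q ^ (j * n)) := by linarith
      _ = _ := by ring
  have hjn : j ≤ n := by omega
  have e1 : q ^ (j * n) = q ^ (j * (n - j)) * q ^ (j * j) := by
    rw [← pow_add, ← Nat.mul_add, Nat.sub_add_cancel hjn]
  rw [e1, ← mul_assoc] at h6
  have h7 : (X : ℝ) ≤ 2 * ε * q ^ (j * (n - j)) := le_of_mul_le_mul_right h6 (by positivity)
  refine h7.trans ?_
  apply mul_le_mul_of_nonneg_left _ (by positivity)
  exact pow_le_pow_right₀ (by linarith) (mul_sub_le n j hjn)

end Pool.Agent.Helper46.E
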