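import Mathlib

set_option autoImplicit false

namespace Pool.Agent.Helper46.E

open Module

/-- Number of `j`-dimensional subspaces. -/
noncomputable def nd (F V : Type) [Field F] [AddCommGroup V] [Module F V] (j : ℕ) : ℕ :=
  Nat.card {U : Submodule F V // finrank F U = j}

/-- Number of all subspaces. -/
noncomputable def ns (F V : Type) [Field F] [AddCommGroup V] [Module F V] : ℕ :=
  Nat.card (Submodule F V)

section

set_option linter.unusedSectionVars false

variable {F V : Type} [Field F] [Fintype F] [AddCommGroup V] [Module F V] [Finite V]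

noncomputable instance : FiniteDimensional F V := Module.Finite.of_finite

/-- The subspace spanned by an independent family. -/
noncomputable def spanSub (j : ℕ) (s : {s : Fin j → V // LinearIndependent F s}) :
    {U : Submodule F V // finrank F U = j} :=
  ⟨Submodule.span F (Set.range s.1), by rw [finrank_span_eq_card s.2, Fintype.card_fin]⟩

noncomputable def fiberEquiv (j : ℕ) (U : {U : Submodule F V // finrank F U = j}) :
    {s : {s : Fin j → V // LinearIndependent F s} // spanSub j s = U} ≃
      {s : Fin j → U.1 // LinearIndependent F s} where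
  toFun s := ⟨fun i => ⟨s.1.1 i, by
      have h : Submodule.span F (Set.range s.1.1) = U.1 := congrArg Subtype.val s.2
      rw [← h]
      exact Submodule.subset_span ⟨i, rfl⟩⟩, by
      apply LinearIndependent.of_comp U.1.subtype
      exact s.1.2⟩
  invFun s := ⟨⟨fun i => (s.1 i : V), s.2.map' U.1.subtype (Submodule.ker_subtype _)⟩, by
      apply Subtype.ext
      apply Submodule.eq_of_le_of_finrank_eq
      · rw [spanSub, Submodule.span_le]
        rintro _ ⟨i, rfl⟩
        exact (s.1 i).2
      · rw [(spanSub j _).2, U.2]⟩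
  left_inv s := by
    apply Subtype.ext
    apply Subtype.ext
    rfl
  right_inv s := by
    apply Subtype.ext
    rfl

theorem nd_mul (j : ℕ) (hj : j ≤ finrank F V) :
    nd F V j * ∏ i ∈ Finset.range j, (Fintype.card F ^ j - Fintype.card F ^ i)
      = ∏ i ∈ Finset.range j, (Fintype.card F ^ finrank F V - Fintype.card F ^ i) := by
  classical
  have : Fintype V := Fintype.ofFinite V
  have h1 := card_linearIndependent (K := F) (V := V) hj
  have h2 : ∀ U : {U : Submodule F V // finrank F U = j},
      Nat.card {s : {s : Fin j → V // LinearIndependent F s} // spanSub j s = U}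
        = ∏ i ∈ Finset.range j, (Fintype.card F ^ j - Fintype.card F ^ i) := by
    intro U
    rw [Nat.card_congr (fiberEquiv j U), card_linearIndependent (K := F) (V := U.1) (by rw [U.2]),
      U.2, Finset.prod_range]
  rw [← Nat.card_congr (Equiv.sigmaFiberEquiv (spanSub (F := F) (V := V) j)), Nat.card_sigma] at h1
  rw [Finset.prod_range (fun i => (Fintype.card F ^ finrank F V - Fintype.card F ^ i)), ← h1,
    Finset.sum_congr rfl (fun U _ => h2 U), Finset.sum_const, smul_eq_mul, nd,
    Nat.card_eq_fintype_card, Finset.card_univ]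

theorem one_lt_card : 1 < Fintype.card F := Fintype.one_lt_card

theorem ns_eq_sum : ns F V = ∑ j ∈ Finset.range (finrank F V + 1), nd F V j := by
  classical
  have : Fintype V := Fintype.ofFinite V
  have hfin : Finite (Submodule F V) := inferInstance
  have : Fintype (Submodule F V) := Fintype.ofFinite _
  unfold ns nd
  rw [Nat.card_eq_fintype_card, ← Finset.card_univ]
  rw [Finset.card_eq_sum_card_fiberwise (f := fun U : Submodule F V => finrank F U)
    (t := Finset.range (finrank F V + 1))]
  · apply Finset.sum_congr rfl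
    intro j _
    rw [Nat.card_eq_fintype_card, Fintype.card_subtype]
  · intro U _
    rw [Finset.mem_coe, Finset.mem_range]
    exact Nat.lt_succ_of_le (Submodule.finrank_le U)

theorem nd_congr {V' : Type} [AddCommGroup V'] [Module F V'] (e : V ≃ₗ[F] V') (j : ℕ) :
    nd F V j = nd F V' j := by
  unfold nd
  refine Nat.card_congr ((Submodule.orderIsoMapComap e).toEquiv.subtypeEquiv ?_)
  intro U
  have : finrank F (Submodule.map (e : V →ₗ[F] V') U) = finrank F U :=
    LinearEquiv.finrank_eq (e.submoduleMap U).symm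
  constructor
  · intro h
    rw [← h]
    exact this
  · intro h
    rw [← h]
    exact this.symm

theorem ns_congr {V' : Type} [AddCommGroup V'] [Module F V'] (e : V ≃ₗ[F] V') :
    ns F V = ns F V' :=
  Nat.card_congr (Submodule.orderIsoMapComap e).toEquiv

/-- Real product bound. -/
theorem prod_bound (q : ℝ) (hq : 3 ≤ q) (j : ℕ) :
    q ^ (j * j) ≤ 2 * ∏ i ∈ Finset.range j, (q ^ j - q ^ i) := by
  have hq0 : 0 < q := by linarith
  have key : ∀ m : ℕ, 1 + (q ^ m)⁻¹ ≤ 2 * ∏ i ∈ Finset.range m, (1 - (q ^ (i + 1))⁻¹) := by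
    intro m
    induction m with
    | zero => norm_num
    | succ m ih =>
      rw [Finset.prod_range_succ]
      have h1 : 0 ≤ 1 - (q ^ (m + 1))⁻¹ := by
        rw [sub_nonneg]
        apply inv_le_one_of_one_le₀
        exact one_le_pow₀ (by linarith)
      have h2 : (1 + (q ^ m)⁻¹) * (1 - (q ^ (m + 1))⁻¹)
          ≤ (2 * ∏ i ∈ Finset.range m, (1 - (q ^ (i + 1))⁻¹)) * (1 - (q ^ (m + 1))⁻¹) :=
        mul_le_mul_of_nonneg_right ih h1
      have h3 : 1 + (q ^ (m + 1))⁻¹ ≤ (1 + (q ^ m)⁻¹) * (1 - (q ^ (m + 1))⁻¹) := by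
        have hy : (q ^ m)⁻¹ = q * (q ^ (m + 1))⁻¹ := by
          rw [pow_succ]; field_simp
        rw [hy]
        set y := (q ^ (m + 1))⁻¹ with hy'
        have hy0 : 0 < y := by positivity
        have hy1 : q * y ≤ 1 := by
          rw [← hy]
          apply inv_le_one_of_one_le₀
          exact one_le_pow₀ (by linarith)
        nlinarith
      calc 1 + (q ^ (m + 1))⁻¹ ≤ _ := h3
        _ ≤ _ := h2
        _ = _ := by ring
  have h := key j
  have h0 : (0 : ℝ) < (q ^ j)⁻¹ := by positivity
  have h1 : ∏ i ∈ Finset.range j, (q ^ j - q ^ i)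
      = q ^ (j * j) * ∏ i ∈ Finset.range j, (1 - (q ^ (i + 1))⁻¹) := by
    have hc : q ^ (j * j) = ∏ i ∈ Finset.range j, q ^ j := by
      rw [Finset.prod_const, Finset.card_range, pow_mul]
    rw [← Finset.prod_range_reflect (fun i => (1 - (q ^ (i + 1))⁻¹)), hc,
      ← Finset.prod_mul_distrib]
    apply Finset.prod_congr rfl
    intro i hi
    rw [Finset.mem_range] at hi
    have : q ^ j = q ^ i * q ^ (j - 1 - i + 1) := by rw [← pow_add]; congr 1; omega
    rw [mul_sub, mul_one, sub_right_inj, this]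
    field_simp
  rw [h1]
  have h2 : (0 : ℝ) < q ^ (j * j) := by positivity
  nlinarith

theorem prod_pos (q : ℝ) (hq : 3 ≤ q) (j n : ℕ) (hjn : j ≤ n) :
    0 < ∏ i ∈ Finset.range j, (q ^ n - q ^ i) := by
  apply Finset.prod_pos
  intro i hi
  rw [Finset.mem_range] at hi
  rw [sub_pos]
  exact pow_lt_pow_right₀ (by linarith) (by omega)

theorem nd_mul_real (j : ℕ) (hj : j ≤ finrank F V) :
    (nd F V j : ℝ) * ∏ i ∈ Finset.range j, ((Fintype.card F : ℝ) ^ j - (Fintype.card F : ℝ) ^ i)
      = ∏ i ∈ Finset.range j,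
        ((Fintype.card F : ℝ) ^ finrank F V - (Fintype.card F : ℝ) ^ i) := by
  have h := nd_mul (F := F) (V := V) j hj
  have hq : 1 ≤ Fintype.card F := one_lt_card.le
  have h2 := congrArg (fun x : ℕ => (x : ℝ)) h
  simp only [Nat.cast_mul, Nat.cast_prod] at h2
  have e1 : ∀ m, j ≤ m → ∏ i ∈ Finset.range j, ((Fintype.card F ^ m - Fintype.card F ^ i : ℕ) : ℝ)
      = ∏ i ∈ Finset.range j, ((Fintype.card F : ℝ) ^ m - (Fintype.card F : ℝ) ^ i) := by
    intro m hm
    apply Finset.prod_congr rfl
    intro i hi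
    rw [Finset.mem_range] at hi
    rw [Nat.cast_sub (Nat.pow_le_pow_right hq (by omega))]
    push_cast
    rfl
  rw [e1 j le_rfl, e1 _ hj] at h2
  exact h2

theorem nd_upper (hq : 3 ≤ Fintype.card F) (j : ℕ) (hj : j ≤ finrank F V) :
    (nd F V j : ℝ) ≤ 2 * (Fintype.card F : ℝ) ^ (j * (finrank F V - j)) := by
  have h := nd_mul_real (F := F) (V := V) j hj
  set q : ℝ := (Fintype.card F : ℝ) with hqdef
  set n := finrank F V
  have hq' : (3 : ℝ) ≤ q := by rw [hqdef]; exact_mod_cast hq
  have hq0 : (0 : ℝ) < q := by linarith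
  have h1 := prod_bound q hq' j
  have h2 : ∏ i ∈ Finset.range j, (q ^ n - q ^ i) ≤ q ^ (n * j) := by
    rw [pow_mul, ← Finset.card_range j, ← Finset.prod_const, Finset.card_range]
    apply Finset.prod_le_prod
    · intro i hi
      rw [Finset.mem_range] at hi
      rw [sub_nonneg]
      exact pow_le_pow_right₀ (by linarith) (by omega)
    · intro i _
      have : 0 < q ^ i := by positivity
      linarith
  have h3 : (nd F V j : ℝ) * q ^ (j * j) ≤ 2 * q ^ (n * j) := by
    calc (nd F V j : ℝ) * q ^ (j * j)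
        ≤ (nd F V j : ℝ) * (2 * ∏ i ∈ Finset.range j, (q ^ j - q ^ i)) :=
          mul_le_mul_of_nonneg_left h1 (Nat.cast_nonneg _)
      _ = 2 * ((nd F V j : ℝ) * ∏ i ∈ Finset.range j, (q ^ j - q ^ i)) := by ring
      _ = 2 * ∏ i ∈ Finset.range j, (q ^ n - q ^ i) := by rw [h]
      _ ≤ _ := by linarith
  have h4 : q ^ (n * j) = q ^ (j * (n - j)) * q ^ (j * j) := by
    rw [← pow_add]
    congr 1
    obtain ⟨m, hm⟩ := Nat.exists_eq_add_of_le hj
    rw [hm, Nat.add_sub_cancel_left]
    ring
  rw [h4] at h3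
  have h5 : (0 : ℝ) < q ^ (j * j) := by positivity
  have h6 : (nd F V j : ℝ) * q ^ (j * j) ≤ (2 * q ^ (j * (n - j))) * q ^ (j * j) := by
    rw [mul_assoc]; exact h3
  exact le_of_mul_le_mul_right h6 h5

theorem nd_lower (hq : 3 ≤ Fintype.card F) (j : ℕ) (hj : j ≤ finrank F V) :
    (Fintype.card F : ℝ) ^ (j * (finrank F V - j)) ≤ (nd F V j : ℝ) := by
  have h := nd_mul_real (F := F) (V := V) j hj
  set q : ℝ := (Fintype.card F : ℝ) with hqdef
  set n := finrank F V
  have hq' : (3 : ℝ) ≤ q := by rw [hqdef]; exact_mod_cast hq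
  have hq0 : (0 : ℝ) < q := by linarith
  have hpos := prod_pos q hq' j j le_rfl
  have h2 : q ^ (j * (n - j)) * ∏ i ∈ Finset.range j, (q ^ j - q ^ i)
      ≤ ∏ i ∈ Finset.range j, (q ^ n - q ^ i) := by
    rw [mul_comm j, pow_mul, ← Finset.card_range j, ← Finset.prod_const, Finset.card_range,
      ← Finset.prod_mul_distrib]
    apply Finset.prod_le_prod
    · intro i hi
      rw [Finset.mem_range] at hi
      apply mul_nonneg (by positivity)
      rw [sub_nonneg]
      exact pow_le_pow_right₀ (by linarith) (by omega)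
    · intro i _
      rw [mul_sub, ← pow_add, Nat.sub_add_cancel hj]
      have h3 : 1 * q ^ i ≤ q ^ (n - j) * q ^ i := by
        apply mul_le_mul_of_nonneg_right _ (by positivity)
        exact one_le_pow₀ (by linarith)
      linarith
  rw [← h] at h2
  exact le_of_mul_le_mul_right h2 hpos

/-- The Gaussian binomial formula. -/
theorem nd_formula (hq : 3 ≤ Fintype.card F) (j : ℕ) (hj : j ≤ finrank F V) :
    (nd F V j : ℝ) = ∏ i ∈ Finset.range j,
      (((Fintype.card F : ℝ) ^ (finrank F V - i) - 1) / ((Fintype.card F : ℝ) ^ (i + 1) - 1)) := by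
  have h := nd_mul_real (F := F) (V := V) j hj
  set q : ℝ := (Fintype.card F : ℝ) with hqdef
  set n := finrank F V
  have hq' : (3 : ℝ) ≤ q := by rw [hqdef]; exact_mod_cast hq
  have hq0 : (0 : ℝ) < q := by linarith
  have hpos := prod_pos q hq' j j le_rfl
  rw [Finset.prod_div_distrib, ← Finset.prod_range_reflect (fun i => q ^ (i + 1) - 1)]
  have e1 : ∀ m, j ≤ m → ∏ i ∈ Finset.range j, (q ^ m - q ^ i)
      = (∏ i ∈ Finset.range j, q ^ i) * ∏ i ∈ Finset.range j, (q ^ (m - i) - 1) := by
    intro m hm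
    rw [← Finset.prod_mul_distrib]
    apply Finset.prod_congr rfl
    intro i hi
    rw [Finset.mem_range] at hi
    rw [mul_sub, mul_one, ← pow_add]
    congr 2
    omega
  have e2 : ∏ i ∈ Finset.range j, (q ^ (j - 1 - i + 1) - 1)
      = ∏ i ∈ Finset.range j, (q ^ (j - i) - 1) := by
    apply Finset.prod_congr rfl
    intro i hi
    rw [Finset.mem_range] at hi
    congr 2
    omega
  rw [e2]
  rw [e1 j le_rfl, e1 n hj] at h
  rw [e1 j le_rfl] at hpos
  have hA : (0 : ℝ) < ∏ i ∈ Finset.range j, q ^ i := Finset.prod_pos (fun i _ => by positivity)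
  have hB : (0 : ℝ) < ∏ i ∈ Finset.range j, (q ^ (j - i) - 1) := by
    by_contra hcon
    push Not at hcon
    nlinarith
  rw [eq_div_iff hB.ne']
  have := mul_left_cancel₀ hA.ne' (show (∏ i ∈ Finset.range j, q ^ i) *
      ((nd F V j : ℝ) * ∏ i ∈ Finset.range j, (q ^ (j - i) - 1))
      = (∏ i ∈ Finset.range j, q ^ i) * ∏ i ∈ Finset.range j, (q ^ (n - i) - 1) by
        rw [← h]; ring)
  exact this

theorem mul_sub_le (n j : ℕ) (hj : j ≤ n) : j * (n - j) ≤ n * n / 4 := by
  rw [Nat.le_div_iff_mul_le (by norm_num)]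
  obtain ⟨m, rfl⟩ := Nat.exists_eq_add_of_le hj
  rw [Nat.add_sub_cancel_left]
  nlinarith [Nat.le_total j m, sq_nonneg ((j : ℤ) - m)]

theorem half_mul (n : ℕ) : (n / 2) * (n - n / 2) = n * n / 4 := by
  rcases Nat.even_or_odd' n with ⟨m, rfl | rfl⟩
  · have h1 : 2 * m / 2 = m := by omega
    have h2 : 2 * m * (2 * m) / 4 = m * m := by
      rw [show 2 * m * (2 * m) = 4 * (m * m) by ring, Nat.mul_div_cancel_left _ (by norm_num)]
    rw [h1, h2]
    congr 1
    omega
  · have h1 : (2 * m + 1) / 2 = m := by omega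
    have h2 : (2 * m + 1) * (2 * m + 1) / 4 = m * m + m := by
      rw [show (2 * m + 1) * (2 * m + 1) = 1 + 4 * (m * m + m) by ring,
        Nat.add_mul_div_left _ _ (by norm_num)]
      simp
    rw [h1, h2]
    have : 2 * m + 1 - m = m + 1 := by omega
    rw [this]; ring

theorem ns_upper (hq : 3 ≤ Fintype.card F) :
    (ns F V : ℝ) ≤ 2 * ((finrank F V : ℝ) + 1) *
      (Fintype.card F : ℝ) ^ (finrank F V * finrank F V / 4) := by
  rw [ns_eq_sum]
  push_cast
  have hq' : (1 : ℝ) ≤ (Fintype.card F : ℝ) := by exact_mod_cast (by omega : 1 ≤ Fintype.card F)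
  calc ∑ j ∈ Finset.range (finrank F V + 1), (nd F V j : ℝ)
      ≤ ∑ j ∈ Finset.range (finrank F V + 1),
        2 * (Fintype.card F : ℝ) ^ (finrank F V * finrank F V / 4) := by
        apply Finset.sum_le_sum
        intro j hj
        rw [Finset.mem_range] at hj
        have hj' : j ≤ finrank F V := by omega
        refine (nd_upper hq j hj').trans ?_
        apply mul_le_mul_of_nonneg_left _ (by norm_num)
        exact pow_le_pow_right₀ hq' (mul_sub_le _ _ hj')
    _ = _ := by
        rw [Finset.sum_const, Finset.card_range, nsmul_eq_mul]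
        push_cast
        ring

theorem nd_le_ns (j : ℕ) : nd F V j ≤ ns F V := by
  unfold nd ns
  exact Nat.card_le_card_of_injective _ Subtype.val_injective

theorem ns_lower (hq : 3 ≤ Fintype.card F) :
    (Fintype.card F : ℝ) ^ (finrank F V * finrank F V / 4) ≤ (ns F V : ℝ) := by
  have h := nd_lower (F := F) (V := V) hq (finrank F V / 2) (Nat.div_le_self _ _)
  rw [half_mul] at h
  refine h.trans ?_
  exact_mod_cast nd_le_ns _

end

end Pool.Agent.Helper46.E
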