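import Pool.Agent.Helper46.E.Upper

set_option autoImplicit false
set_option linter.unusedSectionVars false

namespace Pool.Agent.Helper46.E

open Set Module Mon Filter

/-- The conjectured main term. -/
noncomputable def mainTerm (q : ℝ) (k : ℕ) (n : ℕ) : ℝ :=
  (∑ j ∈ Finset.range (n + 1), ∏ i ∈ Finset.range j,
          ((q ^ (n - i) - 1) / (q ^ (i + 1) - 1))) /
        ((n.factorial : ℝ) * (k : ℝ) * (q - 1) ^ (n - 1))

variable {F : Type} [Field F] [Fintype F]

theorem mainTerm_eq (hq : 4 ≤ Fintype.card F) (k : ℕ) (hk : Nat.card (F ≃+* F) = k) (hk0 : 0 < k)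
    (n : ℕ) (hn : 0 < n) :
    mainTerm (Fintype.card F : ℝ) k n =
      (((Fintype.card F : ℝ) - 1) * (ns F (Fin n → F) : ℝ)) / (Nat.card (Mon n F) : ℝ) := by
  have hq' : (4 : ℝ) ≤ (Fintype.card F : ℝ) := by exact_mod_cast hq
  have h1 : (ns F (Fin n → F) : ℝ) = ∑ j ∈ Finset.range (n + 1), ∏ i ∈ Finset.range j,
      (((Fintype.card F : ℝ) ^ (n - i) - 1) / ((Fintype.card F : ℝ) ^ (i + 1) - 1)) := by
    rw [ns_eq_sum, finrank_fin_fun]
    push_cast
    apply Finset.sum_congr rfl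
    intro j hj
    rw [Finset.mem_range] at hj
    have h2 := nd_formula (F := F) (V := Fin n → F) (by omega) j (by rw [finrank_fin_fun]; omega)
    rw [finrank_fin_fun] at h2
    exact h2
  have h2 : (Nat.card (Mon n F) : ℝ)
      = (n.factorial : ℝ) * ((Fintype.card F : ℝ) - 1) ^ n * (k : ℝ) := by
    rw [card_mon, hk, Nat.card_eq_fintype_card (α := F)]
    rw [Nat.cast_mul, Nat.cast_mul, Nat.cast_pow, Nat.cast_sub (by omega), Nat.cast_one]
  rw [mainTerm, ← h1, h2]
  have h3 : (0 : ℝ) < (Fintype.card F : ℝ) - 1 := by linarith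
  have h4 : (0 : ℝ) < (n.factorial : ℝ) := by exact_mod_cast n.factorial_pos
  have h5 : (0 : ℝ) < (k : ℝ) := by exact_mod_cast hk0
  obtain ⟨m, rfl⟩ : ∃ m, n = m + 1 := ⟨n - 1, by omega⟩
  rw [Nat.add_sub_cancel, pow_succ]
  rw [div_eq_div_iff (by positivity) (by positivity)]
  ring

theorem asym (hq : 4 ≤ Fintype.card F) (k : ℕ) (hk : Nat.card (F ≃+* F) = k) (hk0 : 0 < k) :
    Asymptotics.IsEquivalent atTop (fun n : ℕ => (Nat.card (Quot (isoRel n F)) : ℝ))
      (fun n : ℕ => mainTerm (Fintype.card F : ℝ) k n) := by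
  have hq' : (4 : ℝ) ≤ (Fintype.card F : ℝ) := by exact_mod_cast hq
  obtain ⟨d1, d2, d3⟩ := delta_bounds (F := F) (by omega)
  have hns : ∀ n : ℕ, (0 : ℝ) < (ns F (Fin n → F) : ℝ) := by
    intro n
    have h3 := ns_lower (F := F) (V := Fin n → F) (by omega)
    have : (0 : ℝ) < (Fintype.card F : ℝ) ^ (finrank F (Fin n → F) * finrank F (Fin n → F) / 4) := by
      positivity
    linarith
  have hM : ∀ n : ℕ, (0 : ℝ) < (Nat.card (Mon n F) : ℝ) := by
    intro n
    have : 0 < Nat.card (Mon n F) := Nat.card_pos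
    exact_mod_cast this
  have hD : ∀ n : ℕ, (0 : ℝ) < ((Fintype.card F : ℝ) - 1) * (ns F (Fin n → F) : ℝ) := by
    intro n
    exact mul_pos (by linarith) (hns n)
  rw [Asymptotics.isEquivalent_iff_tendsto_one]
  swap
  · filter_upwards [eventually_ge_atTop 1] with n hn
    rw [mainTerm_eq hq k hk hk0 n hn]
    exact (div_pos (hD n) (hM n)).ne'
  have hratio : ∀ n : ℕ, 1 ≤ n →
      ((fun n : ℕ => (Nat.card (Quot (isoRel n F)) : ℝ)) /
        (fun n : ℕ => mainTerm (Fintype.card F : ℝ) k n)) n =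
      ((Nat.card (Quot (isoRel n F)) : ℝ) * (Nat.card (Mon n F) : ℝ)) /
        (((Fintype.card F : ℝ) - 1) * (ns F (Fin n → F) : ℝ)) := by
    intro n hn
    rw [Pi.div_apply, mainTerm_eq hq k hk hk0 n hn, div_div_eq_mul_div]
  have hδ0 : 0 < 1 - 1 / (Fintype.card F : ℝ) ^ 3 := by linarith
  have hδ1 : 1 - 1 / (Fintype.card F : ℝ) ^ 3 < 1 := by
    have : 0 < 1 / (Fintype.card F : ℝ) ^ 3 := by positivity
    linarith
  have t1 := (tend _ hδ0 hδ1 64 (by norm_num) 9).const_mul (4 * (1 + (Fintype.card F : ℝ) ^ 3))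
  rw [mul_zero] at t1
  have t1' := t1.const_sub 1
  rw [sub_zero] at t1'
  have hr1 : 1 / (Fintype.card F : ℝ) < 1 := by
    rw [div_lt_one (by linarith)]
    linarith
  have t2 := (tend _ d3 hr1 64 (by norm_num) 9).const_mul
    (4 * (Nat.card (F ≃+* F) : ℝ) * (Fintype.card F : ℝ) + 4 * (Fintype.card F : ℝ) ^ 4)
  rw [mul_zero] at t2
  have t2' := t2.const_add 1
  rw [add_zero] at t2'
  have t3 := (tend _ d3 hr1 64 (by norm_num) 6).const_mul ((Fintype.card F : ℝ) ^ 3)
  rw [mul_zero] at t3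
  have t3' := t3.eventually (eventually_le_nhds (show (0 : ℝ) < 1 by norm_num))
  refine tendsto_of_tendsto_of_tendsto_of_le_of_le' t1' t2' ?_ ?_
  · filter_upwards [eventually_ge_atTop 200] with n hn
    rw [hratio n (by omega), le_div_iff₀ (hD n), mul_comm]
    exact lower_est hq hn
  · filter_upwards [eventually_ge_atTop 200, t3'] with n hn h3
    rw [hratio n (by omega), div_le_iff₀ (hD n), mul_comm (1 + _)]
    apply upper_est hq hn
    refine le_trans ?_ h3
    rw [← mul_assoc]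
    apply mul_le_mul_of_nonneg_right _ (by positivity)
    have : ((n : ℝ) * n * (Fintype.card F : ℝ)) ^ 3 = (Fintype.card F : ℝ) ^ 3 * (n : ℝ) ^ 6 := by
      ring
    rw [this]
    apply mul_le_mul_of_nonneg_left _ (by positivity)
    exact pow_le_pow_left₀ (by positivity) (by linarith) 6

end Pool.Agent.Helper46.E
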