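import Pool.Agent.Helper46.E.Count

set_option autoImplicit false
set_option linter.unusedSectionVars false

namespace Pool.Agent.Helper46.E

open Module

variable {F V : Type} [Field F] [Fintype F] [AddCommGroup V] [Module F V] [Finite V]

instance finite_quot (S : Submodule F V) : Finite (V ⧸ S) :=
  Finite.of_surjective _ (Submodule.mkQ_surjective S)

theorem interval_card (R P : Submodule F V) :
    Nat.card {U : Submodule F V // R ≤ U ∧ U ≤ P}
      ≤ ns F (P ⧸ R.comap P.subtype) := by
  unfold ns
  refine Nat.card_le_card_of_injective
    (fun U => (U.1.comap P.subtype).map (R.comap P.subtype).mkQ) ?_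
  rintro ⟨U, hU1, hU2⟩ ⟨U', hU1', hU2'⟩ h
  simp only at h
  have h2 : U.comap P.subtype = U'.comap P.subtype := by
    have h3 := congrArg (Submodule.comap (R.comap P.subtype).mkQ) h
    rw [Submodule.comap_map_mkQ, Submodule.comap_map_mkQ] at h3
    rw [sup_eq_right.2 (Submodule.comap_mono hU1), sup_eq_right.2 (Submodule.comap_mono hU1')] at h3
    exact h3
  apply Subtype.ext
  change U = U'
  have h4 := congrArg (Submodule.map P.subtype) h2
  rw [Submodule.map_comap_subtype, Submodule.map_comap_subtype, inf_eq_right.2 hU2,
    inf_eq_right.2 hU2'] at h4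
  exact h4

theorem finrank_comap_range (h : V →ₗ[F] V) (R : Submodule F V) (hR : R ≤ LinearMap.range h) :
    finrank F (R.comap h) = finrank F R + finrank F (LinearMap.ker h) := by
  have h1 := LinearMap.finrank_range_add_finrank_ker (h.domRestrict (R.comap h))
  have h2 : LinearMap.range (h.domRestrict (R.comap h)) = R := by
    rw [LinearMap.range_domRestrict]
    rw [Submodule.map_comap_eq, inf_eq_right.2 hR]
  have h3 : finrank F (LinearMap.ker (h.domRestrict (R.comap h))) = finrank F (LinearMap.ker h) := by
    have h4 : (LinearMap.ker (h.domRestrict (R.comap h))).map (R.comap h).subtype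
        = LinearMap.ker h := by
      ext x
      constructor
      · rintro ⟨y, hy, rfl⟩
        exact hy
      · intro hx
        refine ⟨⟨x, ?_⟩, ?_, rfl⟩
        · rw [Submodule.mem_comap, LinearMap.mem_ker.1 hx]
          exact R.zero_mem
        · exact hx
    rw [← h4]
    exact (LinearEquiv.finrank_eq (Submodule.equivMapOfInjective _
      (Submodule.subtype_injective _) _))
  rw [h2, h3] at h1
  exact h1.symm

theorem inv_card (h : V →ₗ[F] V) :
    Nat.card {U : Submodule F V // U.map h ≤ U}
      ≤ ns F (LinearMap.range h) * ns F (LinearMap.ker h) := by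
  classical
  let _ : Fintype (Submodule F V) := Fintype.ofFinite _
  rw [Nat.card_eq_fintype_card, Fintype.card_subtype]
  have key := Finset.card_le_mul_card_image (f := fun U : Submodule F V => U.map h)
    (Finset.univ.filter (fun U : Submodule F V => U.map h ≤ U)) (ns F (LinearMap.ker h)) ?_
  · refine key.trans ?_
    rw [mul_comm]
    apply Nat.mul_le_mul_right
    have h1 : ns F (LinearMap.range h) = Nat.card {p : Submodule F V // p ≤ LinearMap.range h} :=
      Nat.card_congr (Submodule.mapIic (LinearMap.range h)).toEquiv
    rw [h1, Nat.card_eq_fintype_card, Fintype.card_subtype]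
    apply Finset.card_le_card
    intro R hR
    rw [Finset.mem_image] at hR
    obtain ⟨U, -, rfl⟩ := hR
    rw [Finset.mem_filter]
    exact ⟨Finset.mem_univ _, LinearMap.map_le_range⟩
  · intro R hR
    rw [Finset.mem_image] at hR
    obtain ⟨U, hU, rfl⟩ := hR
    rw [Finset.mem_filter] at hU
    have hRP : U.map h ≤ (U.map h).comap h := by
      rw [← Submodule.map_le_iff_le_comap]
      exact Submodule.map_mono hU.2
    have h1 : (Finset.univ.filter (fun W : Submodule F V => W.map h ≤ W)).filter
        (fun W => W.map h = U.map h) ⊆ Finset.univ.filter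
          (fun W : Submodule F V => U.map h ≤ W ∧ W ≤ (U.map h).comap h) := by
      intro W hW
      simp only [Finset.mem_filter, Finset.mem_univ, true_and] at hW ⊢
      refine ⟨?_, ?_⟩
      · rw [← hW.2]; exact hW.1
      · rw [← Submodule.map_le_iff_le_comap, hW.2]
    refine (Finset.card_le_card h1).trans ?_
    rw [← Fintype.card_subtype, ← Nat.card_eq_fintype_card]
    refine (interval_card _ _).trans (le_of_eq ?_)
    apply ns_congr
    apply LinearEquiv.ofFinrankEq
    have e1 := Submodule.finrank_quotient_add_finrank
      ((U.map h).comap ((U.map h).comap h).subtype)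
    have e2 := finrank_comap_range h (U.map h) LinearMap.map_le_range
    have e3 : finrank F ((U.map h).comap ((U.map h).comap h).subtype) = finrank F (U.map h) :=
      LinearEquiv.finrank_eq (Submodule.comapSubtypeEquivOfLe hRP)
    omega

end Pool.Agent.Helper46.E
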