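import Pool.Agent.Helper46.E.Group

set_option autoImplicit false
set_option linter.unusedSectionVars false

namespace Pool.Agent.Helper46.E

open Module Mon

variable {n : ℕ} {F : Type} [Field F]

/-- The linear map of a linear monomial map. -/
def lin (g : Mon n F) (hg : g.aut = 1) : (Fin n → F) →ₗ[F] (Fin n → F) where
  toFun := g.app
  map_add' := g.app_add
  map_smul' := by
    intro c x
    rw [app_smul, hg]
    rfl

theorem lin_apply (g : Mon n F) (hg : g.aut = 1) (x : Fin n → F) : lin g hg x = g.app x := rfl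

theorem exists_indep_half (π : Equiv.Perm (Fin n)) :
    ∃ I : Finset (Fin n), (∀ i ∈ I, π i ∉ I) ∧
      (Finset.univ.filter (fun i => π i ≠ i)).card ≤ 3 * I.card := by
  classical
  obtain ⟨I, hI, hmax⟩ := Finset.exists_max_image
    ((Finset.univ : Finset (Fin n)).powerset.filter (fun I => ∀ i ∈ I, π i ∉ I))
    (fun I => I.card) ⟨∅, by simp⟩
  rw [Finset.mem_filter] at hI
  refine ⟨I, hI.2, ?_⟩
  have hsub : Finset.univ.filter (fun i => π i ≠ i) ⊆ I ∪ (I.image π ∪ I.image π.symm) := by
    intro j hj
    rw [Finset.mem_filter] at hj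
    by_contra hcon
    rw [Finset.mem_union, Finset.mem_union, not_or, not_or] at hcon
    obtain ⟨h1, h2, h3⟩ := hcon
    have h4 : insert j I ∈ (Finset.univ : Finset (Fin n)).powerset.filter
        (fun I => ∀ i ∈ I, π i ∉ I) := by
      rw [Finset.mem_filter]
      refine ⟨by simp, ?_⟩
      intro i hi
      rw [Finset.mem_insert] at hi
      rw [Finset.mem_insert, not_or]
      rcases hi with rfl | hi
      · refine ⟨hj.2, ?_⟩
        intro h5
        exact h3 (Finset.mem_image.2 ⟨π i, h5, by simp⟩)
      · refine ⟨?_, hI.2 i hi⟩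
        intro h5
        exact h2 (Finset.mem_image.2 ⟨i, hi, h5⟩)
    have h5 := hmax _ h4
    rw [Finset.card_insert_of_notMem h1] at h5
    omega
  calc (Finset.univ.filter (fun i => π i ≠ i)).card
      ≤ (I ∪ (I.image π ∪ I.image π.symm)).card := Finset.card_le_card hsub
    _ ≤ I.card + (I.image π ∪ I.image π.symm).card := Finset.card_union_le _ _
    _ ≤ I.card + ((I.image π).card + (I.image π.symm).card) :=
        Nat.add_le_add_left (Finset.card_union_le _ _) _
    _ ≤ I.card + (I.card + I.card) :=
        Nat.add_le_add_left (Nat.add_le_add Finset.card_image_le Finset.card_image_le) _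
    _ = 3 * I.card := by ring

open Classical in
/-- The coordinates at which `g` differs from the scalar `μ`. -/
noncomputable def supp (μ : F) (g : Mon n F) : Finset (Fin n) :=
  Finset.univ.filter (fun i => g.perm i ≠ i ∨ (g.scal i : F) ≠ μ)

theorem supp_card_le (μ : F) (g : Mon n F) (hg : g.aut = 1) :
    (supp μ g).card ≤ 3 * finrank F (LinearMap.range (lin g hg - μ • LinearMap.id)) := by
  classical
  obtain ⟨I, hI1, hI2⟩ := exists_indep_half g.perm
  set A1 := Finset.univ.filter (fun i => g.perm i = i ∧ (g.scal i : F) ≠ μ) with hA1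
  set h := lin g hg - μ • LinearMap.id with hh
  have hv : ∀ j i, h (Pi.single j 1) i
      = (g.scal i : F) * (if g.perm.symm i = j then 1 else 0) - μ * (if i = j then 1 else 0) := by
    intro j i
    rw [hh]
    simp only [LinearMap.sub_apply, LinearMap.smul_apply, LinearMap.id_apply, Pi.sub_apply,
      Pi.smul_apply, smul_eq_mul, lin_apply, app_apply, hg, Pi.single_apply]
    congr 2
  have hmoved : ∀ i ∈ I, g.perm i ≠ i := fun i hi h' => hI1 i hi (by rw [h']; exact hi)
  have hdisj : Disjoint I A1 := by
    rw [Finset.disjoint_left]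
    intro i hi hi'
    rw [hA1, Finset.mem_filter] at hi'
    exact hmoved i hi hi'.2.1
  have hind : LinearIndepOn F (fun j => h (Pi.single j 1)) ((I ∪ A1 : Finset (Fin n)) : Set (Fin n)) := by
    rw [linearIndepOn_finset_iff]
    intro f hf
    have hf' : ∀ i, ∑ j ∈ I ∪ A1, f j * ((g.scal i : F) * (if g.perm.symm i = j then 1 else 0)
        - μ * (if i = j then 1 else 0)) = 0 := by
      intro i
      have := congrFun hf i
      rw [Finset.sum_apply] at this
      simpa only [Pi.smul_apply, smul_eq_mul, hv, Pi.zero_apply] using this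
    have hf2 : ∀ i, (if g.perm.symm i ∈ I ∪ A1 then f (g.perm.symm i) * (g.scal i : F) else 0)
        - (if i ∈ I ∪ A1 then f i * μ else 0) = 0 := by
      intro i
      have h0 := hf' i
      simp only [mul_sub, Finset.sum_sub_distrib, mul_ite, mul_one, mul_zero,
        Finset.sum_ite_eq] at h0
      exact h0
    intro j hj
    rw [Finset.mem_union] at hj
    rcases hj with hj | hj
    · have h1 := hf2 (g.perm j)
      have h2 : g.perm j ∉ I ∪ A1 := by
        rw [Finset.mem_union, not_or]
        refine ⟨hI1 j hj, ?_⟩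
        intro h3
        rw [hA1, Finset.mem_filter] at h3
        exact hmoved j hj (g.perm.injective h3.2.1)
      rw [Equiv.symm_apply_apply, if_pos (Finset.mem_union_left _ hj), if_neg h2, sub_zero] at h1
      rcases mul_eq_zero.1 h1 with h4 | h4
      · exact h4
      · exact absurd h4 (g.scal (g.perm j)).ne_zero
    · have h1 := hf2 j
      have hj' := hj
      rw [hA1, Finset.mem_filter] at hj'
      have h5 : g.perm.symm j = j := by rw [Equiv.symm_apply_eq]; exact hj'.2.1.symm
      rw [h5, if_pos (Finset.mem_union_right _ hj), if_pos (Finset.mem_union_right _ hj),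
        ← mul_sub] at h1
      rcases mul_eq_zero.1 h1 with h4 | h4
      · exact h4
      · exact absurd (sub_eq_zero.1 h4) hj'.2.2
  have hcard : (I ∪ A1).card ≤ finrank F (LinearMap.range h) := by
    have h1 : LinearIndependent F (fun j : (I ∪ A1 : Finset (Fin n)) =>
        (⟨h (Pi.single (j : Fin n) 1), LinearMap.mem_range_self _ _⟩ : LinearMap.range h)) := by
      apply LinearIndependent.of_comp (LinearMap.range h).subtype
      exact hind
    have h2 := h1.fintype_card_le_finrank
    rwa [Fintype.card_coe] at h2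
  have hsub : supp μ g ⊆ Finset.univ.filter (fun i => g.perm i ≠ i) ∪ A1 := by
    intro i hi
    rw [supp, Finset.mem_filter] at hi
    rw [Finset.mem_union, hA1, Finset.mem_filter, Finset.mem_filter]
    by_cases h6 : g.perm i = i
    · right
      refine ⟨Finset.mem_univ _, h6, ?_⟩
      rcases hi.2 with h7 | h7
      · exact absurd h6 h7
      · exact h7
    · left
      exact ⟨Finset.mem_univ _, h6⟩
  calc (supp μ g).card ≤ _ := Finset.card_le_card hsub
    _ ≤ (Finset.univ.filter (fun i => g.perm i ≠ i)).card + A1.card := Finset.card_union_le _ _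
    _ ≤ 3 * I.card + 3 * A1.card := by
        apply Nat.add_le_add hI2
        omega
    _ = 3 * (I ∪ A1).card := by rw [Finset.card_union_of_disjoint hdisj]; ring
    _ ≤ _ := Nat.mul_le_mul_left _ hcard

theorem exists_cover (hn : 0 < n) (A : Finset (Fin n)) (m : ℕ) (hA : A.card ≤ m) :
    ∃ f : Fin m → Fin n, ∀ a ∈ A, ∃ j, f j = a := by
  classical
  refine ⟨fun j => if h : j.1 < A.card then (A.equivFin.symm ⟨j.1, h⟩ : Fin n) else ⟨0, hn⟩, ?_⟩
  intro a ha
  refine ⟨⟨(A.equivFin ⟨a, ha⟩).1, lt_of_lt_of_le (A.equivFin ⟨a, ha⟩).2 hA⟩, ?_⟩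
  simp

/-- Few monomial maps have small support. -/
theorem card_small_supp [Finite F] (hn : 0 < n) (μ : F) (m : ℕ) :
    Nat.card {g : Mon n F // g.aut = 1 ∧ (supp μ g).card ≤ m}
      ≤ (n * n * (Nat.card F - 1)) ^ m := by
  classical
  have h1 : ∀ g : {g : Mon n F // g.aut = 1 ∧ (supp μ g).card ≤ m},
      ∃ f : Fin m → Fin n, ∀ a ∈ supp μ g.1, ∃ j, f j = a :=
    fun g => exists_cover hn _ m g.2.2
  choose f hf using h1
  have h2 : Nat.card (Fin m → Fin n × Fin n × Fˣ) = (n * n * (Nat.card F - 1)) ^ m := by
    rw [Nat.card_fun, Nat.card_prod, Nat.card_prod, card_units]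
    simp [mul_assoc]
  rw [← h2]
  refine Nat.card_le_card_of_injective
    (fun g j => (f g j, g.1.perm (f g j), g.1.scal (f g j))) ?_
  intro g g' hgg
  have hff : f g = f g' := funext fun j => congrArg Prod.fst (congrFun hgg j)
  have hpp : ∀ j, g.1.perm (f g j) = g'.1.perm (f g j) := by
    intro j
    have h3 := congrArg (fun t => t.2.1) (congrFun hgg j)
    simp only at h3
    rw [h3, hff]
  have hss : ∀ j, g.1.scal (f g j) = g'.1.scal (f g j) := by
    intro j
    have h3 := congrArg (fun t => t.2.2) (congrFun hgg j)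
    simp only at h3
    rw [h3, hff]
  have hout : ∀ (g : {g : Mon n F // g.aut = 1 ∧ (supp μ g).card ≤ m}) (i : Fin n),
      i ∉ supp μ g.1 → g.1.perm i = i ∧ (g.1.scal i : F) = μ := by
    intro g i hi
    rw [supp, Finset.mem_filter] at hi
    push Not at hi
    exact hi (Finset.mem_univ _)
  apply Subtype.ext
  have key : ∀ i, g.1.perm i = g'.1.perm i ∧ g.1.scal i = g'.1.scal i := by
    intro i
    by_cases hi : ∃ j, f g j = i
    · obtain ⟨j, rfl⟩ := hi
      exact ⟨hpp j, hss j⟩
    · have h4 : i ∉ supp μ g.1 := fun h => hi (hf g i h)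
      have h5 : i ∉ supp μ g'.1 := fun h => hi (by rw [hff]; exact hf g' i h)
      refine ⟨by rw [(hout g i h4).1, (hout g' i h5).1], ?_⟩
      apply Units.ext
      rw [(hout g i h4).2, (hout g' i h5).2]
  ext i
  · rw [(key i).1]
  · rw [(key i).2]
  · rw [g.2.1, g'.2.1]

end Pool.Agent.Helper46.E
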