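import Pool.Agent.Helper46.E.Wild
import Pool.Agent.Helper46.E.Supp

set_option autoImplicit false
set_option linter.unusedSectionVars false

namespace Pool.Agent.Helper46.E

open Module Mon

variable {n : ℕ} {F : Type} [Field F] [Fintype F]

/-- The additive map of a monomial map. -/
def addm (g : Mon n F) : (Fin n → F) →+ (Fin n → F) where
  toFun := g.app
  map_zero' := g.app_zero
  map_add' := g.app_add

theorem addm_apply (g : Mon n F) (x : Fin n → F) : addm g x = g.app x := rfl

theorem fix_mem (g : Mon n F) (U : Submodule F (Fin n → F)) (hU : g • U = U) :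
    ∀ x ∈ U, addm g x ∈ U := by
  intro x hx
  have h := (app_mem_smul g U x).2 hx
  rw [hU] at h
  exact h

theorem app_injective (g : Mon n F) : Function.Injective g.app := by
  intro x y h
  have := congrArg g⁻¹.app h
  rwa [app_inv_app, app_inv_app] at this

/-- Eigenvector count, linear case. -/
theorem eig_lin (g : Mon n F) (hg : g.aut = 1) (U : Submodule F (Fin n → F)) (κ : ℕ) (μ : F)
    (hκ : n ≤ finrank F (LinearMap.range (lin g hg - μ • LinearMap.id)) + κ) :
    Nat.card {x : U // addm g x = μ • (x : Fin n → F)} ≤ Fintype.card F ^ κ := by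
  have h1 := LinearMap.finrank_range_add_finrank_ker (lin g hg - μ • LinearMap.id)
  rw [finrank_fin_fun] at h1
  have h2 : Nat.card {x : U // addm g x = μ • (x : Fin n → F)}
      ≤ Nat.card (LinearMap.ker (lin g hg - μ • LinearMap.id)) := by
    refine Nat.card_le_card_of_injective (fun x => ⟨x.1, ?_⟩) ?_
    · rw [LinearMap.mem_ker, LinearMap.sub_apply, LinearMap.smul_apply, LinearMap.id_apply,
        sub_eq_zero]
      exact x.2
    · intro x y hxy
      have := congrArg Subtype.val hxy
      exact Subtype.ext (Subtype.ext this)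
  refine h2.trans ?_
  rw [Module.natCard_eq_pow_finrank (K := F), Nat.card_eq_fintype_card]
  exact Nat.pow_le_pow_right Fintype.card_pos (by omega)

/-- Eigenvector count, semilinear case. -/
theorem eig_semi (g : Mon n F) (hg : g.aut ≠ 1) (U : Submodule F (Fin n → F)) (κ : ℕ) (μ : F)
    (hκ : finrank F U ≤ 2 * κ) :
    Nat.card {x : U // addm g x = μ • (x : Fin n → F)} ≤ Fintype.card F ^ κ := by
  have hc : ∃ c : F, g.aut c ≠ c := by
    by_contra h
    push Not at h
    exact hg (RingEquiv.ext h)
  obtain ⟨c, hc⟩ := hc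
  have key : ∀ a b : Fin n → F, g.app a = μ • a → g.app b = μ • b → a = -(c • b) → b = 0 := by
    intro a b ha hb hab
    by_cases hμ : μ = 0
    · rw [hμ, zero_smul, ← g.app_zero] at hb
      exact app_injective g hb
    · have h1 : g.app a = -(g.aut c • g.app b) := by
        rw [hab, ← neg_one_smul F (c • b), app_smul, app_smul, map_neg, map_one, neg_one_smul]
      rw [ha, hb, hab] at h1
      have h2 : (μ * (g.aut c - c)) • b = 0 := by
        have h3 : μ • -(c • b) + (g.aut c • μ • b) = 0 := by rw [h1]; simp
        rw [← h3]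
        rw [smul_neg, smul_smul, smul_smul]
        module
      rw [smul_eq_zero] at h2
      rcases h2 with h2 | h2
      · exfalso
        rcases mul_eq_zero.1 h2 with h3 | h3
        · exact hμ h3
        · exact hc (sub_eq_zero.1 h3)
      · exact h2
  have h1 : Nat.card {x : U // addm g x = μ • (x : Fin n → F)}
      * Nat.card {x : U // addm g x = μ • (x : Fin n → F)} ≤ Nat.card U := by
    rw [← Nat.card_prod]
    refine Nat.card_le_card_of_injective (fun t => t.1.1 + c • t.2.1) ?_
    rintro ⟨⟨x, hx⟩, ⟨y, hy⟩⟩ ⟨⟨x', hx'⟩, ⟨y', hy'⟩⟩ h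
    simp only at h
    have h2 : (x : Fin n → F) + c • (y : Fin n → F) = x' + c • (y' : Fin n → F) :=
      congrArg Subtype.val h
    have h3 : (y : Fin n → F) - y' = 0 := by
      apply key (x - x') (y - y')
      · have e := map_sub (addm g) (x : Fin n → F) x'
        rw [hx, hx'] at e
        rw [smul_sub]
        exact e
      · have e := map_sub (addm g) (y : Fin n → F) y'
        rw [hy, hy'] at e
        rw [smul_sub]
        exact e
      · rw [smul_sub]
        have : (x : Fin n → F) = x' + c • (y' : Fin n → F) - c • (y : Fin n → F) := by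
          rw [← h2]; simp
        rw [this]
        abel
    have h4 : (y : Fin n → F) = y' := sub_eq_zero.1 h3
    have h5 : (x : Fin n → F) = x' := by
      rw [h4] at h2
      exact add_right_cancel h2
    have h6 : x = x' := Subtype.ext h5
    have h7 : y = y' := Subtype.ext h4
    subst h6 h7
    rfl
  have hU' : Nat.card U = Fintype.card F ^ finrank F U := by
    rw [Module.natCard_eq_pow_finrank (K := F) (V := U), Nat.card_eq_fintype_card]
  rw [hU'] at h1
  have h2 : Fintype.card F ^ finrank F U ≤ Fintype.card F ^ κ * Fintype.card F ^ κ := by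
    rw [← pow_add]
    exact Nat.pow_le_pow_right Fintype.card_pos (by omega)
  exact Nat.mul_self_le_mul_self_iff.1 (h1.trans h2)

theorem num_bound (n j m : ℕ) (hn : 200 ≤ n) (hj : j ≤ n) (hm : n ≤ 20 * m + 19) (hmj : m ≤ j) :
    (n - j) * (j - m) * 64 ≤ 15 * n * n := by
  obtain ⟨a, ha⟩ := Nat.exists_eq_add_of_le hj
  obtain ⟨b, hb⟩ := Nat.exists_eq_add_of_le hmj
  have h3 : n - j = a := by omega
  have h4 : j - m = b := by omega
  rw [h3, h4]
  have h5 : 20 * (a + b) ≤ 19 * (n + 1) := by omega
  have h6 : 4 * (a * b) ≤ (a + b) * (a + b) := by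
    have : (0 : ℤ) ≤ ((a : ℤ) - b) * ((a : ℤ) - b) := mul_self_nonneg _
    zify
    nlinarith
  have h7 : (20 * (a + b)) * (20 * (a + b)) ≤ (19 * (n + 1)) * (19 * (n + 1)) :=
    Nat.mul_le_mul h5 h5
  have h8 : 5776 * ((n + 1) * (n + 1)) ≤ 6000 * (n * n) := by nlinarith
  nlinarith

/-- A map is wild if it is far from every scalar map. -/
def Wild (g : Mon n F) : Prop :=
  ∀ h : g.aut = 1, ∀ μ : F, 3 * n ≤ 4 * finrank F (LinearMap.range (lin g h - μ • LinearMap.id))

theorem wild_fix_j (hq : 4 ≤ Fintype.card F) (hn : 200 ≤ n) (g : Mon n F) (hg : Wild g) (j : ℕ)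
    (hj : j ≤ n) :
    Nat.card {U : Submodule F (Fin n → F) // finrank F U = j ∧ g • U = U}
      ≤ 2 ^ (n + 1) * Fintype.card F ^ (15 * n * n / 64) := by
  classical
  have hfr : finrank F (Fin n → F) = n := finrank_fin_fun F
  have h2 : 2 ≤ 2 ^ (n + 1) := by
    calc 2 = 2 ^ 1 := rfl
      _ ≤ 2 ^ (n + 1) := Nat.pow_le_pow_right (by norm_num) (by omega)
  by_cases hmid : 3 * n ≤ 8 * j ∧ 8 * j ≤ 5 * n
  · set m := n / 20 with hm
    let _ : Fintype (Submodule F (Fin n → F)) := Fintype.ofFinite _
    set S : Finset (Submodule F (Fin n → F)) :=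
      Finset.univ.filter (fun U => finrank F U = j ∧ g • U = U) with hS
    have hκ : ∃ κ, 2 * m + κ ≤ j ∧ ∀ U ∈ S, ∀ μ : F,
        Nat.card {x : U // addm g x = μ • (x : Fin n → F)} ≤ Fintype.card F ^ κ := by
      by_cases haut : g.aut = 1
      · refine ⟨n / 4, by omega, ?_⟩
        intro U _ μ
        apply eig_lin g haut
        have := hg haut μ
        omega
      · refine ⟨(j + 1) / 2, by omega, ?_⟩
        intro U hU μ
        rw [hS, Finset.mem_filter] at hU
        apply eig_semi g haut
        rw [hU.2.1]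
        omega
    obtain ⟨κ, hκ1, hκ2⟩ := hκ
    have key := wild (F := F) (V := Fin n → F) hq (addm g) j κ (by rw [hfr]; exact hj) S
      (by
        intro U hU
        refine ⟨?_, ?_, hκ2 U hU⟩
        · rw [hS, Finset.mem_filter] at hU
          exact hU.2.1
        · rw [hS, Finset.mem_filter] at hU
          exact fix_mem g U hU.2.2) m ⊥ (by rw [finrank_bot]; omega)
    rw [finrank_bot, hfr] at key
    have hSc : (S.filter (fun U => ⊥ ≤ U)) = S := by
      apply Finset.filter_true_of_mem
      intro U _
      exact bot_le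
    rw [hSc] at key
    have hcard : Nat.card {U : Submodule F (Fin n → F) // finrank F U = j ∧ g • U = U} = S.card := by
      rw [Nat.card_eq_fintype_card, Fintype.card_subtype]
    rw [hcard]
    have hpos : 0 < Fintype.card F ^ (j * m) := Nat.pow_pos Fintype.card_pos
    apply Nat.le_of_mul_le_mul_right _ hpos
    refine key.trans ?_
    have e1 : n * m + (j - 0 - 2 * m) * (n - j) ≤ 15 * n * n / 64 + j * m := by
      have e2 : n * m = (n - j) * m + j * m := by rw [← Nat.add_mul]; congr 1; omega
      have e3 : (n - j) * m + (j - 0 - 2 * m) * (n - j) = (n - j) * (j - m) := by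
        have : j - m = m + (j - 0 - 2 * m) := by omega
        rw [this]; ring
      have e4 : (n - j) * (j - m) ≤ 15 * n * n / 64 := by
        rw [Nat.le_div_iff_mul_le (by norm_num)]
        exact num_bound n j m hn hj (by omega) (by omega)
      omega
    calc 2 ^ m * Fintype.card F ^ (n * m)
          * (2 * Fintype.card F ^ ((j - 0 - 2 * m) * (n - j)))
        = 2 ^ (m + 1) * Fintype.card F ^ (n * m + (j - 0 - 2 * m) * (n - j)) := by
          rw [pow_add, pow_succ]; ring
      _ ≤ 2 ^ (n + 1) * Fintype.card F ^ (15 * n * n / 64 + j * m) := by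
          apply Nat.mul_le_mul
          · exact Nat.pow_le_pow_right (by norm_num) (by omega)
          · exact Nat.pow_le_pow_right Fintype.card_pos e1
      _ = _ := by rw [pow_add]; ring
  · have h1 : Nat.card {U : Submodule F (Fin n → F) // finrank F U = j ∧ g • U = U}
        ≤ nd F (Fin n → F) j := by
      unfold nd
      exact Nat.card_le_card_of_injective (fun U => ⟨U.1, U.2.1⟩)
        (fun U U' h => by
          simp only [Subtype.mk.injEq] at h
          exact Subtype.ext h)
    refine h1.trans ?_
    have h3 := nd_upper (F := F) (V := Fin n → F) (by omega) j (by rw [hfr]; exact hj)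
    rw [hfr] at h3
    have h4 : nd F (Fin n → F) j ≤ 2 * Fintype.card F ^ (j * (n - j)) := by exact_mod_cast h3
    refine h4.trans (Nat.mul_le_mul h2 ?_)
    apply Nat.pow_le_pow_right Fintype.card_pos
    rw [Nat.le_div_iff_mul_le (by norm_num)]
    obtain ⟨a, ha⟩ := Nat.exists_eq_add_of_le hj
    have h5 : n - j = a := by omega
    rw [h5]
    have h6 : 8 * j < 3 * n ∨ 8 * a < 3 * n := by omega
    have h7 : n = j + a := ha
    rcases h6 with h6 | h6
    · have : 5 * j < 3 * a := by omega
      rw [h7]
      nlinarith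
    · have : 5 * a < 3 * j := by omega
      rw [h7]
      nlinarith

theorem wild_fix (hq : 4 ≤ Fintype.card F) (hn : 200 ≤ n) (g : Mon n F) (hg : Wild g) :
    Nat.card {U : Submodule F (Fin n → F) // g • U = U}
      ≤ (n + 1) * (2 ^ (n + 1) * Fintype.card F ^ (15 * n * n / 64)) := by
  classical
  have hfr : finrank F (Fin n → F) = n := finrank_fin_fun F
  let _ : Fintype (Submodule F (Fin n → F)) := Fintype.ofFinite _
  rw [Nat.card_eq_fintype_card, Fintype.card_subtype,
    Finset.card_eq_sum_card_fiberwise (f := fun U : Submodule F (Fin n → F) => finrank F U)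
    (t := Finset.range (n + 1))]
  · calc ∑ b ∈ Finset.range (n + 1), ((Finset.univ.filter
          (fun U : Submodule F (Fin n → F) => g • U = U)).filter
            (fun U : Submodule F (Fin n → F) => finrank F U = b)).card
        ≤ ∑ b ∈ Finset.range (n + 1), 2 ^ (n + 1) * Fintype.card F ^ (15 * n * n / 64) := by
          apply Finset.sum_le_sum
          intro j hj
          rw [Finset.mem_range] at hj
          refine le_trans (le_of_eq ?_) (wild_fix_j hq hn g hg j (by omega))
          rw [Nat.card_eq_fintype_card, Fintype.card_subtype, Finset.filter_filter]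
          congr 1
          ext U
          simp only [Finset.mem_filter, Finset.mem_univ, true_and]
          tauto
      _ = _ := by rw [Finset.sum_const, Finset.card_range, smul_eq_mul]
  · intro U _
    rw [Finset.mem_coe, Finset.mem_range]
    have := Submodule.finrank_le U
    rw [hfr] at this
    exact Nat.lt_succ_of_le this

theorem ns_upper_nat (hq : 3 ≤ Fintype.card F) {V : Type} [AddCommGroup V] [Module F V] [Finite V] :
    ns F V ≤ 2 * (finrank F V + 1) * Fintype.card F ^ (finrank F V * finrank F V / 4) := by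
  have := ns_upper (F := F) (V := V) hq
  exact_mod_cast this

/-- Fixed subspaces of a tame map. -/
theorem tame_fix (hq : 3 ≤ Fintype.card F) (g : Mon n F) (hg : g.aut = 1) (μ : F) (s : ℕ)
    (hs : finrank F (LinearMap.range (lin g hg - μ • LinearMap.id)) = s) (hsn : 4 * s ≤ 3 * n) :
    Nat.card {U : Submodule F (Fin n → F) // g • U = U} * Fintype.card F ^ (s * n / 8)
      ≤ 4 * (n + 1) ^ 2 * Fintype.card F ^ (n * n / 4) := by
  set h := lin g hg - μ • LinearMap.id with hh
  have h1 : Nat.card {U : Submodule F (Fin n → F) // g • U = U}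
      ≤ Nat.card {U : Submodule F (Fin n → F) // U.map h ≤ U} := by
    refine Nat.card_le_card_of_injective (fun U => ⟨U.1, ?_⟩) ?_
    · rintro _ ⟨x, hx, rfl⟩
      rw [hh]
      simp only [LinearMap.sub_apply, LinearMap.smul_apply, LinearMap.id_apply]
      exact U.1.sub_mem (fix_mem g U.1 U.2 x hx) (U.1.smul_mem μ hx)
    · intro U U' h
      simp only [Subtype.mk.injEq] at h
      exact Subtype.ext h
  have h2 := LinearMap.finrank_range_add_finrank_ker h
  rw [finrank_fin_fun, hs] at h2
  have h3 := inv_card h
  have h4 := ns_upper_nat (F := F) hq (V := LinearMap.range h)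
  have h5 := ns_upper_nat (F := F) hq (V := LinearMap.ker h)
  rw [hs] at h4
  set t := finrank F (LinearMap.ker h) with ht
  have h6 : s * s / 4 + t * t / 4 + s * n / 8 ≤ n * n / 4 := by
    rw [Nat.le_div_iff_mul_le (by norm_num)]
    have e1 : s * s / 4 * 4 ≤ s * s := Nat.div_mul_le_self _ _
    have e2 : t * t / 4 * 4 ≤ t * t := Nat.div_mul_le_self _ _
    have e3 : s * n / 8 * 8 ≤ s * n := Nat.div_mul_le_self _ _
    have e4 : s ≤ 3 * t := by omega
    have e5 : s * n = s * (s + t) := by rw [h2]
    have e6 : n * n = (s + t) * (s + t) := by rw [h2]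
    have e7 : s * s ≤ 3 * (s * t) := by nlinarith
    nlinarith
  calc Nat.card {U : Submodule F (Fin n → F) // g • U = U} * Fintype.card F ^ (s * n / 8)
      ≤ (ns F (LinearMap.range h) * ns F (LinearMap.ker h)) * Fintype.card F ^ (s * n / 8) :=
        Nat.mul_le_mul_right _ (h1.trans h3)
    _ ≤ ((2 * (s + 1) * Fintype.card F ^ (s * s / 4)) * (2 * (t + 1) * Fintype.card F ^ (t * t / 4)))
          * Fintype.card F ^ (s * n / 8) :=
        Nat.mul_le_mul_right _ (Nat.mul_le_mul h4 h5)
    _ = 4 * ((s + 1) * (t + 1)) * Fintype.card F ^ (s * s / 4 + t * t / 4 + s * n / 8) := by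
        rw [pow_add, pow_add]; ring
    _ ≤ 4 * (n + 1) ^ 2 * Fintype.card F ^ (n * n / 4) := by
        apply Nat.mul_le_mul
        · rw [sq]
          apply Nat.mul_le_mul_left
          apply Nat.mul_le_mul <;> omega
        · exact Nat.pow_le_pow_right Fintype.card_pos h6

/-- Tame maps of rank defect zero are scalar. -/
theorem scalar_of_rank_zero (hn : 0 < n) (g : Mon n F) (hg : g.aut = 1) (μ : F)
    (hs : finrank F (LinearMap.range (lin g hg - μ • LinearMap.id)) = 0) :
    g ∈ Set.range (scalar : Fˣ → Mon n F) := by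
  classical
  have h1 := supp_card_le μ g hg
  rw [hs, mul_zero, Nat.le_zero, Finset.card_eq_zero] at h1
  have h2 : ∀ i, g.perm i = i ∧ (g.scal i : F) = μ := by
    intro i
    have h3 : i ∉ supp μ g := by rw [h1]; simp
    rw [supp, Finset.mem_filter] at h3
    push Not at h3
    exact h3 (Finset.mem_univ _)
  refine ⟨g.scal ⟨0, hn⟩, ?_⟩
  ext i
  · rw [(h2 i).1]; rfl
  · rw [(h2 i).2]
    exact (h2 ⟨0, hn⟩).2
  · rw [hg]; rfl

end Pool.Agent.Helper46.E
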