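import Pool.Agent.Helper46.E.GoodCount

set_option autoImplicit false
set_option linter.unusedSectionVars false

namespace Pool.Agent.Helper46.E

open Set Module Mon

variable {n j : ℕ} {F : Type} [Field F] [Fintype F]

open Classical in
/-- Extension by zero. -/
noncomputable def extz (p : Fin n → Prop) (x : {i // p i} → (Fin j → F)) : Fin n → Fin j → F :=
  fun i => if h : p i then x ⟨i, h⟩ else 0

theorem extz_restrict (p : Fin n → Prop) (c : Fin n → Fin j → F) (i : Fin n) (hi : p i) :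
    extz p (fun k => c k.1) i = c i := by
  rw [extz, dif_pos hi]

open Classical in
theorem card_ker_dual (f : Dual F (Fin j → F)) (hf : f ≠ 0) :
    (Finset.univ.filter (fun v : Fin j → F => f v = 0)).card = Fintype.card F ^ (j - 1) := by
  have h1 : (Finset.univ.filter (fun v : Fin j → F => f v = 0)).card
      = Nat.card (LinearMap.ker f) := by
    rw [← Fintype.card_subtype, ← Nat.card_eq_fintype_card]
    rfl
  have h2 := Module.Dual.finrank_ker_add_one_of_ne_zero hf
  rw [finrank_fin_fun] at h2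
  rw [h1, Module.natCard_eq_pow_finrank (K := F), Nat.card_eq_fintype_card]
  congr 1
  omega

open Classical in
/-- Matrices whose selected columns do not span. -/
theorem bad1_count (p : Fin n → Prop) (a b : ℕ) (ha : Nat.card {i // p i} = a)
    (hb : Nat.card {i // ¬ p i} = b) (S : Finset (Fin n → Fin j → F))
    (hS : ∀ c ∈ S, Submodule.span F (c '' {i | p i}) ≠ ⊤) :
    S.card ≤ Fintype.card F ^ j * ((Fintype.card F ^ (j - 1)) ^ a *
        (Fintype.card F ^ j) ^ b) := by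
  have hfin : Finite (Dual F (Fin j → F)) := Module.finite_of_finite F
  let _ : Fintype (Dual F (Fin j → F)) := Fintype.ofFinite _
  have hD : Fintype.card (Dual F (Fin j → F)) = Fintype.card F ^ j := by
    rw [← Nat.card_eq_fintype_card, Module.natCard_eq_pow_finrank (K := F),
      Subspace.dual_finrank_eq, finrank_fin_fun, Nat.card_eq_fintype_card]
  have hsub : S ⊆
      (Finset.univ.filter (fun f : Dual F (Fin j → F) => f ≠ 0)).biUnion (fun f =>
        S.filter (fun c : Fin n → Fin j → F => ∀ i, p i →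
          c i ∈ Finset.univ.filter (fun v : Fin j → F => f v = 0))) := by
    intro c hc
    obtain ⟨f, hf, hf2⟩ := Submodule.exists_le_ker_of_lt_top _ (lt_top_iff_ne_top.2 (hS c hc))
    rw [Finset.mem_biUnion]
    refine ⟨f, Finset.mem_filter.2 ⟨Finset.mem_univ _, hf⟩, ?_⟩
    rw [Finset.mem_filter]
    refine ⟨hc, ?_⟩
    intro i hi
    rw [Finset.mem_filter]
    exact ⟨Finset.mem_univ _, hf2 (Submodule.subset_span ⟨i, hi, rfl⟩)⟩
  refine (Finset.card_le_card hsub).trans (Finset.card_biUnion_le.trans ?_)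
  have h1 : ∀ f ∈ (Finset.univ.filter (fun f : Dual F (Fin j → F) => f ≠ 0)),
      (S.filter (fun c : Fin n → Fin j → F => ∀ i, p i →
          c i ∈ Finset.univ.filter (fun v : Fin j → F => f v = 0))).card
        ≤ (Fintype.card F ^ (j - 1)) ^ a * (Fintype.card F ^ j) ^ b := by
    intro f hf
    rw [Finset.mem_filter] at hf
    have h2 := count1' p (Finset.univ.filter (fun v : Fin j → F => f v = 0)) a b ha hb
      (S.filter (fun c : Fin n → Fin j → F => ∀ i, p i →
          c i ∈ Finset.univ.filter (fun v : Fin j → F => f v = 0)))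
      (fun c hc => (Finset.mem_filter.1 hc).2)
    rw [card_ker_dual f hf.2, Fintype.card_fun, Fintype.card_fin] at h2
    exact h2
  refine (Finset.sum_le_sum h1).trans ?_
  rw [Finset.sum_const, smul_eq_mul]
  apply Nat.mul_le_mul_right
  rw [← hD]
  exact Finset.card_le_univ _

open Classical in
/-- Size of the complement of a fibre. -/
theorem compl_fiber (f1 f2 f3 : Dual F (Fin j → F)) (v1 v2 v3 : Fin j → F) (h11 : f1 v1 = 1)
    (h12 : f1 v2 = 0) (h13 : f1 v3 = 0) (h21 : f2 v1 = 0) (h22 : f2 v2 = 1) (h23 : f2 v3 = 0)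
    (h31 : f3 v1 = 0) (h32 : f3 v2 = 0) (h33 : f3 v3 = 1) (w1 w2 w3 : F) :
    ((Finset.univ.filter (fun v : Fin j → F => ¬ (f1 v = w1 ∧ f2 v = w2 ∧ f3 v = w3))).card : ℝ)
      ≤ (Fintype.card F : ℝ) ^ j * (1 - 1 / (Fintype.card F : ℝ) ^ 3) := by
  have h1 := fiber3 f1 f2 f3 v1 v2 v3 h11 h12 h13 h21 h22 h23 h31 h32 h33 w1 w2 w3
  have h2 := Finset.card_filter_add_card_filter_not (s := (Finset.univ : Finset (Fin j → F)))
    (fun v : Fin j → F => (f1 v = w1 ∧ f2 v = w2 ∧ f3 v = w3))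
  have h3 : Nat.card {v : Fin j → F // f1 v = w1 ∧ f2 v = w2 ∧ f3 v = w3}
      = (Finset.univ.filter (fun v : Fin j → F => (f1 v = w1 ∧ f2 v = w2 ∧ f3 v = w3))).card := by
    rw [Nat.card_eq_fintype_card, Fintype.card_subtype]
  rw [h3, Nat.card_eq_fintype_card, Nat.card_eq_fintype_card, Fintype.card_fun,
    Fintype.card_fin] at h1
  rw [Finset.card_univ, Fintype.card_fun, Fintype.card_fin] at h2
  have hq : (0 : ℝ) < (Fintype.card F : ℝ) := by
    exact_mod_cast Fintype.card_pos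
  have h4 : ((Fintype.card F : ℝ)) ^ j ≤
    ((Finset.univ.filter (fun v : Fin j → F => (f1 v = w1 ∧ f2 v = w2 ∧ f3 v = w3))).card : ℝ)
      * (Fintype.card F : ℝ) ^ 3 := by exact_mod_cast h1
  have h5 : ((Finset.univ.filter (fun v : Fin j → F => (f1 v = w1 ∧ f2 v = w2 ∧ f3 v = w3))).card : ℝ)
      + ((Finset.univ.filter (fun v : Fin j → F => ¬ (f1 v = w1 ∧ f2 v = w2 ∧ f3 v = w3))).card : ℝ)
      = (Fintype.card F : ℝ) ^ j := by exact_mod_cast h2
  have h6 : (Fintype.card F : ℝ) ^ j * (1 / (Fintype.card F : ℝ) ^ 3) ≤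
    ((Finset.univ.filter (fun v : Fin j → F => (f1 v = w1 ∧ f2 v = w2 ∧ f3 v = w3))).card : ℝ) := by
    rw [mul_one_div, div_le_iff₀ (by positivity)]
    exact h4
  rw [mul_sub, mul_one]
  linarith

/-- Selection of a dual basis from the selected columns. -/
theorem exists_select (p : Fin n → Prop) : ∃ (B : ({i // p i} → (Fin j → F)) → Finset (Fin n))
    (φ : ({i // p i} → (Fin j → F)) → Fin n → Dual F (Fin j → F)),
    ∀ x, Submodule.span F ((extz p x) '' {i | p i}) = ⊤ →
      ((∀ b ∈ B x, b ∈ {i | p i}) ∧ (B x).card = finrank F (Fin j → F) ∧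
      (∀ b ∈ B x, φ x b (extz p x b) = 1) ∧
      (∀ b ∈ B x, ∀ d ∈ B x, b ≠ d → φ x b (extz p x d) = 0) ∧
      ∀ (f : Dual F (Fin j → F)) (v : Fin j → F),
        f v = ∑ b ∈ B x, f (extz p x b) * φ x b v) := by
  have hch : ∀ x : {i // p i} → (Fin j → F), ∃ (B : Finset (Fin n))
      (φ : Fin n → Dual F (Fin j → F)), Submodule.span F ((extz p x) '' {i | p i}) = ⊤ →
      ((∀ b ∈ B, b ∈ {i | p i}) ∧ B.card = finrank F (Fin j → F) ∧
      (∀ b ∈ B, φ b (extz p x b) = 1) ∧ (∀ b ∈ B, ∀ d ∈ B, b ≠ d → φ b (extz p x d) = 0) ∧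
      ∀ (f : Dual F (Fin j → F)) (v : Fin j → F), f v = ∑ b ∈ B, f (extz p x b) * φ b v) := by
    intro x
    by_cases hx : Submodule.span F ((extz p x) '' {i | p i}) = ⊤
    · obtain ⟨B, φ, h⟩ := exists_dual (extz p x) {i | p i} hx
      exact ⟨B, φ, fun _ => h⟩
    · exact ⟨∅, fun _ => 0, fun h => absurd h hx⟩
  choose B φ hBφ using hch
  exact ⟨B, φ, hBφ⟩

/-- The condition on the selected columns for a triple of basis positions. -/
def TC (p : Fin n → Prop) (B : ({i // p i} → (Fin j → F)) → Finset (Fin n))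
    (τ : (Fin n × Fin n × Fin n) × (F × F × F)) (x : {i // p i} → (Fin j → F)) : Prop :=
  Submodule.span F ((extz p x) '' {i | p i}) = ⊤ ∧ τ.1.1 ∈ B x ∧ τ.1.2.1 ∈ B x ∧
      τ.1.2.2 ∈ B x ∧ τ.1.1 ≠ τ.1.2.1 ∧ τ.1.1 ≠ τ.1.2.2 ∧ τ.1.2.1 ≠ τ.1.2.2

open Classical in
/-- Allowed values for the remaining columns. -/
noncomputable def TT (p : Fin n → Prop) (B : ({i // p i} → (Fin j → F)) → Finset (Fin n))
    (φ : ({i // p i} → (Fin j → F)) → Fin n → Dual F (Fin j → F))
    (τ : (Fin n × Fin n × Fin n) × (F × F × F)) (x : {i // p i} → (Fin j → F)) :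
    Finset (Fin j → F) :=
  if TC p B τ x then
      Finset.univ.filter (fun v : Fin j → F => ¬ (φ x τ.1.1 v = τ.2.1 ∧ φ x τ.1.2.1 v = τ.2.2.1 ∧
        φ x τ.1.2.2 v = τ.2.2.2)) else ∅

/-- Matrices with spanning selected columns and a bad row space. -/
theorem bad2_count (hj : 3 ≤ j) (p : Fin n → Prop) (a b : ℕ) (ha : Nat.card {i // p i} = a)
    (hb : Nat.card {i // ¬ p i} = b) (S : Finset (Fin n → Fin j → F))
    (hS : ∀ c ∈ S, Submodule.span F (c '' {i | p i}) = ⊤ ∧ ¬ Good (rowSp c)) :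
    (S.card : ℝ) ≤ (n : ℝ) ^ 3 * (Fintype.card F : ℝ) ^ 3 *
        (((Fintype.card F : ℝ) ^ j) ^ a *
        ((Fintype.card F : ℝ) ^ j * (1 - 1 / (Fintype.card F : ℝ) ^ 3)) ^ b) := by
  classical
  obtain ⟨B, φ, hBφ⟩ := exists_select (j := j) (F := F) p
  have hq1 : (1 : ℝ) < (Fintype.card F : ℝ) := by exact_mod_cast (one_lt_card (F := F))
  have hq : (0 : ℝ) < (Fintype.card F : ℝ) := by linarith
  have hδ : 0 ≤ (1 - 1 / (Fintype.card F : ℝ) ^ 3) := by
    rw [sub_nonneg, div_le_iff₀ (by positivity), one_mul]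
    exact one_le_pow₀ hq1.le
  have hT : ∀ τ x, ((TT p B φ τ x).card : ℝ) ≤
      (Fintype.card F : ℝ) ^ j * (1 - 1 / (Fintype.card F : ℝ) ^ 3) := by
    intro τ x
    unfold TT
    split_ifs with h
    · obtain ⟨hs, ha, hb, hd, hab, had, hbd⟩ := h
      obtain ⟨-, -, k1, k2, -⟩ := hBφ x hs
      exact compl_fiber _ _ _ (extz p x τ.1.1) (extz p x τ.1.2.1) (extz p x τ.1.2.2)
        (k1 _ ha) (k2 _ ha _ hb hab) (k2 _ ha _ hd had) (k2 _ hb _ ha hab.symm) (k1 _ hb)
        (k2 _ hb _ hd hbd) (k2 _ hd _ ha had.symm) (k2 _ hd _ hb hbd.symm) (k1 _ hd) _ _ _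
    · rw [Finset.card_empty, Nat.cast_zero]
      positivity
  have hsub : S ⊆
      (Finset.univ : Finset ((Fin n × Fin n × Fin n) × (F × F × F))).biUnion (fun τ =>
        S.filter (fun c : Fin n → Fin j → F => ∀ i, ¬ p i →
          c i ∈ TT p B φ τ (fun k => c k.1))) := by
    intro c hc
    obtain ⟨hc1, hc2⟩ := hS c hc
    set x : {i // p i} → (Fin j → F) := fun k => c k.1 with hx
    have hxe : ∀ i, p i → extz p x i = c i := fun i hi => extz_restrict p c i hi
    have himg : (extz p x) '' {i | p i} = c '' {i | p i} :=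
      Set.image_congr (fun i hi => hxe i hi)
    have hsx : Submodule.span F ((extz p x) '' {i | p i}) = ⊤ := by rw [himg, hc1]
    obtain ⟨k0, k3, k1, k2, k4⟩ := hBφ x hsx
    have hbe : ∀ b ∈ B x, extz p x b = c b := fun b hb => hxe b (k0 b hb)
    have hcon : ¬ (∀ a ∈ B x, ∀ b ∈ B x, ∀ d ∈ B x, a ≠ b → a ≠ d → b ≠ d → ∀ w1 w2 w3 : F,
      ∃ i, φ x a (c i) = w1 ∧ φ x b (c i) = w2 ∧ φ x d (c i) = w3) := by
      intro h5
      apply hc2
      refine good_of c (B x) (φ x) ?_ ?_ ?_ ?_ h5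
      · rw [k3, finrank_fin_fun]
        exact hj
      · intro b hb
        rw [← hbe b hb]
        exact k1 b hb
      · intro b hb d hd hbd
        rw [← hbe d hd]
        exact k2 b hb d hd hbd
      · intro f v
        rw [k4 f v]
        apply Finset.sum_congr rfl
        intro b hb
        rw [hbe b hb]
    push Not at hcon
    obtain ⟨a, ha, b, hb, d, hd, hab, had, hbd, w1, w2, w3, hw⟩ := hcon
    rw [Finset.mem_biUnion]
    refine ⟨((a, b, d), (w1, w2, w3)), Finset.mem_univ _, ?_⟩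
    rw [Finset.mem_filter]
    refine ⟨hc, ?_⟩
    intro i _
    unfold TT
    rw [if_pos ⟨hsx, ha, hb, hd, hab, had, hbd⟩, Finset.mem_filter]
    refine ⟨Finset.mem_univ _, ?_⟩
    rintro ⟨e1, e2, e3⟩
    exact hw i e1 e2 e3
  have h1 := (Finset.card_le_card hsub).trans Finset.card_biUnion_le
  have h2 : (S.card : ℝ) ≤
      ∑ τ : (Fin n × Fin n × Fin n) × (F × F × F),
        ((S.filter (fun c : Fin n → Fin j → F => ∀ i, ¬ p i →
          c i ∈ TT p B φ τ (fun k => c k.1))).card : ℝ) := by exact_mod_cast h1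
  refine h2.trans ?_
  have h3 : ∀ τ ∈ (Finset.univ : Finset ((Fin n × Fin n × Fin n) × (F × F × F))),
      ((S.filter (fun c : Fin n → Fin j → F => ∀ i, ¬ p i →
          c i ∈ TT p B φ τ (fun k => c k.1))).card : ℝ) ≤
      ((Fintype.card F : ℝ) ^ j) ^ a *
        ((Fintype.card F : ℝ) ^ j * (1 - 1 / (Fintype.card F : ℝ) ^ 3)) ^ b := by
    intro τ _
    have h4 := count2' p (TT p B φ τ) _ (hT τ) a b ha hb
      (S.filter (fun c : Fin n → Fin j → F => ∀ i, ¬ p i →
          c i ∈ TT p B φ τ (fun k => c k.1))) (fun c hc => (Finset.mem_filter.1 hc).2)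
    rw [Fintype.card_fun (α := Fin j), Fintype.card_fin] at h4
    push_cast at h4
    exact h4
  refine (Finset.sum_le_sum h3).trans ?_
  rw [Finset.sum_const, Finset.card_univ, nsmul_eq_mul]
  simp only [Fintype.card_prod, Fintype.card_fin]
  push_cast
  apply le_of_eq
  ring

end Pool.Agent.Helper46.E
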