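import Pool.Agent.Helper46.E.Low
import Pool.Agent.Helper46.E.Count

set_option autoImplicit false
set_option linter.unusedSectionVars false

namespace Pool.Agent.Helper46.E

open Set Module Mon

/-! ### Dual bases from spanning families -/

section Dual

variable {n : ℕ} {F K : Type} [Field F] [AddCommGroup K] [Module F K] [FiniteDimensional F K]

theorem exists_dual (c : Fin n → K) (A : Set (Fin n)) (hA : Submodule.span F (c '' A) = ⊤) :
    ∃ (B : Finset (Fin n)) (φ : Fin n → Dual F K), (∀ b ∈ B, b ∈ A) ∧ B.card = finrank F K ∧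
      (∀ b ∈ B, φ b (c b) = 1) ∧ (∀ b ∈ B, ∀ d ∈ B, b ≠ d → φ b (c d) = 0) ∧
      ∀ (f : Dual F K) (v : K), f v = ∑ b ∈ B, f (c b) * φ b v := by
  classical
  set I := (linearIndepOn_empty F c).extend (Set.empty_subset A) with hI
  have hIA : I ⊆ A := (linearIndepOn_empty F c).extend_subset _
  have hli : LinearIndepOn F c I := (linearIndepOn_empty F c).linearIndepOn_extend _
  have hsp : Submodule.span F (c '' I) = ⊤ := by
    rw [← hA, hI]
    exact (linearIndepOn_empty F c).span_image_extend_eq_span_image _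
  have hli' : LinearIndependent F (fun i : I => c i) := hli
  have hsp' : ⊤ ≤ Submodule.span F (Set.range (fun i : I => c i)) := by
    rw [← Set.image_eq_range, hsp]
  let bs := Basis.mk hli' hsp'
  let _ : Fintype I := Fintype.ofFinite _
  refine ⟨I.toFinset, fun i => if h : i ∈ I then bs.coord ⟨i, h⟩ else 0, ?_, ?_, ?_, ?_, ?_⟩
  · intro b hb
    exact hIA (Set.mem_toFinset.1 hb)
  · rw [Set.toFinset_card, finrank_eq_card_basis bs]
  · intro b hb
    rw [Set.mem_toFinset] at hb
    simp only [dif_pos hb]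
    have h1 : c b = bs ⟨b, hb⟩ := by
      rw [Basis.mk_apply]
    rw [h1, Basis.coord_apply, Basis.repr_self, Finsupp.single_eq_same]
  · intro b hb d hd hbd
    rw [Set.mem_toFinset] at hb hd
    simp only [dif_pos hb]
    have h1 : c d = bs ⟨d, hd⟩ := by
      rw [Basis.mk_apply]
    rw [h1, Basis.coord_apply, Basis.repr_self, Finsupp.single_eq_of_ne]
    intro h2
    exact hbd (congrArg Subtype.val h2)
  · intro f v
    have h1 : v = ∑ i : I, bs.coord i v • c i := by
      conv_lhs => rw [← bs.sum_repr v]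
      apply Finset.sum_congr rfl
      intro i _
      rw [Basis.mk_apply]
      rfl
    have h2 : f v = ∑ i : I, bs.coord i v * f (c i) := by
      conv_lhs => rw [h1]
      rw [map_sum]
      apply Finset.sum_congr rfl
      intro i _
      rw [map_smul, smul_eq_mul]
    rw [h2]
    rw [← Finset.sum_coe_sort (I.toFinset)]
    refine Fintype.sum_equiv (Equiv.subtypeEquivRight (fun i => Set.mem_toFinset.symm)) _ _ ?_
    intro i
    have h3 : ((Equiv.subtypeEquivRight (fun i => (Set.mem_toFinset (s := I) (a := i)).symm)) i : Fin n)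
      = i.1 := rfl
    rw [h3]
    beta_reduce
    rw [dif_pos i.2, mul_comm]

/-- Fibre size of three independent functionals. -/
theorem fiber3 [Finite K] [Finite F] (f1 f2 f3 : Dual F K) (v1 v2 v3 : K) (h11 : f1 v1 = 1)
    (h12 : f1 v2 = 0) (h13 : f1 v3 = 0) (h21 : f2 v1 = 0) (h22 : f2 v2 = 1) (h23 : f2 v3 = 0)
    (h31 : f3 v1 = 0) (h32 : f3 v2 = 0) (h33 : f3 v3 = 1) (w1 w2 w3 : F) :
    Nat.card K ≤ Nat.card {v : K // f1 v = w1 ∧ f2 v = w2 ∧ f3 v = w3} * Nat.card F ^ 3 := by
  have h : Nat.card ({v : K // f1 v = w1 ∧ f2 v = w2 ∧ f3 v = w3} × (F × F × F))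
      = Nat.card {v : K // f1 v = w1 ∧ f2 v = w2 ∧ f3 v = w3} * Nat.card F ^ 3 := by
    rw [Nat.card_prod, Nat.card_prod, Nat.card_prod]
    ring
  rw [← h]
  refine Nat.card_le_card_of_injective
    (fun v => (⟨v + (w1 - f1 v) • v1 + (w2 - f2 v) • v2 + (w3 - f3 v) • v3, ?_, ?_, ?_⟩,
      (f1 v, f2 v, f3 v))) ?_
  · simp [h11, h12, h13]
  · simp [h21, h22, h23]
  · simp [h31, h32, h33]
  · intro v v' hvv
    simp only [Prod.mk.injEq, Subtype.mk.injEq] at hvv
    obtain ⟨h1, h2, h3, h4⟩ := hvv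
    rw [h2, h3, h4] at h1
    simpa using h1

end Dual

/-! ### Row spaces -/

section Row

variable {n j : ℕ} {F : Type} [Field F] [Finite F]

/-- Row space of a matrix given by its columns. -/
def rowSp (c : Fin n → Fin j → F) : Submodule F (Fin n → F) :=
  Submodule.span F (Set.range (fun (k : Fin j) (i : Fin n) => c i k))

theorem mem_rowSp (c : Fin n → Fin j → F) (x : Fin n → F) :
    x ∈ rowSp c ↔ ∃ f : Dual F (Fin j → F), ∀ i, x i = f (c i) := by
  classical
  rw [rowSp, Submodule.mem_span_range_iff_exists_fun]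
  constructor
  · rintro ⟨y, rfl⟩
    refine ⟨∑ k, y k • LinearMap.proj k, ?_⟩
    intro i
    rw [Finset.sum_apply, LinearMap.sum_apply]
    rfl
  · rintro ⟨f, hf⟩
    refine ⟨fun k => f (fun l => if k = l then 1 else 0), ?_⟩
    ext i
    rw [hf i, LinearMap.pi_apply_eq_sum_univ f (c i), Finset.sum_apply]
    apply Finset.sum_congr rfl
    intro k _
    simp only [Pi.smul_apply, smul_eq_mul]
    ring

theorem good_of (c : Fin n → Fin j → F) (B : Finset (Fin n)) (φ : Fin n → Dual F (Fin j → F))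
    (h3 : 3 ≤ B.card) (h1 : ∀ b ∈ B, φ b (c b) = 1)
    (h2 : ∀ b ∈ B, ∀ d ∈ B, b ≠ d → φ b (c d) = 0)
    (h4 : ∀ (f : Dual F (Fin j → F)) (v : Fin j → F), f v = ∑ b ∈ B, f (c b) * φ b v)
    (h5 : ∀ a ∈ B, ∀ b ∈ B, ∀ d ∈ B, a ≠ b → a ≠ d → b ≠ d → ∀ w1 w2 w3 : F,
      ∃ i, φ a (c i) = w1 ∧ φ b (c i) = w2 ∧ φ d (c i) = w3) : Good (rowSp c) := by
  refine ⟨B, fun b i => φ b (c i), ?_, h3, h5⟩
  refine ⟨?_, h1, h2, ?_⟩
  · intro b _
    rw [mem_rowSp]
    exact ⟨φ b, fun _ => rfl⟩
  · intro x hx i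
    obtain ⟨f, hf⟩ := (mem_rowSp c x).1 hx
    rw [hf i, h4 f (c i)]
    apply Finset.sum_congr rfl
    intro b _
    rw [hf b]

end Row

/-! ### Counting -/

section Cnt

variable {n : ℕ} {K : Type} [Fintype K]

open Classical in
theorem count2 (p : Fin n → Prop) (T : ({i // p i} → K) → Finset K) (M : ℝ)
    (hT : ∀ x, ((T x).card : ℝ) ≤ M) :
    ((Finset.univ.filter (fun c : Fin n → K => ∀ i, ¬ p i → c i ∈ T (fun i => c i.1))).card : ℝ)
      ≤ (Fintype.card K : ℝ) ^ (Fintype.card {i // p i}) * M ^ (Fintype.card {i // ¬ p i}) := by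
  have h1 : (Finset.univ.filter (fun c : Fin n → K => ∀ i, ¬ p i → c i ∈ T (fun i => c i.1))).card
      ≤ Fintype.card (Σ x : ({i // p i} → K), ({i // ¬ p i} → T x)) := by
    rw [← Fintype.card_subtype]
    refine Fintype.card_le_of_injective (fun c => ⟨fun i => c.1 i.1, fun i => ⟨c.1 i.1, c.2 i.1 i.2⟩⟩) ?_
    intro c d hcd
    apply Subtype.ext
    ext i
    rw [Sigma.mk.injEq] at hcd
    by_cases hi : p i
    · exact congrFun hcd.1 ⟨i, hi⟩
    · obtain ⟨ha, hb⟩ := hcd
      obtain ⟨c, hc⟩ := c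
      obtain ⟨d, hd⟩ := d
      simp only at ha hb ⊢
      have hx : ∀ (x y : {i // p i} → K) (u : {i // ¬ p i} → T x) (v : {i // ¬ p i} → T y),
          x = y → HEq u v → ∀ k, (u k : K) = v k := by
        intro x y u v hxy huv k
        subst hxy
        rw [eq_of_heq huv]
      exact hx _ _ _ _ ha hb ⟨i, hi⟩
  have h2 : (Fintype.card (Σ x : ({i // p i} → K), ({i // ¬ p i} → T x)) : ℝ)
      ≤ (Fintype.card K : ℝ) ^ (Fintype.card {i // p i}) * M ^ (Fintype.card {i // ¬ p i}) := by
    rw [Fintype.card_sigma]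
    push_cast
    have h3 : ∀ x : ({i // p i} → K), (Fintype.card ({i // ¬ p i} → T x) : ℝ)
        ≤ M ^ (Fintype.card {i // ¬ p i}) := by
      intro x
      rw [Fintype.card_fun, Fintype.card_coe]
      push_cast
      exact pow_le_pow_left₀ (Nat.cast_nonneg _) (hT x) _
    calc ∑ x : ({i // p i} → K), (Fintype.card ({i // ¬ p i} → T x) : ℝ)
        ≤ ∑ x : ({i // p i} → K), M ^ (Fintype.card {i // ¬ p i}) :=
          Finset.sum_le_sum (fun x _ => h3 x)
      _ = _ := by
          rw [Finset.sum_const, nsmul_eq_mul, Finset.card_univ, Fintype.card_fun]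
          push_cast
          ring
  exact (by exact_mod_cast h1 : _ ≤ _).trans h2

open Classical in
theorem count1 (p : Fin n → Prop) (T : Finset K) :
    (Finset.univ.filter (fun c : Fin n → K => ∀ i, p i → c i ∈ T)).card
      = T.card ^ (Fintype.card {i // p i}) * Fintype.card K ^ (Fintype.card {i // ¬ p i}) := by
  have h1 : Finset.univ.filter (fun c : Fin n → K => ∀ i, p i → c i ∈ T)
      = Fintype.piFinset (fun i => if p i then T else Finset.univ) := by
    ext c
    rw [Finset.mem_filter, Fintype.mem_piFinset]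
    simp only [Finset.mem_univ, true_and]
    apply forall_congr'
    intro i
    split_ifs with hp <;> simp [hp]
  rw [h1, Fintype.card_piFinset]
  have h2 : ∀ i : Fin n, (if p i then T else Finset.univ : Finset K).card
      = if p i then T.card else Fintype.card K := by
    intro i
    split_ifs
    · rfl
    · rfl
  rw [Finset.prod_congr rfl (fun i _ => h2 i), Finset.prod_ite, Finset.prod_const,
    Finset.prod_const, Fintype.card_subtype, Fintype.card_subtype]

theorem count2' (p : Fin n → Prop) (T : ({i // p i} → K) → Finset K) (M : ℝ)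
    (hT : ∀ x, ((T x).card : ℝ) ≤ M) (a b : ℕ) (ha : Nat.card {i // p i} = a)
    (hb : Nat.card {i // ¬ p i} = b) (S : Finset (Fin n → K))
    (hS : ∀ c ∈ S, ∀ i, ¬ p i → c i ∈ T (fun i => c i.1)) :
    (S.card : ℝ) ≤ (Fintype.card K : ℝ) ^ a * M ^ b := by
  classical
  have h1 := count2 p T M hT
  simp only [← Nat.card_eq_fintype_card] at h1
  rw [ha, hb] at h1
  have h2 : S.card ≤ (Finset.univ.filter (fun c : Fin n → K => ∀ i, ¬ p i →
      c i ∈ T (fun i => c i.1))).card := by
    apply Finset.card_le_card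
    intro c hc
    rw [Finset.mem_filter]
    exact ⟨Finset.mem_univ _, hS c hc⟩
  have h3 : (S.card : ℝ) ≤ ((Finset.univ.filter (fun c : Fin n → K => ∀ i, ¬ p i →
      c i ∈ T (fun i => c i.1))).card : ℝ) := by exact_mod_cast h2
  rw [← Nat.card_eq_fintype_card]
  refine h3.trans ?_
  convert h1

theorem count1' (p : Fin n → Prop) (T : Finset K) (a b : ℕ) (ha : Nat.card {i // p i} = a)
    (hb : Nat.card {i // ¬ p i} = b) (S : Finset (Fin n → K))
    (hS : ∀ c ∈ S, ∀ i, p i → c i ∈ T) :
    S.card ≤ T.card ^ a * Fintype.card K ^ b := by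
  classical
  have h1 := count1 p T
  simp only [← Nat.card_eq_fintype_card] at h1
  rw [ha, hb] at h1
  have h2 : S.card ≤ (Finset.univ.filter (fun c : Fin n → K => ∀ i, p i → c i ∈ T)).card := by
    apply Finset.card_le_card
    intro c hc
    rw [Finset.mem_filter]
    exact ⟨Finset.mem_univ _, hS c hc⟩
  refine h2.trans (le_of_eq ?_)
  rw [← Nat.card_eq_fintype_card, ← h1]

end Cnt

end Pool.Agent.Helper46.E
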