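import Mathlib

set_option autoImplicit false

namespace Pool.Agent.Helper46.E

/-- Monomial semilinear maps of `F^n`. -/
@[ext] structure Mon (n : ℕ) (F : Type) [Field F] where
  perm : Equiv.Perm (Fin n)
  scal : Fin n → Fˣ
  aut : F ≃+* F

namespace Mon

variable {n : ℕ} {F : Type} [Field F]

/-- The image of a unit under a field automorphism. -/
def um (f : F ≃+* F) (u : Fˣ) : Fˣ := Units.map (f : F →* F) u

@[simp] theorem um_coe (f : F ≃+* F) (u : Fˣ) : ((um f u : Fˣ) : F) = f u := rfl

instance : Mul (Mon n F) :=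
  ⟨fun g h => ⟨g.perm * h.perm, fun i => g.scal i * um g.aut (h.scal (g.perm.symm i)),
    g.aut * h.aut⟩⟩

instance : One (Mon n F) := ⟨⟨1, fun _ => 1, 1⟩⟩

instance : Inv (Mon n F) :=
  ⟨fun g => ⟨g.perm⁻¹, fun i => um g.aut⁻¹ (g.scal (g.perm i))⁻¹, g.aut⁻¹⟩⟩

theorem mul_def (g h : Mon n F) : g * h = ⟨g.perm * h.perm,
    fun i => g.scal i * um g.aut (h.scal (g.perm.symm i)), g.aut * h.aut⟩ := rfl

theorem one_def : (1 : Mon n F) = ⟨1, fun _ => 1, 1⟩ := rfl

theorem inv_def (g : Mon n F) : g⁻¹ = ⟨g.perm⁻¹, fun i => um g.aut⁻¹ (g.scal (g.perm i))⁻¹,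
    g.aut⁻¹⟩ := rfl

instance : Group (Mon n F) := Group.ofLeftAxioms
  (by
    intro a b c
    simp only [mul_def]
    ext i
    · rfl
    · simp [mul_assoc]
      rfl
    · rfl)
  (by
    intro a
    simp only [mul_def, one_def]
    ext i
    · simp
    · simp
      rfl
    · simp)
  (by
    intro a
    simp only [mul_def, one_def, inv_def]
    ext i
    · simp
    · simp
      change (a.aut.symm ↑(a.scal (a.perm i)))⁻¹ * a.aut.symm ↑(a.scal (a.perm i)) = 1
      exact inv_mul_cancel₀ (by simp)
    · simp)

/-- The underlying map. -/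
def app (g : Mon n F) (x : Fin n → F) : Fin n → F := fun i => g.scal i * g.aut (x (g.perm.symm i))

theorem app_apply (g : Mon n F) (x : Fin n → F) (i : Fin n) :
    g.app x i = g.scal i * g.aut (x (g.perm.symm i)) := rfl

theorem app_add (g : Mon n F) (x y : Fin n → F) : g.app (x + y) = g.app x + g.app y := by
  ext i
  simp [app_apply, mul_add]

theorem app_smul (g : Mon n F) (c : F) (x : Fin n → F) : g.app (c • x) = g.aut c • g.app x := by
  ext i
  simp only [app_apply, Pi.smul_apply, smul_eq_mul, map_mul]
  ring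

theorem app_zero (g : Mon n F) : g.app 0 = 0 := by
  ext i
  simp [app_apply]

theorem app_mul (g h : Mon n F) (x : Fin n → F) : (g * h).app x = g.app (h.app x) := by
  ext i
  simp only [app_apply, mul_def, Units.val_mul, um_coe, map_mul]
  rw [mul_assoc]
  rfl

theorem app_one (x : Fin n → F) : (1 : Mon n F).app x = x := by
  ext i
  simp [app_apply, one_def]
  rfl

theorem app_inv_app (g : Mon n F) (x : Fin n → F) : g⁻¹.app (g.app x) = x := by
  rw [← app_mul, inv_mul_cancel, app_one]

theorem app_app_inv (g : Mon n F) (x : Fin n → F) : g.app (g⁻¹.app x) = x := by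
  rw [← app_mul, mul_inv_cancel, app_one]

/-- Image of a subspace. -/
def sub (g : Mon n F) (U : Submodule F (Fin n → F)) : Submodule F (Fin n → F) where
  carrier := {y | g⁻¹.app y ∈ U}
  add_mem' := by
    intro a b ha hb
    simp only [Set.mem_ofPred_eq] at *
    rw [app_add]
    exact U.add_mem ha hb
  zero_mem' := by
    simp only [Set.mem_ofPred_eq]
    rw [app_zero]
    exact U.zero_mem
  smul_mem' := by
    intro c x hx
    simp only [Set.mem_ofPred_eq] at *
    rw [app_smul]
    exact U.smul_mem _ hx

theorem mem_sub (g : Mon n F) (U : Submodule F (Fin n → F)) (y : Fin n → F) :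
    y ∈ g.sub U ↔ g⁻¹.app y ∈ U := Iff.rfl

instance : MulAction (Mon n F) (Submodule F (Fin n → F)) where
  smul g U := g.sub U
  one_smul U := by
    ext y
    change (1 : Mon n F)⁻¹.app y ∈ U ↔ _
    rw [inv_one, app_one]
  mul_smul g h U := by
    ext y
    change (g * h)⁻¹.app y ∈ U ↔ h⁻¹.app (g⁻¹.app y) ∈ U
    rw [mul_inv_rev, app_mul]

theorem mem_smul (g : Mon n F) (U : Submodule F (Fin n → F)) (y : Fin n → F) :
    y ∈ g • U ↔ g⁻¹.app y ∈ U := Iff.rfl

theorem app_mem_smul (g : Mon n F) (U : Submodule F (Fin n → F)) (y : Fin n → F) :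
    g.app y ∈ g • U ↔ y ∈ U := by
  rw [mem_smul, app_inv_app]

/-- Elements as a product. -/
def equivProd : Mon n F ≃ (Equiv.Perm (Fin n) × (Fin n → Fˣ) × (F ≃+* F)) where
  toFun g := (g.perm, g.scal, g.aut)
  invFun t := ⟨t.1, t.2.1, t.2.2⟩
  left_inv _ := rfl
  right_inv _ := rfl

section Card

set_option linter.unusedSectionVars false

variable [Finite F]

noncomputable instance : Finite (F ≃+* F) :=
  Finite.of_injective (fun f : F ≃+* F => (f : F → F)) DFunLike.coe_injective

noncomputable instance : Finite (Mon n F) := Finite.of_equiv _ equivProd.symm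

noncomputable instance : Fintype (Mon n F) := Fintype.ofFinite _

theorem card_aut (p k : ℕ) (hp : p.Prime) (hcard : Nat.card F = p ^ k) (hk : 0 < k) :
    Nat.card (F ≃+* F) = k := by
  have : Fact p.Prime := ⟨hp⟩
  have hchar : CharP F p := by
    have : Fintype F := Fintype.ofFinite F
    have hc : Fintype.card F = p ^ k := by rw [← Nat.card_eq_fintype_card, hcard]
    obtain ⟨p', hp'⟩ := CharP.exists F
    have hp'' : p'.Prime := CharP.char_is_prime F p'
    have : Fact p'.Prime := ⟨hp''⟩
    obtain ⟨m, hm, hm2⟩ := FiniteField.card F p'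
    rw [hc] at hm2
    have h1 : p ∣ p' ^ (m : ℕ) := by
      rw [← hm2]
      exact dvd_pow_self p hk.ne'
    have h2 := (Nat.prime_dvd_prime_iff_eq hp hp'').1 (hp.dvd_of_dvd_pow h1)
    rw [h2]
    exact hp'
  let _ : Algebra (ZMod p) F := ZMod.algebra F p
  have hfr : Module.finrank (ZMod p) F = k := by
    have h1 := Module.natCard_eq_pow_finrank (K := ZMod p) (V := F)
    rw [hcard, Nat.card_zmod] at h1
    exact (Nat.pow_right_injective hp.two_le h1).symm
  have hgal : IsGalois (ZMod p) F := inferInstance
  have h2 := IsGalois.card_aut_eq_finrank (ZMod p) F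
  rw [hfr] at h2
  rw [← h2]
  refine Nat.card_congr
    { toFun := fun f => AlgEquiv.ofRingEquiv (f := f) (by
        intro x
        have : (f : F →+* F).comp (algebraMap (ZMod p) F) = algebraMap (ZMod p) F :=
          Subsingleton.elim _ _
        exact congrFun (congrArg DFunLike.coe this) x)
      invFun := fun f => f.toRingEquiv
      left_inv := fun f => by ext; rfl
      right_inv := fun f => by ext; rfl }

theorem card_units : Nat.card Fˣ = Nat.card F - 1 := Nat.card_units F

theorem card_mon : Nat.card (Mon n F) = n.factorial * (Nat.card F - 1) ^ n * Nat.card (F ≃+* F) := by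
  rw [Nat.card_congr (equivProd (n := n) (F := F)), Nat.card_prod, Nat.card_prod, Nat.card_perm,
    Nat.card_fun, card_units]
  simp [mul_assoc]

end Card

/-- Scalar maps. -/
def scalar (c : Fˣ) : Mon n F := ⟨1, fun _ => c, 1⟩

theorem scalar_app (c : Fˣ) (x : Fin n → F) : (scalar c : Mon n F).app x = (c : F) • x := by
  ext i
  simp [app_apply, scalar]
  rfl

theorem scalar_smul (c : Fˣ) (U : Submodule F (Fin n → F)) : (scalar c : Mon n F) • U = U := by
  ext y
  have h1 : (scalar c : Mon n F).app ((scalar c : Mon n F)⁻¹.app y) = y := app_app_inv _ _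
  rw [scalar_app] at h1
  rw [mem_smul]
  constructor
  · intro h
    rw [← h1]
    exact U.smul_mem _ h
  · intro h
    rw [← h1] at h
    exact (U.smul_mem_iff (by simp)).1 h

theorem scalar_injective (hn : 0 < n) : Function.Injective (scalar : Fˣ → Mon n F) := by
  intro a b h
  have := congrArg Mon.scal h
  exact congrFun this ⟨0, hn⟩

end Mon

section Burnside

open Mon

variable {n : ℕ} {F : Type} [Field F] [Finite F]

noncomputable def orbitsCard (n : ℕ) (F : Type) [Field F] : ℕ :=
  Nat.card (MulAction.orbitRel.Quotient (Mon n F) (Submodule F (Fin n → F)))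

open Classical in
theorem burnside (hn : 0 < n) :
    orbitsCard n F * Nat.card (Mon n F)
      = (Nat.card F - 1) * Nat.card (Submodule F (Fin n → F)) +
        ∑ g ∈ Finset.univ.filter (fun g : Mon n F => g ∉ Set.range (scalar : Fˣ → Mon n F)),
          Nat.card {U : Submodule F (Fin n → F) // g • U = U} := by
  have hfin : Finite (Submodule F (Fin n → F)) := inferInstance
  let _ : Fintype Fˣ := Fintype.ofFinite _
  let _ : Fintype (Submodule F (Fin n → F)) := Fintype.ofFinite _
  let _ : Fintype (MulAction.orbitRel.Quotient (Mon n F) (Submodule F (Fin n → F))) :=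
    Fintype.ofFinite _
  have h := MulAction.sum_card_fixedBy_eq_card_orbits_mul_card_group (Mon n F)
    (Submodule F (Fin n → F))
  rw [orbitsCard, Nat.card_eq_fintype_card, Nat.card_eq_fintype_card (α := Mon n F), ← h]
  rw [← Finset.sum_filter_add_sum_filter_not Finset.univ
    (fun g : Mon n F => g ∈ Set.range (scalar : Fˣ → Mon n F))]
  congr 1
  · have h2 : ∀ g ∈ Finset.univ.filter (fun g : Mon n F => g ∈ Set.range (scalar : Fˣ → Mon n F)),
        Fintype.card (MulAction.fixedBy (Submodule F (Fin n → F)) g)
          = Nat.card (Submodule F (Fin n → F)) := by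
      intro g hg
      rw [Finset.mem_filter] at hg
      obtain ⟨-, c, rfl⟩ := hg
      rw [← Nat.card_eq_fintype_card]
      refine Nat.card_congr (Equiv.subtypeUnivEquiv ?_)
      intro U
      exact scalar_smul c U
    rw [Finset.sum_congr rfl h2, Finset.sum_const, smul_eq_mul]
    congr 1
    have : Finset.univ.filter (fun g : Mon n F => g ∈ Set.range (scalar : Fˣ → Mon n F))
        = Finset.image (scalar : Fˣ → Mon n F) Finset.univ := by
      ext g
      simp
    rw [this, Finset.card_image_of_injective _ (scalar_injective hn), Finset.card_univ,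
      ← Nat.card_eq_fintype_card, card_units]
  · refine Finset.sum_congr (by ext; simp) ?_
    intro g _
    rw [← Nat.card_eq_fintype_card]
    rfl

end Burnside

end Pool.Agent.Helper46.E
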