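import Pool.Agent.Helper46.E.Recover

set_option autoImplicit false
set_option linter.unusedSectionVars false

namespace Pool.Agent.Helper46.E

open Set Module Mon

variable {n : ℕ} {F : Type} [Field F] [Finite F]

theorem orbit_card (hn : 0 < n) (U : Submodule F (Fin n → F)) :
    Nat.card (MulAction.orbit (Mon n F) U) * (Nat.card F - 1) ≤ Nat.card (Mon n F) := by
  have h1 : Nat.card (Mon n F) = Nat.card (MulAction.orbit (Mon n F) U) *
      Nat.card (MulAction.stabilizer (Mon n F) U) := by
    rw [Nat.card_congr (MulAction.orbitEquivQuotientStabilizer (Mon n F) U)]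
    exact (Subgroup.card_eq_card_quotient_mul_card_subgroup _)
  rw [h1]
  apply Nat.mul_le_mul_left
  rw [← card_units]
  exact Nat.card_le_card_of_injective
    (fun c : Fˣ => (⟨scalar c, scalar_smul c U⟩ : MulAction.stabilizer (Mon n F) U))
    (fun a b h => scalar_injective hn (congrArg Subtype.val h))

theorem finite_quot' : Finite (Quot (isoRel n F)) := by
  have h1 : Finite (RepM n F) := Finite.of_surjective toRep toRep_surjective
  exact Finite.of_surjective (Quot.mk (isoRel n F)) Quot.mk_surjective

theorem good_le (hn : 0 < n) :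
    Nat.card {U : Submodule F (Fin n → F) // Good U} * (Nat.card F - 1)
      ≤ Nat.card (Quot (isoRel n F)) * Nat.card (Mon n F) := by
  classical
  have hQ : Finite (Quot (isoRel n F)) := finite_quot'
  let _ : Fintype (Quot (isoRel n F)) := Fintype.ofFinite _
  let _ : Fintype (Submodule F (Fin n → F)) := Fintype.ofFinite _
  set S : Finset (Submodule F (Fin n → F)) := Finset.univ.filter (fun U => Good U) with hS
  have h1 : Nat.card {U : Submodule F (Fin n → F) // Good U} = S.card := by
    rw [Nat.card_eq_fintype_card, Fintype.card_subtype]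
  rw [h1]
  have h2 : S.card = ∑ c : Quot (isoRel n F),
      (S.filter (fun U => Quot.mk (isoRel n F) (toRep U) = c)).card :=
    Finset.card_eq_sum_card_fiberwise (fun _ _ => Finset.mem_univ _)
  rw [h2, Finset.sum_mul, Nat.card_eq_fintype_card (α := Quot (isoRel n F)), ← Finset.card_univ,
    ← smul_eq_mul, ← Finset.sum_const]
  apply Finset.sum_le_sum
  intro c _
  by_cases hemp : (S.filter (fun U => Quot.mk (isoRel n F) (toRep U) = c)).Nonempty
  · obtain ⟨U, hU⟩ := hemp
    rw [Finset.mem_filter, hS, Finset.mem_filter] at hU
    have h3 : (S.filter (fun U => Quot.mk (isoRel n F) (toRep U) = c)).card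
        ≤ Nat.card (MulAction.orbit (Mon n F) U) := by
      rw [Nat.card_eq_fintype_card, ← Set.toFinset_card]
      apply Finset.card_le_card
      intro W hW
      rw [Finset.mem_filter] at hW
      rw [Set.mem_toFinset]
      obtain ⟨g, hg⟩ := good_fiber U W hU.1.2 (hU.2.trans hW.2.symm)
      exact ⟨g, hg⟩
    exact (Nat.mul_le_mul_right _ h3).trans (orbit_card hn U)
  · rw [Finset.not_nonempty_iff_eq_empty] at hemp
    rw [hemp, Finset.card_empty, zero_mul]
    exact Nat.zero_le _

end Pool.Agent.Helper46.E
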