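import Pool.Agent.Helper46.E.Group

set_option autoImplicit false
set_option linter.unusedSectionVars false

namespace Pool.Agent.Helper46.E

open Set Module

/-! ### Vector matroids -/

theorem finrank_span_image {α F W : Type} [Finite α] [Field F] [AddCommGroup W]
    [Module F W] (v : α → W) (I : Set α) (hI : LinearIndepOn F v I) :
    Module.finrank F (Submodule.span F (v '' I)) = I.ncard := by
  classical
  have : Fintype I := Fintype.ofFinite I
  have h := finrank_span_eq_card (R := F) (b := fun x : I => v x) hI
  rw [← Set.image_eq_range] at h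
  rw [h, ← Nat.card_eq_fintype_card]
  rfl

theorem aug {α F W : Type} [Finite α] [Field F] [AddCommGroup W]
    [Module F W] (v : α → W) (I J : Set α) (hI : LinearIndepOn F v I)
    (hJ : LinearIndepOn F v J) (hIJ : I.ncard < J.ncard) :
    ∃ e ∈ J, e ∉ I ∧ LinearIndepOn F v (insert e I) := by
  by_contra hcon
  push Not at hcon
  have hsub : ∀ e ∈ J, v e ∈ Submodule.span F (v '' I) := by
    intro e he
    by_contra hns
    have heI : e ∉ I := fun h => hns (Submodule.subset_span ⟨e, h, rfl⟩)
    exact hcon e he heI (hI.insert hns)
  have hle : Submodule.span F (v '' J) ≤ Submodule.span F (v '' I) := by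
    rw [Submodule.span_le]
    rintro _ ⟨e, he, rfl⟩
    exact hsub e he
  have : FiniteDimensional F (Submodule.span F (v '' I)) :=
    FiniteDimensional.span_of_finite F (Set.toFinite _)
  have := Submodule.finrank_mono hle
  rw [finrank_span_image v I hI, finrank_span_image v J hJ] at this
  omega

/-- The vector matroid of a finite family `v` of vectors, with ground set everything. -/
noncomputable def linMatroid {α : Type} [Finite α] (F : Type) [Field F] {W : Type} [AddCommGroup W]
    [Module F W] (v : α → W) : Matroid α :=
  (IndepMatroid.ofFinite (E := Set.univ) Set.finite_univ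
    (fun I => LinearIndepOn F v I)
    (linearIndepOn_empty F v)
    (fun _ _ hJ hIJ => hJ.mono hIJ)
    (fun I J hI hJ hIJ => aug v I J hI hJ hIJ)
    (fun I _ => Set.subset_univ I)).matroid

@[simp] theorem linMatroid_E {α : Type} [Finite α] (F : Type) [Field F] {W : Type} [AddCommGroup W]
    [Module F W] (v : α → W) : (linMatroid F v).E = Set.univ := rfl

@[simp] theorem linMatroid_indep {α : Type} [Finite α] (F : Type) [Field F] {W : Type}
    [AddCommGroup W] [Module F W] (v : α → W) (I : Set α) :
    (linMatroid F v).Indep I ↔ LinearIndepOn F v I := by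
  simp [linMatroid]

variable {n : ℕ} {F : Type} [Field F] [Finite F]

/-- The space of relations on a finite set of coordinates. -/
def Rel (U : Submodule F (Fin n → F)) (s : Finset (Fin n)) (c : Fin n → F) : Prop :=
  ∀ x ∈ U, ∑ i ∈ s, c i * x i = 0

/-- Independence of a set of coordinates. -/
def Ind (U : Submodule F (Fin n → F)) (I : Set (Fin n)) : Prop :=
  ∀ (s : Finset (Fin n)) (c : Fin n → F), (s : Set (Fin n)) ⊆ I → Rel U s c → ∀ i ∈ s, c i = 0

/-- Coordinate functionals. -/
def vU (U : Submodule F (Fin n → F)) (i : Fin n) : Module.Dual F U :=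
  (LinearMap.proj i).comp U.subtype

theorem ind_iff (U : Submodule F (Fin n → F)) (I : Set (Fin n)) :
    LinearIndepOn F (vU U) I ↔ Ind U I := by
  rw [linearIndepOn_iff']
  constructor
  · intro h s c hs hrel
    apply h s c hs
    ext x
    simp only [LinearMap.coe_sum, Finset.sum_apply, LinearMap.smul_apply, smul_eq_mul,
      LinearMap.zero_apply]
    exact hrel x.1 x.2
  · intro h s c hs hrel
    apply h s c hs
    intro x hx
    have := congrArg (fun f : Module.Dual F U => f ⟨x, hx⟩) hrel
    simp only [LinearMap.coe_sum, Finset.sum_apply, LinearMap.smul_apply, smul_eq_mul,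
      LinearMap.zero_apply] at this
    exact this

/-- Independence for a family of vectors equals independence for its row space. -/
theorem family_iff (r : ℕ) (v : Fin n → Fin r → F) (I : Set (Fin n)) :
    LinearIndepOn F v I ↔
      Ind (LinearMap.range (Matrix.mulVecLin (Matrix.of v))) I := by
  rw [linearIndepOn_iff']
  have key : ∀ (s : Finset (Fin n)) (c : Fin n → F),
      Rel (LinearMap.range (Matrix.mulVecLin (Matrix.of v))) s c ↔ ∑ i ∈ s, c i • v i = 0 := by
    intro s c
    have e1 : ∀ w : Fin r → F, ∑ i ∈ s, c i * (Matrix.mulVecLin (Matrix.of v) w) i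
        = ∑ k, (∑ i ∈ s, c i • v i) k * w k := by
      intro w
      simp only [Matrix.mulVecLin_apply, Matrix.mulVec, dotProduct, Matrix.of_apply,
        Finset.mul_sum, Finset.sum_apply, Pi.smul_apply, smul_eq_mul, Finset.sum_mul]
      rw [Finset.sum_comm]
      apply Finset.sum_congr rfl
      intro k _
      apply Finset.sum_congr rfl
      intro i _
      ring
    constructor
    · intro h
      classical
      ext k
      have h2 := h _ (LinearMap.mem_range_self _ (Pi.single k 1))
      rw [e1, Finset.sum_eq_single k (fun b _ hb => by rw [Pi.single_eq_of_ne hb, mul_zero])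
        (fun h => absurd (Finset.mem_univ k) h), Pi.single_eq_same, mul_one] at h2
      exact h2
    · rintro h _ ⟨w, rfl⟩
      rw [e1, h]
      simp
  constructor
  · intro h s c hs hrel
    exact h s c hs ((key s c).1 hrel)
  · intro h s c hs hrel
    exact h s c hs ((key s c).2 hrel)

/-- The matroid of a subspace. -/
noncomputable def matU (U : Submodule F (Fin n → F)) : Matroid (Fin n) := linMatroid F (vU U)

theorem matU_indep (U : Submodule F (Fin n → F)) (I : Set (Fin n)) :
    (matU U).Indep I ↔ Ind U I := by
  rw [matU, linMatroid_indep, ind_iff]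

/-- The type of representable matroids. -/
abbrev RepM (n : ℕ) (F : Type) [Field F] : Type :=
  {M : Matroid (Fin n) // M.E = Set.univ ∧
          ∃ (r : ℕ) (v : Fin n → Fin r → F), ∀ I : Set (Fin n),
            (M.Indep I ↔ LinearIndependent F (fun i : I => v i.1))}

theorem matU_rep (U : Submodule F (Fin n → F)) : ∃ (r : ℕ) (v : Fin n → Fin r → F),
    ∀ I : Set (Fin n), ((matU U).Indep I ↔ LinearIndependent F (fun i : I => v i.1)) := by
  let e : Module.Dual F U ≃ₗ[F] (Fin (finrank F (Module.Dual F U)) → F) :=
    (Module.finBasis F (Module.Dual F U)).equivFun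
  refine ⟨_, fun i => e (vU U i), ?_⟩
  intro I
  rw [matU, linMatroid_indep]
  have := LinearMap.linearIndependent_iff (v := fun i : I => vU U i)
    (e : Module.Dual F U →ₗ[F] (Fin (finrank F (Module.Dual F U)) → F)) (LinearEquiv.ker e)
  exact this.symm

/-- The matroid of a subspace as a representable matroid. -/
noncomputable def toRep (U : Submodule F (Fin n → F)) : RepM n F := ⟨matU U, rfl, matU_rep U⟩

theorem toRep_surjective : Function.Surjective (toRep : Submodule F (Fin n → F) → RepM n F) := by
  rintro ⟨M, hE, r, v, hv⟩
  refine ⟨LinearMap.range (Matrix.mulVecLin (Matrix.of v)), ?_⟩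
  apply Subtype.ext
  change matU _ = M
  apply Matroid.ext_indep
  · rw [hE]; rfl
  · intro I _
    rw [matU_indep, hv, ← family_iff]
    rfl

/-- The isomorphism relation of the frozen statement. -/
def isoRel (n : ℕ) (F : Type) [Field F] (M N : RepM n F) : Prop :=
  ∃ σ : Equiv.Perm (Fin n), ∀ I : Set (Fin n), (M.1.Indep I ↔ N.1.Indep (σ '' I))

open Mon

theorem ind_smul (g : Mon n F) (U : Submodule F (Fin n → F)) (I : Set (Fin n)) :
    Ind U I ↔ Ind (g • U) (g.perm '' I) := by
  classical
  constructor
  · intro h s c hs hrel i hi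
    -- pull back
    have h1 := h (s.image g.perm.symm) (fun i => g.aut.symm (c (g.perm i) * g.scal (g.perm i))) ?_ ?_
      (g.perm.symm i) (Finset.mem_image_of_mem _ hi)
    · simp only [Equiv.apply_symm_apply] at h1
      rw [RingEquiv.symm_apply_eq, map_zero] at h1
      rcases mul_eq_zero.1 h1 with h2 | h2
      · exact h2
      · exact absurd h2 (g.scal i).ne_zero
    · intro j hj
      rw [Finset.mem_coe, Finset.mem_image] at hj
      obtain ⟨k, hk, rfl⟩ := hj
      obtain ⟨l, hl, rfl⟩ := hs hk
      simpa using hl
    · intro x hx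
      have h2 := hrel (g.app x) ((app_mem_smul g U x).2 hx)
      have h3 := congrArg g.aut.symm h2
      rw [map_sum, map_zero] at h3
      rw [Finset.sum_image (fun a _ b _ h => g.perm.symm.injective h), ← h3]
      apply Finset.sum_congr rfl
      intro k _
      simp only [Equiv.apply_symm_apply, app_apply, map_mul, RingEquiv.symm_apply_apply]
      ring
  · intro h s c hs hrel i hi
    have h1 := h (s.image g.perm) (fun i => (g.scal i : F)⁻¹ * g.aut (c (g.perm.symm i))) ?_ ?_
      (g.perm i) (Finset.mem_image_of_mem _ hi)
    · simp only [Equiv.symm_apply_apply] at h1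
      rcases mul_eq_zero.1 h1 with h2 | h2
      · exact absurd h2 (inv_ne_zero (g.scal _).ne_zero)
      · exact (map_eq_zero g.aut).1 h2
    · intro j hj
      rw [Finset.mem_coe, Finset.mem_image] at hj
      obtain ⟨k, hk, rfl⟩ := hj
      exact ⟨k, hs hk, rfl⟩
    · intro y hy
      have h2 := hrel (g⁻¹.app y) ((mem_smul g U y).1 hy)
      have h3 := congrArg g.aut h2
      rw [map_sum, map_zero] at h3
      rw [Finset.sum_image (fun a _ b _ h => g.perm.injective h), ← h3]
      apply Finset.sum_congr rfl
      intro k _
      have h4 : y (g.perm k) = (g.scal (g.perm k) : F) * g.aut (g⁻¹.app y k) := by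
        conv_lhs => rw [← app_app_inv g y]
        rw [app_apply, Equiv.symm_apply_apply]
      rw [h4, map_mul]
      simp only [Equiv.symm_apply_apply]
      have h5 : (g.scal (g.perm k) : F) ≠ 0 := (g.scal _).ne_zero
      field_simp

theorem card_quot_le :
    Nat.card (Quot (isoRel n F)) ≤ orbitsCard n F := by
  unfold orbitsCard
  have hfin : Finite (Submodule F (Fin n → F)) := inferInstance
  have : Finite (MulAction.orbitRel.Quotient (Mon n F) (Submodule F (Fin n → F))) :=
    Quotient.finite _
  refine Nat.card_le_card_of_surjective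
    (Quotient.lift (fun U : Submodule F (Fin n → F) => Quot.mk (isoRel n F) (toRep U)) ?_) ?_
  · intro U U' h
    have h' : U ∈ MulAction.orbit (Mon n F) U' := h
    obtain ⟨g, hg⟩ := h'
    have hg' : g • U' = U := hg
    symm
    apply Quot.sound
    refine ⟨g.perm, ?_⟩
    intro I
    change (matU U').Indep I ↔ (matU U).Indep (g.perm '' I)
    rw [matU_indep, matU_indep, ← hg']
    exact ind_smul g U' I
  · intro c
    obtain ⟨M, rfl⟩ := Quot.exists_rep c
    obtain ⟨U, rfl⟩ := toRep_surjective M
    exact ⟨Quotient.mk _ U, rfl⟩

end Pool.Agent.Helper46.E
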