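import Pool.Agent.Helper46.E.Uniq

set_option autoImplicit false
set_option linter.unusedSectionVars false

namespace Pool.Agent.Helper46.E

open Set Module Mon

variable {n : ℕ} {F : Type} [Field F] [Finite F]

/-- Combinatorial comparison data for two dual bases. -/
structure Sit (B : Finset (Fin n)) (E E' : Fin n → Fin n → F) : Prop where
  diag : ∀ b ∈ B, E b b = 1
  off : ∀ b ∈ B, ∀ c ∈ B, b ≠ c → E b c = 0
  diag' : ∀ b ∈ B, E' b b = 1
  off' : ∀ b ∈ B, ∀ c ∈ B, b ≠ c → E' b c = 0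
  d3 : ∀ a ∈ B, ∀ b ∈ B, ∀ c ∈ B, a ≠ b → a ≠ c → b ≠ c → ∀ i j k,
    (d3 E a b c i j k = 0 ↔ d3 E' a b c i j k = 0)
  rich : ∀ a ∈ B, ∀ b ∈ B, ∀ c ∈ B, a ≠ b → a ≠ c → b ≠ c → ∀ w1 w2 w3 : F,
    ∃ i, E a i = w1 ∧ E b i = w2 ∧ E c i = w3
  three : 3 ≤ B.card

namespace Sit

variable {B : Finset (Fin n)} {E E' : Fin n → Fin n → F}

theorem third (h : Sit B E E') (a b : Fin n) : ∃ c ∈ B, a ≠ c ∧ b ≠ c := by
  classical
  by_contra hcon
  push Not at hcon
  have hsub : B ⊆ {a, b} := by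
    intro c hc
    simp only [Finset.mem_insert, Finset.mem_singleton]
    by_cases hac : a = c
    · exact Or.inl hac.symm
    · exact Or.inr (hcon c hc hac).symm
  have h1 := Finset.card_le_card hsub
  have h2 : ({a, b} : Finset (Fin n)).card ≤ 2 := Finset.card_le_two
  have h3 := h.three
  omega

theorem second (h : Sit B E E') (a : Fin n) : ∃ c ∈ B, a ≠ c := by
  obtain ⟨c, hc, h1, -⟩ := h.third a a
  exact ⟨c, hc, h1⟩

theorem zero_iff (h : Sit B E E') (a : Fin n) (ha : a ∈ B) (i : Fin n) :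
    E a i = 0 ↔ E' a i = 0 := by
  obtain ⟨b, hb, hab⟩ := h.second a
  obtain ⟨c, hc, hac, hbc⟩ := h.third a b
  have h1 := h.d3 a ha b hb c hc hab hac hbc i b c
  rw [d3_eq, d3_eq, h.diag b hb, h.diag c hc, h.off a ha b hb hab, h.off a ha c hc hac,
    h.off b hb c hc hbc, h.diag' b hb, h.diag' c hc, h.off' a ha b hb hab, h.off' a ha c hc hac,
    h.off' b hb c hc hbc] at h1
  simpa using h1

theorem two_iff (h : Sit B E E') (a b : Fin n) (ha : a ∈ B) (hb : b ∈ B) (hab : a ≠ b)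
    (i j : Fin n) : E a i * E b j = E b i * E a j ↔ E' a i * E' b j = E' b i * E' a j := by
  obtain ⟨c, hc, hac, hbc⟩ := h.third a b
  have h1 := h.d3 a ha b hb c hc hab hac hbc i j c
  rw [d3_eq, d3_eq, h.diag c hc, h.off a ha c hc hac,
    h.off b hb c hc hbc, h.diag' c hc, h.off' a ha c hc hac,
    h.off' b hb c hc hbc] at h1
  simp only [mul_one, mul_zero, sub_zero, add_zero] at h1
  rw [sub_eq_zero, sub_eq_zero] at h1
  exact h1

theorem pair (h : Sit B E E') (a b : Fin n) (ha : a ∈ B) (hb : b ∈ B) (hab : a ≠ b) (t : F) :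
    ∃ i, E a i = 1 ∧ E b i = t := by
  obtain ⟨c, hc, hac, hbc⟩ := h.third a b
  obtain ⟨i, h1, h2, -⟩ := h.rich a ha b hb c hc hab hac hbc 1 t 0
  exact ⟨i, h1, h2⟩

end Sit

open Classical in
/-- Ratio transfer map. -/
noncomputable def th (E E' : Fin n → Fin n → F) (a b : Fin n) (t : F) : F :=
  if h : ∃ i, E a i = 1 ∧ E b i = t then E' b h.choose / E' a h.choose else 0

namespace Sit

variable {B : Finset (Fin n)} {E E' : Fin n → Fin n → F}

theorem th_spec (h : Sit B E E') (a b : Fin n) (ha : a ∈ B) (hb : b ∈ B) (hab : a ≠ b)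
    (i : Fin n) (hi : E a i ≠ 0) : E' b i = th E E' a b (E b i / E a i) * E' a i := by
  have hex := h.pair a b ha hb hab (E b i / E a i)
  rw [th, dif_pos hex]
  obtain ⟨h1, h2⟩ := hex.choose_spec
  set j := hex.choose with hj
  have h3 : E a i * E b j = E b i * E a j := by
    rw [h1, h2]
    field_simp
  have h4 := (h.two_iff a b ha hb hab i j).1 h3
  have h5 : E' a j ≠ 0 := by
    rw [Ne, ← h.zero_iff a ha j, h1]
    exact one_ne_zero
  field_simp
  linear_combination -h4

theorem th_zero (h : Sit B E E') (a b : Fin n) (ha : a ∈ B) (hb : b ∈ B) (hab : a ≠ b) :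
    th E E' a b 0 = 0 := by
  obtain ⟨i, h1, h2⟩ := h.pair a b ha hb hab 0
  have h3 := h.th_spec a b ha hb hab i (by rw [h1]; exact one_ne_zero)
  rw [h2, h1, zero_div] at h3
  have h4 : E' b i = 0 := (h.zero_iff b hb i).1 h2
  have h5 : E' a i ≠ 0 := by
    rw [Ne, ← h.zero_iff a ha i, h1]
    exact one_ne_zero
  rw [h4] at h3
  rcases mul_eq_zero.1 h3.symm with h6 | h6
  · exact h6
  · exact absurd h6 h5

theorem th_ne_zero (h : Sit B E E') (a b : Fin n) (ha : a ∈ B) (hb : b ∈ B) (hab : a ≠ b)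
    (t : F) (ht : t ≠ 0) : th E E' a b t ≠ 0 := by
  obtain ⟨i, h1, h2⟩ := h.pair a b ha hb hab t
  have h3 := h.th_spec a b ha hb hab i (by rw [h1]; exact one_ne_zero)
  rw [h2, h1, div_one] at h3
  intro h4
  rw [h4, zero_mul, ← h.zero_iff b hb, h2] at h3
  exact ht h3

theorem th_mul (h : Sit B E E') (a b c : Fin n) (ha : a ∈ B) (hb : b ∈ B) (hc : c ∈ B)
    (hab : a ≠ b) (hac : a ≠ c) (hbc : b ≠ c) (s t : F) (hs : s ≠ 0) :
    th E E' a c (s * t) = th E E' b c t * th E E' a b s := by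
  obtain ⟨i, h1, h2, h3⟩ := h.rich a ha b hb c hc hab hac hbc 1 s (s * t)
  have h4 := h.th_spec a c ha hc hac i (by rw [h1]; exact one_ne_zero)
  have h5 := h.th_spec a b ha hb hab i (by rw [h1]; exact one_ne_zero)
  have h6 := h.th_spec b c hb hc hbc i (by rw [h2]; exact hs)
  rw [h3, h1, div_one] at h4
  rw [h2, h1, div_one] at h5
  rw [h3, h2, mul_div_cancel_left₀ _ hs] at h6
  have h7 : E' a i ≠ 0 := by
    rw [Ne, ← h.zero_iff a ha i, h1]
    exact one_ne_zero
  rw [h4, h5, ← mul_assoc] at h6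
  exact mul_right_cancel₀ h7 h6

theorem th_inv (h : Sit B E E') (a b : Fin n) (ha : a ∈ B) (hb : b ∈ B)
    (hab : a ≠ b) : th E E' a b 1 * th E E' b a 1 = 1 := by
  obtain ⟨i, h1, h2⟩ := h.pair a b ha hb hab 1
  have h3 := h.th_spec a b ha hb hab i (by rw [h1]; exact one_ne_zero)
  have h4 := h.th_spec b a hb ha hab.symm i (by rw [h2]; exact one_ne_zero)
  rw [h1, h2, div_one] at h3 h4
  have h7 : E' a i ≠ 0 := by
    rw [Ne, ← h.zero_iff a ha i, h1]
    exact one_ne_zero
  rw [h3] at h4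
  have h8 : (th E E' a b 1 * th E E' b a 1) * E' a i = 1 * E' a i := by
    linear_combination -h4
  exact mul_right_cancel₀ h7 h8

theorem th_add (h : Sit B E E') (a b : Fin n) (ha : a ∈ B) (hb : b ∈ B)
    (hab : a ≠ b) (s : F) : th E E' a b (s + 1) = th E E' a b s + th E E' a b 1 := by
  obtain ⟨c, hc, hac, hbc⟩ := h.third a b
  obtain ⟨i, i1, i2, i3⟩ := h.rich a ha b hb c hc hab hac hbc 1 s 0
  obtain ⟨j, j1, j2, j3⟩ := h.rich a ha b hb c hc hab hac hbc 0 1 1
  obtain ⟨k, k1, k2, k3⟩ := h.rich a ha b hb c hc hab hac hbc 1 (s + 1) 1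
  have hd : Helper46.E.d3 E a b c i j k = 0 := by
    rw [d3_eq, i1, i2, i3, j1, j2, j3, k1, k2, k3]
    ring
  have hd' := (h.d3 a ha b hb c hc hab hac hbc i j k).1 hd
  have e1 := h.th_spec a b ha hb hab i (by rw [i1]; exact one_ne_zero)
  rw [i1, i2, div_one] at e1
  have e2 : E' c i = 0 := (h.zero_iff c hc i).1 i3
  have e3 : E' a j = 0 := (h.zero_iff a ha j).1 j1
  have e4 := h.th_spec b c hb hc hbc j (by rw [j2]; exact one_ne_zero)
  rw [j2, j3, div_one] at e4
  have e5 := h.th_spec a b ha hb hab k (by rw [k1]; exact one_ne_zero)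
  rw [k1, k2, div_one] at e5
  have e6 := h.th_spec a c ha hc hac k (by rw [k1]; exact one_ne_zero)
  rw [k1, k3, div_one] at e6
  have e7 := h.th_mul a b c ha hb hc hab hac hbc 1 1 one_ne_zero
  rw [mul_one] at e7
  have n1 : E' a i ≠ 0 := by
    rw [Ne, ← h.zero_iff a ha i, i1]
    exact one_ne_zero
  have n2 : E' b j ≠ 0 := by
    rw [Ne, ← h.zero_iff b hb j, j2]
    exact one_ne_zero
  have n3 : E' a k ≠ 0 := by
    rw [Ne, ← h.zero_iff a ha k, k1]
    exact one_ne_zero
  have n4 := h.th_ne_zero b c hb hc hbc 1 one_ne_zero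
  rw [d3_eq, e1, e2, e3, e4, e5, e6, e7] at hd'
  have h9 : (E' a i * E' b j * E' a k * th E E' b c 1) * th E E' a b (s + 1)
      = (E' a i * E' b j * E' a k * th E E' b c 1) * (th E E' a b s + th E E' a b 1) := by
    linear_combination -hd'
  exact mul_left_cancel₀ (mul_ne_zero (mul_ne_zero (mul_ne_zero n1 n2) n3) n4) h9

/-- All normalised ratio maps agree. -/
theorem th_same (h : Sit B E E') (r b0 : Fin n) (hr : r ∈ B) (hb0 : b0 ∈ B) (hrb : r ≠ b0)
    (a b : Fin n) (ha : a ∈ B) (hb : b ∈ B) (hab : a ≠ b) (t : F) :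
    th E E' a b t / th E E' a b 1 = th E E' r b0 t / th E E' r b0 1 := by
  have f1 : ∀ a ∈ B, ∀ b ∈ B, ∀ c ∈ B, a ≠ b → a ≠ c → b ≠ c →
      th E E' a c t / th E E' a c 1 = th E E' b c t / th E E' b c 1 := by
    intro a ha b hb c hc hab hac hbc
    have e1 := h.th_mul a b c ha hb hc hab hac hbc 1 t one_ne_zero
    have e2 := h.th_mul a b c ha hb hc hab hac hbc 1 1 one_ne_zero
    rw [one_mul] at e1 e2
    rw [e1, e2]
    exact mul_div_mul_right _ _ (h.th_ne_zero a b ha hb hab 1 one_ne_zero)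
  have f2 : ∀ a ∈ B, ∀ b ∈ B, ∀ c ∈ B, a ≠ b → a ≠ c → b ≠ c →
      th E E' a c t / th E E' a c 1 = th E E' a b t / th E E' a b 1 := by
    intro a ha b hb c hc hab hac hbc
    by_cases ht : t = 0
    · rw [ht, h.th_zero a c ha hc hac, h.th_zero a b ha hb hab, zero_div, zero_div]
    have e1 := h.th_mul a b c ha hb hc hab hac hbc t 1 ht
    have e2 := h.th_mul a b c ha hb hc hab hac hbc 1 1 one_ne_zero
    rw [mul_one] at e1 e2
    rw [e1, e2]
    exact mul_div_mul_left _ _ (h.th_ne_zero b c hb hc hbc 1 one_ne_zero)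
  have f3 : ∀ b ∈ B, r ≠ b → th E E' r b t / th E E' r b 1 = th E E' r b0 t / th E E' r b0 1 := by
    intro b hb hrb'
    by_cases hbb : b = b0
    · rw [hbb]
    · exact f2 r hr b0 hb0 b hb hrb hrb' (Ne.symm hbb)
  by_cases har : a = r
  · rw [har]
    exact f3 b hb (by rw [← har]; exact hab)
  · by_cases hbr : b = r
    · obtain ⟨c, hc, hac, hrc⟩ := h.third a r
      rw [hbr, f2 a ha c hc r hr hac har hrc.symm, f1 a ha r hr c hc har hac hrc]
      exact f3 c hc hrc
    · rw [f1 a ha r hr b hb har hab (Ne.symm hbr)]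
      exact f3 b hb (Ne.symm hbr)

/-- The field automorphism. -/
theorem exists_aut (h : Sit B E E') : ∃ ψ : F ≃+* F, ∀ a ∈ B, ∀ b ∈ B, a ≠ b → ∀ t,
    th E E' a b t = th E E' a b 1 * ψ t := by
  classical
  have hne : B.Nonempty := by
    rw [← Finset.card_pos]
    have := h.three
    omega
  obtain ⟨r, hr⟩ := hne
  obtain ⟨b0, hb0, hrb⟩ := h.second r
  obtain ⟨c, hc, hrc, hbc⟩ := h.third r b0
  have same := h.th_same r b0 hr hb0 hrb
  set f : F → F := fun t => th E E' r b0 t / th E E' r b0 1 with hf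
  have hk := fun a ha b hb hab => h.th_ne_zero a b ha hb hab 1 one_ne_zero
  have key : ∀ a ∈ B, ∀ b ∈ B, a ≠ b → ∀ t, th E E' a b t = th E E' a b 1 * f t := by
    intro a ha b hb hab t
    have h1 := same a b ha hb hab t
    have h2 := hk a ha b hb hab
    rw [hf]
    simp only
    rw [← h1]
    field_simp
  have f0 : f 0 = 0 := by
    simp only [hf]
    rw [h.th_zero r b0 hr hb0 hrb, zero_div]
  have f1 : f 1 = 1 := div_self (hk r hr b0 hb0 hrb)
  have fs : ∀ s, f (s + 1) = f s + 1 := by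
    intro s
    simp only [hf]
    rw [h.th_add r b0 hr hb0 hrb s, add_div, div_self (hk r hr b0 hb0 hrb)]
  have fm : ∀ s t, f (s * t) = f s * f t := by
    intro s t
    by_cases hs : s = 0
    · rw [hs, zero_mul, f0, zero_mul]
    · have e1 := h.th_mul r b0 c hr hb0 hc hrb hrc hbc s t hs
      have e2 := h.th_mul r b0 c hr hb0 hc hrb hrc hbc 1 1 one_ne_zero
      rw [key r hr c hc hrc, key b0 hb0 c hc hbc, key r hr b0 hb0 hrb s] at e1
      rw [mul_one] at e2
      rw [e2] at e1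
      have n1 := hk b0 hb0 c hc hbc
      have n2 := hk r hr b0 hb0 hrb
      have e3 : (th E E' b0 c 1 * th E E' r b0 1) * f (s * t)
          = (th E E' b0 c 1 * th E E' r b0 1) * (f s * f t) := by
        linear_combination e1
      exact mul_left_cancel₀ (mul_ne_zero n1 n2) e3
  have fa : ∀ s t, f (s + t) = f s + f t := by
    intro s t
    by_cases ht : t = 0
    · rw [ht, add_zero, f0, add_zero]
    · have e1 : s + t = t * (s / t + 1) := by field_simp
      have e2 : s = t * (s / t) := by field_simp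
      rw [e1, fm, fs]
      conv_rhs => rw [e2, fm]
      ring
  let φ : F →+* F :=
    { toFun := f
      map_one' := f1
      map_mul' := fm
      map_zero' := f0
      map_add' := fa }
  have hinj : Function.Injective φ := φ.injective
  have hbij : Function.Bijective φ := ⟨hinj, Finite.surjective_of_injective hinj⟩
  refine ⟨RingEquiv.ofBijective φ hbij, ?_⟩
  intro a ha b hb hab t
  exact key a ha b hb hab t

/-- Row scalars. -/
theorem exists_rows (h : Sit B E E') : ∃ D : Fin n → F, (∀ b ∈ B, D b ≠ 0) ∧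
    ∀ a ∈ B, ∀ b ∈ B, a ≠ b → D b = th E E' a b 1 * D a := by
  classical
  have hne : B.Nonempty := by
    rw [← Finset.card_pos]
    have := h.three
    omega
  obtain ⟨r, hr⟩ := hne
  refine ⟨fun b => if b = r then 1 else th E E' r b 1, ?_, ?_⟩
  · intro b hb
    simp only
    split_ifs with hbr
    · exact one_ne_zero
    · exact h.th_ne_zero r b hr hb (Ne.symm hbr) 1 one_ne_zero
  · intro a ha b hb hab
    simp only
    by_cases har : a = r
    · have hbr : b ≠ r := fun hh => hab (har.trans hh.symm)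
      rw [if_neg hbr, if_pos har, har, mul_one]
    · by_cases hbr : b = r
      · rw [if_pos hbr, if_neg har, hbr]
        exact (h.th_inv a r ha hr har).symm
      · rw [if_neg hbr, if_neg har]
        have e2 := h.th_mul r a b hr ha hb (Ne.symm har) (Ne.symm hbr) hab 1 1 one_ne_zero
        rw [mul_one] at e2
        exact e2

/-- Full recovery. -/
theorem recover (h : Sit B E E') : ∃ (ψ : F ≃+* F) (D : Fin n → F) (u : Fin n → Fˣ),
    (∀ b ∈ B, D b ≠ 0) ∧ ∀ b ∈ B, ∀ i, E' b i = D b * (u i : F) * ψ (E b i) := by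
  classical
  obtain ⟨ψ, hψ⟩ := h.exists_aut
  obtain ⟨D, hD0, hD⟩ := h.exists_rows
  have hu : ∀ i, ∃ u : Fˣ, ∀ b ∈ B, E' b i = D b * (u : F) * ψ (E b i) := by
    intro i
    by_cases hex : ∃ a ∈ B, E a i ≠ 0
    · obtain ⟨a, ha, hai⟩ := hex
      have n1 : E' a i ≠ 0 := by
        rw [Ne, ← h.zero_iff a ha i]
        exact hai
      have n2 := hD0 a ha
      have n3 : ψ (E a i) ≠ 0 := by
        rw [Ne, map_eq_zero]
        exact hai
      refine ⟨Units.mk0 (E' a i / (D a * ψ (E a i))) (div_ne_zero n1 (mul_ne_zero n2 n3)), ?_⟩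
      intro b hb
      rw [Units.val_mk0]
      by_cases hab : a = b
      · rw [← hab]
        field_simp
      · rw [h.th_spec a b ha hb hab i hai, hψ a ha b hb hab, map_div₀, hD a ha b hb hab]
        field_simp
    · push Not at hex
      refine ⟨1, ?_⟩
      intro b hb
      rw [hex b hb, map_zero, mul_zero]
      exact (h.zero_iff b hb i).1 (hex b hb)
  choose u hu' using hu
  exact ⟨ψ, D, u, hD0, fun b hb i => hu' i b hb⟩

end Sit

/-- Good subspaces. -/
def Good (U : Submodule F (Fin n → F)) : Prop :=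
  ∃ (B : Finset (Fin n)) (E : Fin n → Fin n → F), DB U B E ∧ 3 ≤ B.card ∧
    ∀ a ∈ B, ∀ b ∈ B, ∀ c ∈ B, a ≠ b → a ≠ c → b ≠ c → ∀ w1 w2 w3 : F,
      ∃ i, E a i = w1 ∧ E b i = w2 ∧ E c i = w3

theorem good_unique (U W : Submodule F (Fin n → F)) (hU : Good U)
    (h : ∀ I, Ind U I ↔ Ind W I) : ∃ g : Mon n F, g • U = W := by
  classical
  obtain ⟨B, E, hDB, h3, hrich⟩ := hU
  obtain ⟨E', hDB'⟩ := hDB.transfer h
  have hs : Sit B E E' :=
    { diag := hDB.diag
      off := hDB.off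
      diag' := hDB'.diag
      off' := hDB'.off
      d3 := by
        intro a ha b hb c hc hab hac hbc i j k
        rw [hDB.d3_iff a b c ha hb hc hab hac hbc, hDB'.d3_iff a b c ha hb hc hab hac hbc,
          spans_congr U W h]
      rich := hrich
      three := h3 }
  obtain ⟨ψ, D, u, hD0, hu⟩ := hs.recover
  refine ⟨⟨1, u, ψ⟩, ?_⟩
  set g : Mon n F := ⟨1, u, ψ⟩ with hg
  have happ : ∀ x i, g.app x i = u i * ψ (x i) := by
    intro x i
    rw [app_apply, hg]
    rfl
  have h1 : ∀ x ∈ U, g.app x ∈ W := by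
    intro x hx
    have e : g.app x = ∑ b ∈ B, (ψ (x b) * (D b)⁻¹) • E' b := by
      ext i
      rw [happ, Finset.sum_apply, hDB.exp x hx i, map_sum, Finset.mul_sum]
      apply Finset.sum_congr rfl
      intro b hb
      rw [Pi.smul_apply, smul_eq_mul, hu b hb i, map_mul]
      have := hD0 b hb
      field_simp
    rw [e]
    exact W.sum_mem (fun b hb => W.smul_mem _ (hDB'.mem b hb))
  ext y
  constructor
  · intro hy
    rw [Mon.mem_smul] at hy
    have := h1 _ hy
    rwa [app_app_inv] at this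
  · intro hy
    have e : y = g.app (∑ b ∈ B, ψ.symm (y b * D b) • E b) := by
      ext i
      rw [happ, Finset.sum_apply, map_sum, Finset.mul_sum, hDB'.exp y hy i]
      apply Finset.sum_congr rfl
      intro b hb
      rw [Pi.smul_apply, smul_eq_mul, hu b hb i, map_mul, RingEquiv.apply_symm_apply]
      ring
    rw [e, app_mem_smul]
    exact U.sum_mem (fun b hb => U.smul_mem _ (hDB.mem b hb))

theorem isoRel_equiv : Equivalence (isoRel n F) := by
  refine ⟨?_, ?_, ?_⟩
  · intro M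
    exact ⟨1, fun I => by simp⟩
  · rintro M N ⟨σ, hσ⟩
    refine ⟨σ.symm, ?_⟩
    intro I
    rw [hσ, Equiv.image_symm_image]
  · rintro M N P ⟨σ, hσ⟩ ⟨τ, hτ⟩
    refine ⟨τ * σ, ?_⟩
    intro I
    rw [hσ, hτ, ← Set.image_comp]
    rfl

theorem good_fiber (U W : Submodule F (Fin n → F)) (hU : Good U)
    (h : Quot.mk (isoRel n F) (toRep U) = Quot.mk (isoRel n F) (toRep W)) :
    ∃ g : Mon n F, g • U = W := by
  have h1 : isoRel n F (toRep U) (toRep W) := by
    rw [Quot.eq, isoRel_equiv.eqvGen_iff] at h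
    exact h
  obtain ⟨σ, hσ⟩ := h1
  set g0 : Mon n F := ⟨σ, fun _ => 1, 1⟩ with hg0
  have h2 : ∀ I, Ind U I ↔ Ind (g0⁻¹ • W) I := by
    intro I
    have h3 := hσ I
    change (matU U).Indep I ↔ (matU W).Indep (σ '' I) at h3
    rw [matU_indep, matU_indep] at h3
    rw [h3, ind_smul g0 (g0⁻¹ • W) I, smul_inv_smul]
  obtain ⟨g, hg⟩ := good_unique U _ hU h2
  refine ⟨g0 * g, ?_⟩
  rw [mul_smul, hg, smul_inv_smul]

end Pool.Agent.Helper46.E
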