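import Pool.Agent.Helper46.E.BadSub

set_option autoImplicit false
set_option linter.unusedSectionVars false

namespace Pool.Agent.Helper46.E

open Set Module Mon

variable {n j : ℕ} {F : Type} [Field F] [Fintype F]

theorem delta_bounds (hq : 3 ≤ Fintype.card F) :
    1 / (Fintype.card F : ℝ) ≤ 1 - 1 / (Fintype.card F : ℝ) ^ 3 ∧
      1 - 1 / (Fintype.card F : ℝ) ^ 3 ≤ 1 ∧ 0 < 1 / (Fintype.card F : ℝ) := by
  have hq' : (3 : ℝ) ≤ (Fintype.card F : ℝ) := by exact_mod_cast hq
  set q : ℝ := (Fintype.card F : ℝ) with hqdef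
  have h1 : 1 / q ≤ 1 / 3 := one_div_le_one_div_of_le (by norm_num) hq'
  have h2 : 1 / q ^ 3 ≤ 1 / 3 := by
    apply one_div_le_one_div_of_le (by norm_num)
    nlinarith [sq_nonneg (q - 3)]
  have h3 : 0 ≤ 1 / q ^ 3 := by positivity
  refine ⟨by linarith, by linarith, by positivity⟩

/-- A bound for the number of bad subspaces of a middle dimension. -/
theorem bad_mid (hq : 3 ≤ Fintype.card F) (hn : 12 ≤ n) (h1 : n ≤ 4 * j) (h2 : 4 * j ≤ 3 * n) :
    (Nat.card {U : Submodule F (Fin n → F) // finrank F U = j ∧ ¬ Good U} : ℝ) ≤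
      2 * ((1 + (n : ℝ) ^ 3 * (Fintype.card F : ℝ) ^ 3) *
        (1 - 1 / (Fintype.card F : ℝ) ^ 3) ^ (n / 8)) *
        (Fintype.card F : ℝ) ^ (n * n / 4) := by
  obtain ⟨d1, d2, d3⟩ := delta_bounds (F := F) hq
  have h3 := bad_sub (F := F) (n := n) (j := j) hq (by omega) (n / 8) (by omega)
  refine h3.trans ?_
  have hq' : (3 : ℝ) ≤ (Fintype.card F : ℝ) := by exact_mod_cast hq
  set q : ℝ := (Fintype.card F : ℝ) with hqdef
  set δ : ℝ := 1 - 1 / q ^ 3 with hδ
  apply mul_le_mul_of_nonneg_right _ (by positivity)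
  apply mul_le_mul_of_nonneg_left _ (by norm_num)
  have hδ0 : 0 ≤ δ := by linarith
  have e1 : 1 / q ^ (n / 8) ≤ δ ^ (n / 8) := by
    rw [← one_div_pow]
    exact pow_le_pow_left₀ d3.le d1 _
  have e2 : δ ^ (n - (j + n / 8)) ≤ δ ^ (n / 8) := pow_le_pow_of_le_one hδ0 d2 (by omega)
  calc 1 / q ^ (n / 8) + (n : ℝ) ^ 3 * q ^ 3 * δ ^ (n - (j + n / 8))
      ≤ δ ^ (n / 8) + (n : ℝ) ^ 3 * q ^ 3 * δ ^ (n / 8) :=
        add_le_add e1 (mul_le_mul_of_nonneg_left e2 (by positivity))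
    _ = _ := by ring

theorem bad_ext (hq : 3 ≤ Fintype.card F) (hj : j ≤ n) (h : ¬ (n ≤ 4 * j ∧ 4 * j ≤ 3 * n)) :
    (Nat.card {U : Submodule F (Fin n → F) // finrank F U = j ∧ ¬ Good U} : ℝ) ≤
      2 * (Fintype.card F : ℝ) ^ (3 * n * n / 16) := by
  have h1 : Nat.card {U : Submodule F (Fin n → F) // finrank F U = j ∧ ¬ Good U}
      ≤ nd F (Fin n → F) j := by
    unfold nd
    exact Nat.card_le_card_of_injective (fun U => ⟨U.1, U.2.1⟩)
      (fun a b h => Subtype.ext (by simpa using h))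
  have h2 := nd_upper (F := F) (V := Fin n → F) hq j (by rw [finrank_fin_fun]; exact hj)
  rw [finrank_fin_fun] at h2
  have h3 : (Nat.card {U : Submodule F (Fin n → F) // finrank F U = j ∧ ¬ Good U} : ℝ)
      ≤ (nd F (Fin n → F) j : ℝ) := by exact_mod_cast h1
  refine h3.trans (h2.trans ?_)
  apply mul_le_mul_of_nonneg_left _ (by norm_num)
  have hq' : (3 : ℝ) ≤ (Fintype.card F : ℝ) := by exact_mod_cast hq
  apply pow_le_pow_right₀ (by linarith)
  rw [Nat.le_div_iff_mul_le (by norm_num)]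
  obtain ⟨a, rfl⟩ := Nat.exists_eq_add_of_le hj
  rw [Nat.add_sub_cancel_left]
  rw [not_and_or, not_le, not_le] at h
  rcases h with h | h
  · obtain ⟨b, hb⟩ : ∃ b, a = 3 * j + b := ⟨a - 3 * j, by omega⟩
    subst hb
    nlinarith
  · obtain ⟨b, hb⟩ : ∃ b, j = 3 * a + b := ⟨j - 3 * a, by omega⟩
    subst hb
    nlinarith

theorem bad_total (hq : 3 ≤ Fintype.card F) (hn : 12 ≤ n) :
    (ns F (Fin n → F) : ℝ) ≤ (Nat.card {U : Submodule F (Fin n → F) // Good U} : ℝ) +
      ((n : ℝ) + 1) * (2 * ((1 + (n : ℝ) ^ 3 * (Fintype.card F : ℝ) ^ 3) *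
        (1 - 1 / (Fintype.card F : ℝ) ^ 3) ^ (n / 8)) *
        (Fintype.card F : ℝ) ^ (n * n / 4) + 2 * (Fintype.card F : ℝ) ^ (3 * n * n / 16)) := by
  classical
  obtain ⟨d1, d2, d3⟩ := delta_bounds (F := F) hq
  let _ : Fintype (Submodule F (Fin n → F)) := Fintype.ofFinite _
  have h1 : (ns F (Fin n → F)) = Nat.card {U : Submodule F (Fin n → F) // Good U} +
      (Finset.univ.filter (fun U : Submodule F (Fin n → F) => ¬ Good U)).card := by
    rw [ns, Nat.card_eq_fintype_card, Nat.card_eq_fintype_card, Fintype.card_subtype,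
      Finset.card_filter_add_card_filter_not, Finset.card_univ]
  have h2 : (Finset.univ.filter (fun U : Submodule F (Fin n → F) => ¬ Good U)).card
      = ∑ j ∈ Finset.range (n + 1),
        Nat.card {U : Submodule F (Fin n → F) // finrank F U = j ∧ ¬ Good U} := by
    rw [Finset.card_eq_sum_card_fiberwise (f := fun U : Submodule F (Fin n → F) => finrank F U)
      (t := Finset.range (n + 1))]
    · apply Finset.sum_congr rfl
      intro j _
      rw [Nat.card_eq_fintype_card, Fintype.card_subtype, Finset.filter_filter]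
      congr 1
      ext U
      simp only [Finset.mem_filter, Finset.mem_univ, true_and]
      exact and_comm
    · intro U _
      rw [Finset.mem_coe, Finset.mem_range]
      have := Submodule.finrank_le U
      rw [finrank_fin_fun] at this
      exact Nat.lt_succ_of_le this
  rw [h1, h2]
  push_cast
  apply add_le_add_right
  have h3 : ∀ j ∈ Finset.range (n + 1),
      (Nat.card {U : Submodule F (Fin n → F) // finrank F U = j ∧ ¬ Good U} : ℝ) ≤
      (2 * ((1 + (n : ℝ) ^ 3 * (Fintype.card F : ℝ) ^ 3) *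
        (1 - 1 / (Fintype.card F : ℝ) ^ 3) ^ (n / 8)) *
        (Fintype.card F : ℝ) ^ (n * n / 4) + 2 * (Fintype.card F : ℝ) ^ (3 * n * n / 16)) := by
    intro j hj
    rw [Finset.mem_range] at hj
    by_cases hc : n ≤ 4 * j ∧ 4 * j ≤ 3 * n
    · refine (bad_mid hq hn hc.1 hc.2).trans ?_
      have : (0 : ℝ) ≤ 2 * (Fintype.card F : ℝ) ^ (3 * n * n / 16) := by positivity
      linarith
    · refine (bad_ext hq (by omega) hc).trans ?_
      have : (0 : ℝ) ≤ 2 * ((1 + (n : ℝ) ^ 3 * (Fintype.card F : ℝ) ^ 3) *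
        (1 - 1 / (Fintype.card F : ℝ) ^ 3) ^ (n / 8)) *
        (Fintype.card F : ℝ) ^ (n * n / 4) := by
        have : 0 ≤ 1 - 1 / (Fintype.card F : ℝ) ^ 3 := by linarith
        positivity
      linarith
  refine (Finset.sum_le_sum h3).trans ?_
  rw [Finset.sum_const, Finset.card_range, nsmul_eq_mul]
  push_cast
  exact le_refl _

end Pool.Agent.Helper46.E
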