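import Pool.Agent.Helper46.E.Mat

set_option autoImplicit false
set_option linter.unusedSectionVars false

namespace Pool.Agent.Helper46.E

open Set Module Mon

variable {n : ℕ} {F : Type} [Field F] [Finite F]

/-- A set of coordinates on which only the zero vector of `U` vanishes. -/
def Spans (U : Submodule F (Fin n → F)) (S : Set (Fin n)) : Prop :=
  ∀ x ∈ U, (∀ i ∈ S, x i = 0) → x = 0

theorem ind_insert (U : Submodule F (Fin n → F)) (I : Set (Fin n)) (hI : Ind U I) (x : Fin n → F)
    (hx : x ∈ U) (hxI : ∀ i ∈ I, x i = 0) (j : Fin n) (hj : x j ≠ 0) : Ind U (insert j I) := by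
  classical
  intro s c hs hrel
  have h1 : ∀ i ∈ s, i ≠ j → i ∈ I := by
    intro i hi hij
    rcases hs hi with h | h
    · exact absurd h hij
    · exact h
  have h2 : j ∈ s → c j = 0 := by
    intro hjs
    have h3 := hrel x hx
    rw [Finset.sum_eq_single j] at h3
    · rcases mul_eq_zero.1 h3 with h | h
      · exact h
      · exact absurd h hj
    · intro b hb hbj
      rw [hxI b (h1 b hb hbj), mul_zero]
    · intro h
      exact absurd hjs h
  have h4 : Rel U (s.erase j) c := by
    intro y hy
    by_cases hjs : j ∈ s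
    · have h5 := hrel y hy
      rw [← Finset.add_sum_erase _ _ hjs, h2 hjs, zero_mul, zero_add] at h5
      exact h5
    · rw [Finset.erase_eq_of_notMem hjs]
      exact hrel y hy
  intro i hi
  by_cases hij : i = j
  · rw [hij]; exact h2 (hij ▸ hi)
  · refine hI (s.erase j) c ?_ h4 i (Finset.mem_erase.2 ⟨hij, hi⟩)
    intro k hk
    have := Finset.mem_erase.1 (Finset.mem_coe.1 hk)
    exact h1 k this.2 this.1

theorem not_ind_insert (U : Submodule F (Fin n → F)) (S I : Set (Fin n)) (hI : Ind U I)
    (hmax : ∀ s ∈ S, s ∉ I → ¬ Ind U (insert s I)) (hS : Spans U S) (j : Fin n) (hj : j ∉ I) :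
    ¬ Ind U (insert j I) := by
  classical
  intro hins
  rw [← ind_iff] at hI hins
  have h1 : vU U j ∉ Submodule.span F (vU U '' I) := by
    intro hmem
    have := (linearIndepOn_insert hj).1 hins
    exact this.2 hmem
  apply h1
  have h2 : ∀ s ∈ S, vU U s ∈ Submodule.span F (vU U '' I) := by
    intro s hs
    by_cases hsI : s ∈ I
    · exact Submodule.subset_span ⟨s, hsI, rfl⟩
    · by_contra hcon
      apply hmax s hs hsI
      rw [← ind_iff]
      exact (linearIndepOn_insert hsI).2 ⟨hI, hcon⟩
  rw [Set.image_eq_range]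
  apply mem_span_of_iInf_ker_le_ker
  intro x hx
  rw [Submodule.mem_iInf] at hx
  have h3 : ∀ f ∈ Submodule.span F (vU U '' I), f x = 0 := by
    intro f hf
    induction hf using Submodule.span_induction with
    | mem g hg =>
      obtain ⟨i, hi, rfl⟩ := hg
      exact hx ⟨i, hi⟩
    | zero => rfl
    | add g h _ _ hg hh => rw [LinearMap.add_apply, hg, hh, add_zero]
    | smul a g _ hg => rw [LinearMap.smul_apply, hg, smul_zero]
  have h4 : x.1 = 0 := hS x.1 x.2 (fun i hi => h3 _ (h2 i hi))
  have h5 : x = 0 := Subtype.ext h4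
  rw [h5]
  exact Submodule.zero_mem _

theorem spans_iff (U : Submodule F (Fin n → F)) (S : Set (Fin n)) :
    Spans U S ↔ ∀ I ⊆ S, Ind U I → (∀ s ∈ S, s ∉ I → ¬ Ind U (insert s I)) →
      ∀ j, j ∉ I → ¬ Ind U (insert j I) := by
  classical
  constructor
  · intro hS I _ hI hmax j hj
    exact not_ind_insert U S I hI hmax hS j hj
  · intro h
    by_contra hcon
    unfold Spans at hcon
    push Not at hcon
    obtain ⟨x, hx, hxS, hx0⟩ := hcon
    obtain ⟨j, hj⟩ := Function.ne_iff.1 hx0
    -- maximal independent subset of S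
    have hfin : {I : Set (Fin n) | I ⊆ S ∧ Ind U I}.Finite := Set.toFinite _
    obtain ⟨I, hI⟩ := hfin.exists_maximal ⟨∅, Set.empty_subset _, by
      intro s c hs _ i hi
      exact absurd (hs hi) (Set.notMem_empty i)⟩
    have hI1 : I ⊆ S ∧ Ind U I := hI.1
    refine h I hI1.1 hI1.2 ?_ j ?_ (ind_insert U I hI1.2 x hx (fun i hi => hxS i (hI1.1 hi)) j hj)
    · intro s hs hsI hins
      have := hI.2 (y := insert s I) ⟨Set.insert_subset hs hI1.1, hins⟩ (Set.subset_insert s I)
      exact hsI (this (Set.mem_insert s I))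
    · intro hjI
      exact hj (hxS j (hI1.1 hjI))

theorem spans_congr (U W : Submodule F (Fin n → F)) (h : ∀ I, Ind U I ↔ Ind W I)
    (S : Set (Fin n)) : Spans U S ↔ Spans W S := by
  rw [spans_iff, spans_iff]
  simp only [h]

/-- A dual basis of `U` indexed by coordinates. -/
structure DB (U : Submodule F (Fin n → F)) (B : Finset (Fin n)) (E : Fin n → Fin n → F) :
    Prop where
  mem : ∀ b ∈ B, E b ∈ U
  diag : ∀ b ∈ B, E b b = 1
  off : ∀ b ∈ B, ∀ c ∈ B, b ≠ c → E b c = 0
  exp : ∀ x ∈ U, ∀ i, x i = ∑ b ∈ B, x b * E b i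

theorem DB.spans {U : Submodule F (Fin n → F)} {B : Finset (Fin n)} {E : Fin n → Fin n → F}
    (h : DB U B E) : Spans U B := by
  intro x hx h0
  ext i
  rw [h.exp x hx i]
  exact Finset.sum_eq_zero (fun b hb => by rw [h0 b hb, zero_mul])

/-- Transfer of dual bases. -/
theorem DB.transfer {U W : Submodule F (Fin n → F)} {B : Finset (Fin n)} {E : Fin n → Fin n → F}
    (h : DB U B E) (hUW : ∀ I, Ind U I ↔ Ind W I) : ∃ E' : Fin n → Fin n → F, DB W B E' := by
  classical
  have hB : Spans W B := (spans_congr U W hUW B).1 h.spans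
  have h1 : ∀ b ∈ B, ∃ y ∈ W, y b = 1 ∧ ∀ c ∈ B, b ≠ c → y c = 0 := by
    intro b hb
    have h2 : ¬ Spans U ((B : Set (Fin n)) \ {b}) := by
      intro hs
      have h3 := hs (E b) (h.mem b hb) (fun c hc => h.off b hb c hc.1 (fun h => hc.2 h.symm))
      have h4 := h.diag b hb
      rw [h3] at h4
      exact zero_ne_one h4
    rw [spans_congr U W hUW] at h2
    unfold Spans at h2
    push Not at h2
    obtain ⟨y, hy, hy0, hy1⟩ := h2
    have h5 : y b ≠ 0 := by
      intro h6
      apply hy1
      apply hB y hy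
      intro c hc
      by_cases hcb : c = b
      · rw [hcb]; exact h6
      · exact hy0 c ⟨hc, hcb⟩
    refine ⟨(y b)⁻¹ • y, W.smul_mem _ hy, ?_, ?_⟩
    · simp [h5]
    · intro c hc hbc
      have := hy0 c ⟨hc, fun h => hbc h.symm⟩
      simp [this]
  choose! E' hE'1 hE'2 hE'3 using h1
  refine ⟨E', hE'1, hE'2, hE'3, ?_⟩
  intro x hx i
  have h6 : x - ∑ b ∈ B, x b • E' b = 0 := by
    apply hB
    · exact W.sub_mem hx (W.sum_mem (fun b hb => W.smul_mem _ (hE'1 b hb)))
    · intro c hc
      rw [Pi.sub_apply, Finset.sum_apply, Finset.sum_eq_single c]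
      · rw [Pi.smul_apply, smul_eq_mul, hE'2 c hc, mul_one, sub_self]
      · intro b hb hbc
        rw [Pi.smul_apply, smul_eq_mul, hE'3 b hb c hc hbc, mul_zero]
      · intro hc'
        exact absurd hc hc'
  have h7 := congrFun h6 i
  rw [Pi.sub_apply, Finset.sum_apply] at h7
  simp only [Pi.smul_apply, smul_eq_mul, Pi.zero_apply] at h7
  rw [sub_eq_zero] at h7
  exact h7

/-- Three by three determinant. -/
def d3 (E : Fin n → Fin n → F) (a b c i j k : Fin n) : F :=
  (!![E a i, E b i, E c i; E a j, E b j, E c j; E a k, E b k, E c k] : Matrix (Fin 3) (Fin 3) F).det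

theorem d3_eq (E : Fin n → Fin n → F) (a b c i j k : Fin n) : d3 E a b c i j k =
    E a i * E b j * E c k - E a i * E c j * E b k - E b i * E a j * E c k + E b i * E c j * E a k
      + E c i * E a j * E b k - E c i * E b j * E a k := by
  rw [d3, Matrix.det_fin_three]
  simp

theorem DB.sum3 {U : Submodule F (Fin n → F)} {B : Finset (Fin n)} {E : Fin n → Fin n → F}
    (h : DB U B E) (a b c : Fin n) (ha : a ∈ B) (hb : b ∈ B) (hc : c ∈ B) (hab : a ≠ b)
    (hac : a ≠ c) (hbc : b ≠ c) (x : Fin n → F) (hx : x ∈ U)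
    (h0 : ∀ d ∈ B, d ≠ a → d ≠ b → d ≠ c → x d = 0) (i : Fin n) :
    x i = x a * E a i + x b * E b i + x c * E c i := by
  classical
  rw [h.exp x hx i]
  have hsub : ({a, b, c} : Finset (Fin n)) ⊆ B := by
    intro d hd
    simp only [Finset.mem_insert, Finset.mem_singleton] at hd
    rcases hd with rfl | rfl | rfl <;> assumption
  rw [← Finset.sum_subset hsub]
  · rw [Finset.sum_insert (by simp [hab, hac]), Finset.sum_insert (by simp [hbc]),
      Finset.sum_singleton]
    ring
  · intro d hd hd'
    simp only [Finset.mem_insert, Finset.mem_singleton, not_or] at hd'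
    rw [h0 d hd hd'.1 hd'.2.1 hd'.2.2, zero_mul]

theorem DB.d3_iff {U : Submodule F (Fin n → F)} {B : Finset (Fin n)} {E : Fin n → Fin n → F}
    (h : DB U B E) (a b c : Fin n) (ha : a ∈ B) (hb : b ∈ B) (hc : c ∈ B) (hab : a ≠ b)
    (hac : a ≠ c) (hbc : b ≠ c) (i j k : Fin n) :
    d3 E a b c i j k = 0 ↔
      ¬ Spans U (((B : Set (Fin n)) \ {a, b, c}) ∪ {i, j, k}) := by
  classical
  rw [d3, ← Matrix.exists_mulVec_eq_zero_iff]
  constructor
  · rintro ⟨v, hv, hMv⟩ hS
    have hx : (v 0 • E a + v 1 • E b + v 2 • E c) ∈ U :=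
      U.add_mem (U.add_mem (U.smul_mem _ (h.mem a ha)) (U.smul_mem _ (h.mem b hb)))
        (U.smul_mem _ (h.mem c hc))
    have h0 := hS _ hx ?_
    · apply hv
      have e1 := congrFun h0 a
      have e2 := congrFun h0 b
      have e3 := congrFun h0 c
      simp only [Pi.add_apply, Pi.smul_apply, smul_eq_mul, Pi.zero_apply, h.diag a ha,
        h.diag b hb, h.diag c hc, h.off a ha b hb hab, h.off a ha c hc hac, h.off b hb c hc hbc,
        h.off b hb a ha hab.symm, h.off c hc a ha hac.symm, h.off c hc b hb hbc.symm, mul_zero,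
        mul_one, add_zero, zero_add] at e1 e2 e3
      ext l
      fin_cases l
      · exact e1
      · exact e2
      · exact e3
    · have f0 := congrFun hMv 0
      have f1 := congrFun hMv 1
      have f2 := congrFun hMv 2
      simp [Matrix.mulVec, dotProduct, Fin.sum_univ_three] at f0 f1 f2
      rintro l (⟨hlB, hl⟩ | hl)
      · simp only [Set.mem_insert_iff, Set.mem_singleton_iff, not_or] at hl
        simp only [Pi.add_apply, Pi.smul_apply, smul_eq_mul]
        rw [h.off a ha l hlB (Ne.symm hl.1), h.off b hb l hlB (Ne.symm hl.2.1),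
          h.off c hc l hlB (Ne.symm hl.2.2)]
        ring
      · simp only [Set.mem_insert_iff, Set.mem_singleton_iff] at hl
        simp only [Pi.add_apply, Pi.smul_apply, smul_eq_mul]
        rcases hl with rfl | rfl | rfl
        · linear_combination f0
        · linear_combination f1
        · linear_combination f2
  · intro hS
    unfold Spans at hS
    push Not at hS
    obtain ⟨x, hx, hx0, hx1⟩ := hS
    have key := h.sum3 a b c ha hb hc hab hac hbc x hx (fun d hd h1 h2 h3 =>
      hx0 d (Or.inl ⟨hd, by simp [h1, h2, h3]⟩))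
    refine ⟨![x a, x b, x c], ?_, ?_⟩
    · intro h4
      apply hx1
      have g0 := congrFun h4 0
      have g1 := congrFun h4 1
      have g2 := congrFun h4 2
      simp at g0 g1 g2
      ext l
      rw [key l, g0, g1, g2]
      simp
    · have k0 := key i
      have k1 := key j
      have k2 := key k
      rw [hx0 i (Or.inr (by simp))] at k0
      rw [hx0 j (Or.inr (by simp))] at k1
      rw [hx0 k (Or.inr (by simp))] at k2
      ext l
      fin_cases l
      · simp [Matrix.mulVec, dotProduct, Fin.sum_univ_three]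
        linear_combination -k0
      · simp [Matrix.mulVec, dotProduct, Fin.sum_univ_three]
        linear_combination -k1
      · simp [Matrix.mulVec, dotProduct, Fin.sum_univ_three]
        linear_combination -k2

end Pool.Agent.Helper46.E
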