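import Pool.Agent.Helper46.E.Asym

set_option autoImplicit false
set_option linter.unusedSectionVars false

namespace Pool.Agent.Helper46.E

open Set Module Mon Filter

variable {n : ℕ} {F : Type} [Field F] [Fintype F]

theorem card_mon_le : (Nat.card (Mon n F) : ℝ) ≤
    (Nat.card (F ≃+* F) : ℝ) * ((n : ℝ) * (Fintype.card F : ℝ)) ^ n := by
  have h1 : Nat.card (Mon n F) ≤ Nat.card (F ≃+* F) * (n * Fintype.card F) ^ n := by
    rw [card_mon, Nat.card_eq_fintype_card (α := F), mul_pow]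
    have h2 : n.factorial ≤ n ^ n := Nat.factorial_le_pow n
    have h3 : (Fintype.card F - 1) ^ n ≤ Fintype.card F ^ n := Nat.pow_le_pow_left (Nat.sub_le _ _) n
    calc n.factorial * (Fintype.card F - 1) ^ n * Nat.card (F ≃+* F)
        ≤ n ^ n * Fintype.card F ^ n * Nat.card (F ≃+* F) :=
          Nat.mul_le_mul_right _ (Nat.mul_le_mul h2 h3)
      _ = _ := by ring
  exact_mod_cast h1

open Classical in
theorem upper_est (hq : 4 ≤ Fintype.card F) (hn : 200 ≤ n)
    (hρ : ((n : ℝ) * n * (Fintype.card F : ℝ)) ^ 3 * (1 / (Fintype.card F : ℝ)) ^ (n / 64) ≤ 1) :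
    (Nat.card (Quot (isoRel n F)) : ℝ) * (Nat.card (Mon n F) : ℝ) ≤
    (((Fintype.card F : ℝ) - 1) * (ns F (Fin n → F) : ℝ)) *
      (1 + (4 * (Nat.card (F ≃+* F) : ℝ) * (Fintype.card F : ℝ) + 4 * (Fintype.card F : ℝ) ^ 4) *
        (((n : ℝ) + 1) ^ 9 * (1 / (Fintype.card F : ℝ)) ^ (n / 64))) := by
  have h1 := card_quot_le (F := F) (n := n)
  have h2 := burnside (F := F) (n := n) (by omega)
  have h3 := ns_lower (F := F) (V := Fin n → F) (by omega)
  rw [finrank_fin_fun] at h3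
  have h4 := sum_fix (F := F) (n := n) hq hn
  have h5 := card_mon_le (F := F) (n := n)
  have hq' : (4 : ℝ) ≤ (Fintype.card F : ℝ) := by exact_mod_cast hq
  have h6 : (Nat.card (Quot (isoRel n F)) : ℝ) * (Nat.card (Mon n F) : ℝ) ≤
      ((Fintype.card F : ℝ) - 1) * (ns F (Fin n → F) : ℝ) +
      ((∑ g ∈ Finset.univ.filter (fun g : Mon n F => g ∉ Set.range (scalar : Fˣ → Mon n F)),
          Nat.card {U : Submodule F (Fin n → F) // g • U = U} : ℕ) : ℝ) := by
    have h7 : Nat.card (Quot (isoRel n F)) * Nat.card (Mon n F) ≤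
        (Nat.card F - 1) * Nat.card (Submodule F (Fin n → F)) +
        ∑ g ∈ Finset.univ.filter (fun g : Mon n F => g ∉ Set.range (scalar : Fˣ → Mon n F)),
          Nat.card {U : Submodule F (Fin n → F) // g • U = U} := by
      refine (Nat.mul_le_mul_right _ h1).trans (le_of_eq ?_)
      rw [h2]
      congr!
    have h8 : ((Nat.card (Quot (isoRel n F)) * Nat.card (Mon n F) : ℕ) : ℝ) ≤
        (((Nat.card F - 1) * Nat.card (Submodule F (Fin n → F)) +
        ∑ g ∈ Finset.univ.filter (fun g : Mon n F => g ∉ Set.range (scalar : Fˣ → Mon n F)),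
          Nat.card {U : Submodule F (Fin n → F) // g • U = U} : ℕ) : ℝ) := by exact_mod_cast h7
    rw [Nat.cast_mul, Nat.cast_add, Nat.cast_mul, Nat.card_eq_fintype_card (α := F),
      Nat.cast_sub (by omega), Nat.cast_one] at h8
    exact h8
  refine h6.trans ?_
  set Sg : ℝ := ((∑ g ∈ Finset.univ.filter (fun g : Mon n F => g ∉ Set.range (scalar : Fˣ → Mon n F)),
          Nat.card {U : Submodule F (Fin n → F) // g • U = U} : ℕ) : ℝ) with hSg
  set q : ℝ := (Fintype.card F : ℝ) with hqdef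
  set k : ℝ := (Nat.card (F ≃+* F) : ℝ) with hk
  set N : ℝ := (ns F (Fin n → F) : ℝ) with hN
  set z : ℝ := (1 / q) ^ (n / 64) with hz
  have hz0 : 0 < z := by positivity
  set ρ : ℝ := ((n : ℝ) * n * q) ^ 3 * z with hρdef
  have hn1 : (200 : ℝ) ≤ (n : ℝ) := by exact_mod_cast hn
  have hk0 : 0 ≤ k := Nat.cast_nonneg _
  have hρ0 : 0 ≤ ρ := by positivity
  -- first term
  set y : ℝ := 2 * n * q * z with hy
  have hy0 : 0 ≤ y := by positivity
  have hyρ : y ≤ ρ := by
    rw [hy, hρdef]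
    apply mul_le_mul_of_nonneg_right _ hz0.le
    have e1 : (1 : ℝ) ≤ n * n * q := by nlinarith
    have e2 : 2 * (n : ℝ) * q ≤ n * n * q := by nlinarith
    have e3 : n * n * q ≤ ((n : ℝ) * n * q) ^ 3 := le_self_pow₀ e1 (by norm_num)
    linarith
  have hy1 : y ≤ 1 := hyρ.trans hρ
  have f1 : q ^ (15 * n * n / 64) ≤ z ^ n * q ^ (n * n / 4) := by
    have e2 : 15 * n * n / 64 + (n / 64) * n ≤ n * n / 4 := by
      have e4 : (n / 64) * n ≤ n * n / 64 := by
        rw [Nat.le_div_iff_mul_le (by norm_num)]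
        have := Nat.div_mul_le_self n 64
        nlinarith
      have e5 : 15 * n * n = 15 * (n * n) := by ring
      rw [e5]
      omega
    have e3 : q ^ (15 * n * n / 64) * (q ^ (n / 64)) ^ n ≤ q ^ (n * n / 4) := by
      rw [← pow_mul, ← pow_add]
      exact pow_le_pow_right₀ (by linarith) e2
    rw [hz, one_div_pow, one_div_pow, div_mul_eq_mul_div, one_mul, le_div_iff₀ (by positivity)]
    exact e3
  have f2 : (Nat.card (Mon n F) : ℝ) * (((n : ℝ) + 1) * (2 ^ (n + 1) * q ^ (15 * n * n / 64)))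
      ≤ (2 * k * ((n : ℝ) + 1) * y) * q ^ (n * n / 4) := by
    calc (Nat.card (Mon n F) : ℝ) * (((n : ℝ) + 1) * (2 ^ (n + 1) * q ^ (15 * n * n / 64)))
        ≤ (k * ((n : ℝ) * q) ^ n) * (((n : ℝ) + 1) * (2 ^ (n + 1) * (z ^ n * q ^ (n * n / 4)))) := by
          apply mul_le_mul h5 _ (by positivity) (by positivity)
          apply mul_le_mul_of_nonneg_left _ (by positivity)
          exact mul_le_mul_of_nonneg_left f1 (by positivity)
      _ = (2 * k * ((n : ℝ) + 1) * y ^ n) * q ^ (n * n / 4) := by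
          have : y ^ n = 2 ^ n * (n * q) ^ n * z ^ n := by
            rw [hy, ← mul_pow, ← mul_pow]
            congr 1
            ring
          rw [this, pow_succ]
          ring
      _ ≤ (2 * k * ((n : ℝ) + 1) * y) * q ^ (n * n / 4) := by
          apply mul_le_mul_of_nonneg_right _ (by positivity)
          apply mul_le_mul_of_nonneg_left _ (by positivity)
          exact pow_le_of_le_one hy0 hy1 (by omega)
  -- second term
  have f3 : ∀ s ∈ Finset.Icc 1 n, ((n : ℝ) * n * (q - 1)) ^ (3 * s) *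
        (4 * ((n : ℝ) + 1) ^ 2 * q ^ (n * n / 4) / q ^ (s * n / 8))
        ≤ 4 * ((n : ℝ) + 1) ^ 2 * ρ * q ^ (n * n / 4) := by
    intro s hs
    rw [Finset.mem_Icc] at hs
    have e1 : ((n : ℝ) * n * (q - 1)) ^ (3 * s) ≤ (((n : ℝ) * n * q) ^ 3) ^ s := by
      rw [← pow_mul]
      apply pow_le_pow_left₀
      · apply mul_nonneg (by positivity)
        linarith
      · apply mul_le_mul_of_nonneg_left _ (by positivity)
        linarith
    have e2 : 1 / q ^ (s * n / 8) ≤ z ^ s := by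
      rw [hz, one_div_pow, one_div_pow]
      apply one_div_le_one_div_of_le (by positivity)
      rw [← pow_mul]
      apply pow_le_pow_right₀ (by linarith)
      rw [Nat.le_div_iff_mul_le (by norm_num)]
      have := Nat.div_mul_le_self n 64
      nlinarith
    calc ((n : ℝ) * n * (q - 1)) ^ (3 * s) *
        (4 * ((n : ℝ) + 1) ^ 2 * q ^ (n * n / 4) / q ^ (s * n / 8))
        = (((n : ℝ) * n * (q - 1)) ^ (3 * s) * (1 / q ^ (s * n / 8))) *
          (4 * ((n : ℝ) + 1) ^ 2 * q ^ (n * n / 4)) := by ring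
      _ ≤ ((((n : ℝ) * n * q) ^ 3) ^ s * z ^ s) * (4 * ((n : ℝ) + 1) ^ 2 * q ^ (n * n / 4)) := by
          apply mul_le_mul_of_nonneg_right _ (by positivity)
          exact mul_le_mul e1 e2 (by positivity) (by positivity)
      _ = ρ ^ s * (4 * ((n : ℝ) + 1) ^ 2 * q ^ (n * n / 4)) := by
          rw [← mul_pow]
      _ ≤ ρ * (4 * ((n : ℝ) + 1) ^ 2 * q ^ (n * n / 4)) := by
          apply mul_le_mul_of_nonneg_right _ (by positivity)
          exact pow_le_of_le_one hρ0 hρ (by omega)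
      _ = _ := by ring
  have f4 : ∑ s ∈ Finset.Icc 1 n, ((n : ℝ) * n * (q - 1)) ^ (3 * s) *
        (4 * ((n : ℝ) + 1) ^ 2 * q ^ (n * n / 4) / q ^ (s * n / 8))
        ≤ n * (4 * ((n : ℝ) + 1) ^ 2 * ρ * q ^ (n * n / 4)) := by
    refine (Finset.sum_le_sum f3).trans ?_
    rw [Finset.sum_const, Nat.card_Icc, nsmul_eq_mul, Nat.add_sub_cancel]
  have f5 : Sg ≤ ((4 * k * q + 4 * q ^ 4) * (((n : ℝ) + 1) ^ 9 * z)) * q ^ (n * n / 4) := by
    refine h4.trans ?_
    have g1 : q * (∑ s ∈ Finset.Icc 1 n, ((n : ℝ) * n * (q - 1)) ^ (3 * s) *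
        (4 * ((n : ℝ) + 1) ^ 2 * q ^ (n * n / 4) / q ^ (s * n / 8)))
        ≤ q * (n * (4 * ((n : ℝ) + 1) ^ 2 * ρ * q ^ (n * n / 4))) :=
      mul_le_mul_of_nonneg_left f4 (by linarith)
    refine (add_le_add f2 g1).trans ?_
    have g2 : (2 * k * ((n : ℝ) + 1) * y) ≤ (4 * k * q) * (((n : ℝ) + 1) ^ 9 * z) := by
      have : ((n : ℝ) + 1) * n ≤ ((n : ℝ) + 1) ^ 9 := by
        calc ((n : ℝ) + 1) * n ≤ ((n : ℝ) + 1) * ((n : ℝ) + 1) :=
              mul_le_mul_of_nonneg_left (by linarith) (by linarith)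
          _ = ((n : ℝ) + 1) ^ 2 := by ring
          _ ≤ ((n : ℝ) + 1) ^ 9 := pow_le_pow_right₀ (by linarith) (by norm_num)
      calc 2 * k * ((n : ℝ) + 1) * y = (4 * k * q) * ((((n : ℝ) + 1) * n) * z) := by
            rw [hy]; ring
        _ ≤ _ := by
            apply mul_le_mul_of_nonneg_left _ (by positivity)
            exact mul_le_mul_of_nonneg_right this hz0.le
    have g3 : q * (n * (4 * ((n : ℝ) + 1) ^ 2 * ρ)) ≤ (4 * q ^ 4) * (((n : ℝ) + 1) ^ 9 * z) := by
      have : ((n : ℝ) + 1) ^ 2 * (n : ℝ) ^ 7 ≤ ((n : ℝ) + 1) ^ 9 := by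
        calc ((n : ℝ) + 1) ^ 2 * (n : ℝ) ^ 7 ≤ ((n : ℝ) + 1) ^ 2 * ((n : ℝ) + 1) ^ 7 := by
              apply mul_le_mul_of_nonneg_left _ (by positivity)
              exact pow_le_pow_left₀ (by linarith) (by linarith) 7
          _ = ((n : ℝ) + 1) ^ 9 := by ring
      calc q * (n * (4 * ((n : ℝ) + 1) ^ 2 * ρ))
          = (4 * q ^ 4) * ((((n : ℝ) + 1) ^ 2 * (n : ℝ) ^ 7) * z) := by
            rw [hρdef]; ring
        _ ≤ _ := by
            apply mul_le_mul_of_nonneg_left _ (by positivity)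
            exact mul_le_mul_of_nonneg_right this hz0.le
    calc (2 * k * ((n : ℝ) + 1) * y) * q ^ (n * n / 4) +
        q * (n * (4 * ((n : ℝ) + 1) ^ 2 * ρ * q ^ (n * n / 4)))
        = (2 * k * ((n : ℝ) + 1) * y + q * (n * (4 * ((n : ℝ) + 1) ^ 2 * ρ))) *
          q ^ (n * n / 4) := by ring
      _ ≤ ((4 * k * q) * (((n : ℝ) + 1) ^ 9 * z) + (4 * q ^ 4) * (((n : ℝ) + 1) ^ 9 * z)) *
          q ^ (n * n / 4) := by
          apply mul_le_mul_of_nonneg_right _ (by positivity)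
          exact add_le_add g2 g3
      _ = _ := by ring
  set R : ℝ := (4 * k * q + 4 * q ^ 4) * (((n : ℝ) + 1) ^ 9 * z) with hR
  have hR0 : 0 ≤ R := by positivity
  have hN0 : 0 ≤ N := Nat.cast_nonneg _
  have f6 : R * q ^ (n * n / 4) ≤ ((q - 1) * N) * R := by
    calc R * q ^ (n * n / 4) ≤ R * N := mul_le_mul_of_nonneg_left h3 hR0
      _ = (1 * N) * R := by ring
      _ ≤ ((q - 1) * N) * R := by
          apply mul_le_mul_of_nonneg_right _ hR0
          exact mul_le_mul_of_nonneg_right (by linarith) hN0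
  calc (q - 1) * N + Sg ≤ (q - 1) * N + ((q - 1) * N) * R := by linarith
    _ = _ := by ring

end Pool.Agent.Helper46.E
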