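import Pool.Agent.Helper46.E.Fix1

set_option autoImplicit false
set_option linter.unusedSectionVars false

namespace Pool.Agent.Helper46.E

open Module

variable {F V : Type} [Field F] [Fintype F] [AddCommGroup V] [Module F V] [Finite V]

theorem above_card (hq : 3 ≤ Fintype.card F) (W : Submodule F V) (j : ℕ)
    (hWj : finrank F W ≤ j) (hj : j ≤ finrank F V) :
    Nat.card {U : Submodule F V // finrank F U = j ∧ W ≤ U}
      ≤ 2 * Fintype.card F ^ ((j - finrank F W) * (finrank F V - j)) := by
  have hqn := Submodule.finrank_quotient_add_finrank W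
  have hle : j - finrank F W ≤ finrank F (V ⧸ W) := by omega
  have h1 : Nat.card {U : Submodule F V // finrank F U = j ∧ W ≤ U}
      ≤ nd F (V ⧸ W) (j - finrank F W) := by
    unfold nd
    refine Nat.card_le_card_of_injective
      (fun U => ⟨U.1.map W.mkQ, ?_⟩) ?_
    · have h2 := LinearMap.finrank_range_add_finrank_ker (W.mkQ.domRestrict U.1)
      rw [LinearMap.range_domRestrict] at h2
      have h3 : finrank F (LinearMap.ker (W.mkQ.domRestrict U.1)) = finrank F W := by
        have h4 : LinearMap.ker (W.mkQ.domRestrict U.1) = W.comap U.1.subtype := by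
          ext x
          rw [LinearMap.mem_ker, Submodule.mem_comap, LinearMap.domRestrict_apply]
          exact Submodule.Quotient.mk_eq_zero W
        rw [h4]
        exact LinearEquiv.finrank_eq (Submodule.comapSubtypeEquivOfLe U.2.2)
      rw [h3, U.2.1] at h2
      omega
    · rintro ⟨U, hU⟩ ⟨U', hU'⟩ h
      have h2 : U.map W.mkQ = U'.map W.mkQ := congrArg Subtype.val h
      have h3 := congrArg (Submodule.comap W.mkQ) h2
      rw [Submodule.comap_map_mkQ, Submodule.comap_map_mkQ, sup_eq_right.2 hU.2,
        sup_eq_right.2 hU'.2] at h3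
      exact Subtype.ext h3
  refine h1.trans ?_
  have h2 := nd_upper (F := F) (V := V ⧸ W) hq _ hle
  have h3 : finrank F (V ⧸ W) - (j - finrank F W) = finrank F V - j := by omega
  rw [h3] at h2
  exact_mod_cast h2

/-- Additive maps have small preimages. -/
theorem preimage_card {A B : Type} [AddGroup A] [AddGroup B] [Finite A] [Finite B] (φ : A →+ B)
    (S : Set B) : Nat.card {a : A // φ a ∈ S} ≤ S.ncard * Nat.card φ.ker := by
  classical
  let _ : Fintype A := Fintype.ofFinite A
  let _ : Fintype B := Fintype.ofFinite B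
  rw [Nat.card_eq_fintype_card, Fintype.card_subtype, mul_comm]
  have h := Finset.card_le_mul_card_image (f := φ) (Finset.univ.filter (fun a => φ a ∈ S))
    (Nat.card φ.ker) ?_
  · refine h.trans ?_
    apply Nat.mul_le_mul_left
    rw [← Set.ncard_coe_finset]
    apply Set.ncard_le_ncard _ (Set.toFinite _)
    intro b hb
    rw [Finset.mem_coe, Finset.mem_image] at hb
    obtain ⟨a, ha, rfl⟩ := hb
    rw [Finset.mem_filter] at ha
    exact ha.2
  · intro b hb
    rw [Finset.mem_image] at hb
    obtain ⟨a, ha, rfl⟩ := hb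
    have h2 : Nat.card φ.ker = (Finset.univ.filter (fun x : A => φ x = 0)).card := by
      rw [← Fintype.card_subtype, ← Nat.card_eq_fintype_card]
      rfl
    rw [h2]
    refine Finset.card_le_card_of_injOn (fun x => x - a) ?_ ?_
    · intro x hx
      rw [Finset.mem_coe, Finset.mem_filter] at hx
      rw [Finset.mem_coe, Finset.mem_filter]
      refine ⟨Finset.mem_univ _, ?_⟩
      rw [map_sub, hx.2, sub_self]
    · intro x _ y _ hxy
      exact sub_left_injective hxy

/-- The bad vectors of `U` relative to `W`. -/
theorem bad_card (T : V →+ V) (U W : Submodule F V) (κ : ℕ)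
    (hU : ∀ μ : F, Nat.card {x : U // T x = μ • (x : V)} ≤ Fintype.card F ^ κ) :
    Nat.card {x : U // (x : V) ∈ W ∨ ∃ μ : F, T x - μ • (x : V) ∈ W}
      ≤ Fintype.card F ^ (finrank F W)
        + Fintype.card F * (Fintype.card F ^ finrank F W * Fintype.card F ^ κ) := by
  classical
  let _ : Fintype V := Fintype.ofFinite V
  let _ : Fintype U := Fintype.ofFinite U
  have hWc : Nat.card W = Fintype.card F ^ finrank F W := by
    rw [Module.natCard_eq_pow_finrank (K := F) (V := W), Nat.card_eq_fintype_card]
  have h1 : Nat.card {x : U // (x : V) ∈ W ∨ ∃ μ : F, T x - μ • (x : V) ∈ W}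
      ≤ (Finset.univ.filter (fun x : U => (x : V) ∈ W)).card
        + ∑ μ : F, (Finset.univ.filter (fun x : U => T x - μ • (x : V) ∈ W)).card := by
    rw [Nat.card_eq_fintype_card, Fintype.card_subtype]
    calc (Finset.univ.filter (fun x : U => (x : V) ∈ W ∨ ∃ μ : F, T x - μ • (x : V) ∈ W)).card
        ≤ ((Finset.univ.filter (fun x : U => (x : V) ∈ W)) ∪
          (Finset.univ.biUnion fun μ : F =>
            Finset.univ.filter (fun x : U => T x - μ • (x : V) ∈ W))).card := by
          apply Finset.card_le_card
          intro x hx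
          rw [Finset.mem_filter] at hx
          rw [Finset.mem_union, Finset.mem_biUnion]
          rcases hx.2 with h | ⟨μ, h⟩
          · left; rw [Finset.mem_filter]; exact ⟨Finset.mem_univ _, h⟩
          · right; exact ⟨μ, Finset.mem_univ _, by rw [Finset.mem_filter]; exact ⟨Finset.mem_univ _, h⟩⟩
      _ ≤ _ := (Finset.card_union_le _ _).trans (Nat.add_le_add_left Finset.card_biUnion_le _)
  refine h1.trans (Nat.add_le_add ?_ ?_)
  · rw [← hWc, ← Fintype.card_subtype, ← Nat.card_eq_fintype_card]
    refine Nat.card_le_card_of_injective (fun x => (⟨(x.1 : V), x.2⟩ : W)) ?_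
    intro x y hxy
    have := congrArg Subtype.val hxy
    exact Subtype.ext (Subtype.ext this)
  · have h2 : ∀ μ : F, (Finset.univ.filter (fun x : U => T x - μ • (x : V) ∈ W)).card
        ≤ Fintype.card F ^ finrank F W * Fintype.card F ^ κ := by
      intro μ
      let φ : U →+ V := T.comp U.subtype.toAddMonoidHom
        - (μ • U.subtype).toAddMonoidHom
      have hφ : ∀ x : U, φ x = T x - μ • (x : V) := fun x => rfl
      have h3 := preimage_card φ (W : Set V)
      rw [Nat.card_eq_fintype_card, Fintype.card_subtype] at h3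
      refine h3.trans (Nat.mul_le_mul (le_of_eq hWc) ?_)
      refine le_trans (le_of_eq ?_) (hU μ)
      apply Nat.card_congr
      refine Equiv.subtypeEquivRight ?_
      intro x
      rw [AddMonoidHom.mem_ker, hφ, sub_eq_zero]
    calc ∑ μ : F, (Finset.univ.filter (fun x : U => T x - μ • (x : V) ∈ W)).card
        ≤ ∑ μ : F, Fintype.card F ^ finrank F W * Fintype.card F ^ κ :=
          Finset.sum_le_sum (fun μ _ => h2 μ)
      _ = _ := by rw [Finset.sum_const, Finset.card_univ, smul_eq_mul]

theorem finrank_sup_singleton (W : Submodule F V) (x : V) (hx : x ∉ W) :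
    finrank F (W ⊔ Submodule.span F {x} : Submodule F V) = finrank F W + 1 := by
  have h0 : x ≠ 0 := fun h => hx (by rw [h]; exact W.zero_mem)
  have h1 := Submodule.finrank_sup_add_finrank_inf_eq W (Submodule.span F {x})
  have h2 : W ⊓ Submodule.span F {x} = ⊥ := by
    rw [← disjoint_iff]
    exact (Submodule.disjoint_span_singleton' h0).2 hx
  rw [h2, finrank_bot, add_zero, finrank_span_singleton h0] at h1
  exact h1

open Classical in
/-- The main counting estimate for invariant subspaces. -/
theorem wild (hq : 4 ≤ Fintype.card F) (T : V →+ V) (j κ : ℕ) (hj : j ≤ finrank F V)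
    (S : Finset (Submodule F V))
    (hS : ∀ U ∈ S, finrank F U = j ∧ (∀ x ∈ U, T x ∈ U) ∧
      ∀ μ : F, Nat.card {x : U // T x = μ • (x : V)} ≤ Fintype.card F ^ κ) :
    ∀ (m : ℕ) (W : Submodule F V), finrank F W + 2 * m + κ ≤ j →
      (S.filter (fun U => W ≤ U)).card * Fintype.card F ^ (j * m)
        ≤ 2 ^ m * Fintype.card F ^ (finrank F V * m)
          * (2 * Fintype.card F ^ ((j - finrank F W - 2 * m) * (finrank F V - j))) := by
  classical
  let _ : Fintype V := Fintype.ofFinite V
  intro m
  induction m with
  | zero =>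
    intro W hW
    simp only [mul_zero, pow_zero, mul_one, one_mul, Nat.sub_zero]
    refine le_trans ?_ (above_card (by omega) W j (by omega) hj)
    let _ : Fintype (Submodule F V) := Fintype.ofFinite _
    rw [Nat.card_eq_fintype_card, Fintype.card_subtype]
    apply Finset.card_le_card
    intro U hU
    rw [Finset.mem_filter] at hU ⊢
    exact ⟨Finset.mem_univ _, (hS U hU.1).1, hU.2⟩
  | succ m ih =>
    intro W hW
    set q := Fintype.card F with hqdef
    set n := finrank F V with hn
    set w := finrank F W with hw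
    set SW := S.filter (fun U => W ≤ U) with hSW
    set G : Finset V := Finset.univ.filter (fun x => x ∉ W ∧ ∀ μ : F, T x - μ • x ∉ W) with hG
    -- each U has many good vectors
    have hgood : ∀ U ∈ SW, q ^ j ≤ 2 * (G.filter (fun x => x ∈ U)).card := by
      intro U hU
      rw [hSW, Finset.mem_filter] at hU
      obtain ⟨hUj, hUT, hUκ⟩ := hS U hU.1
      have hbad := bad_card T U W κ hUκ
      have hcU : Nat.card U = q ^ j := by
        rw [Module.natCard_eq_pow_finrank (K := F) (V := U), Nat.card_eq_fintype_card, hUj]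
      have hsplit : Nat.card U ≤ (G.filter (fun x => x ∈ U)).card
          + Nat.card {x : U // (x : V) ∈ W ∨ ∃ μ : F, T x - μ • (x : V) ∈ W} := by
        let _ : Fintype U := Fintype.ofFinite U
        have e1 : Nat.card U = (Finset.univ : Finset U).card := by
          rw [Nat.card_eq_fintype_card, Finset.card_univ]
        have e2 : Nat.card {x : U // (x : V) ∈ W ∨ ∃ μ : F, T x - μ • (x : V) ∈ W}
            = (Finset.univ.filter
              (fun x : U => (x : V) ∈ W ∨ ∃ μ : F, T x - μ • (x : V) ∈ W)).card := by
          rw [Nat.card_eq_fintype_card, Fintype.card_subtype]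
        rw [e1, e2, ← Finset.card_filter_add_card_filter_not
            (s := (Finset.univ : Finset U))
            (fun x : U => ¬ ((x : V) ∈ W ∨ ∃ μ : F, T x - μ • (x : V) ∈ W))]
        apply Nat.add_le_add
        · refine Finset.card_le_card_of_injOn (fun x => (x : V)) ?_ ?_
          · intro x hx
            rw [Finset.mem_coe, Finset.mem_filter] at hx
            rw [Finset.mem_coe, Finset.mem_filter, hG, Finset.mem_filter]
            have hx2 := hx.2
            rw [not_or, not_exists] at hx2
            exact ⟨⟨Finset.mem_univ _, hx2⟩, x.2⟩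
          · intro x _ y _ hxy
            exact Subtype.ext hxy
        · apply Finset.card_le_card
          intro x hx
          rw [Finset.mem_filter] at hx ⊢
          exact ⟨hx.1, not_not.1 hx.2⟩
      rw [hcU] at hsplit
      rw [← hqdef, ← hw] at hbad
      have hsmall : 2 * (q ^ w + q * (q ^ w * q ^ κ)) ≤ q ^ j := by
        have h1 : q ^ w ≤ q * (q ^ w * q ^ κ) := by
          calc q ^ w = 1 * (q ^ w * 1) := by ring
            _ ≤ q * (q ^ w * q ^ κ) := by
              apply Nat.mul_le_mul (by omega)
              apply Nat.mul_le_mul_left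
              exact Nat.one_le_pow _ _ (by omega)
        calc 2 * (q ^ w + q * (q ^ w * q ^ κ)) ≤ 4 * (q * (q ^ w * q ^ κ)) := by omega
          _ ≤ q * (q * (q ^ w * q ^ κ)) := Nat.mul_le_mul_right _ hq
          _ = q ^ (w + κ + 2) := by ring
          _ ≤ q ^ j := Nat.pow_le_pow_right (by omega) (by omega)
      omega
    -- double counting
    have hdc : ∑ U ∈ SW, (G.filter (fun x => x ∈ U)).card
        = ∑ x ∈ G, (SW.filter (fun U => x ∈ U)).card := by
      simp only [Finset.card_filter]
      exact Finset.sum_comm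
    have hx : ∀ x ∈ G, (SW.filter (fun U => x ∈ U)).card * q ^ (j * m)
        ≤ 2 ^ m * q ^ (n * m) * (2 * q ^ ((j - w - 2 * (m + 1)) * (n - j))) := by
      intro x hxG
      rw [hG, Finset.mem_filter] at hxG
      obtain ⟨-, hx1, hx2⟩ := hxG
      set W2 := (W ⊔ Submodule.span F {x}) ⊔ Submodule.span F {T x} with hW2
      have hT : T x ∉ W ⊔ Submodule.span F {x} := by
        intro h
        rw [Submodule.mem_sup] at h
        obtain ⟨y, hy, z, hz, hyz⟩ := h
        rw [Submodule.mem_span_singleton] at hz
        obtain ⟨μ, rfl⟩ := hz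
        apply hx2 μ
        rw [← hyz, add_sub_cancel_right]
        exact hy
      have hf2 : finrank F W2 = w + 2 := by
        rw [hW2, finrank_sup_singleton _ _ hT, finrank_sup_singleton _ _ hx1]
      have h3 := ih W2 (by rw [hf2]; omega)
      rw [hf2] at h3
      have h4 : j - (w + 2) - 2 * m = j - w - 2 * (m + 1) := by omega
      rw [h4] at h3
      refine le_trans (Nat.mul_le_mul_right _ ?_) h3
      apply Finset.card_le_card
      intro U hU
      rw [Finset.mem_filter, hSW, Finset.mem_filter] at hU
      rw [Finset.mem_filter]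
      refine ⟨hU.1.1, ?_⟩
      rw [hW2, sup_le_iff, sup_le_iff, Submodule.span_singleton_le_iff_mem,
        Submodule.span_singleton_le_iff_mem]
      exact ⟨⟨hU.1.2, hU.2⟩, (hS U hU.1.1).2.1 x hU.2⟩
    have hGn : G.card ≤ q ^ n := by
      refine (Finset.card_le_univ G).trans (le_of_eq ?_)
      rw [← Nat.card_eq_fintype_card, Module.natCard_eq_pow_finrank (K := F) (V := V),
        Nat.card_eq_fintype_card]
    calc SW.card * q ^ (j * (m + 1))
        = (∑ U ∈ SW, q ^ j) * q ^ (j * m) := by
          rw [Finset.sum_const, smul_eq_mul, mul_add, mul_one, pow_add]; ring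
      _ ≤ (∑ U ∈ SW, 2 * (G.filter (fun x => x ∈ U)).card) * q ^ (j * m) :=
          Nat.mul_le_mul_right _ (Finset.sum_le_sum hgood)
      _ = 2 * ∑ x ∈ G, (SW.filter (fun U => x ∈ U)).card * q ^ (j * m) := by
          rw [← Finset.mul_sum, hdc, mul_assoc, Finset.sum_mul]
      _ ≤ 2 * ∑ x ∈ G, 2 ^ m * q ^ (n * m) * (2 * q ^ ((j - w - 2 * (m + 1)) * (n - j))) :=
          Nat.mul_le_mul_left _ (Finset.sum_le_sum hx)
      _ = 2 * (G.card * (2 ^ m * q ^ (n * m) * (2 * q ^ ((j - w - 2 * (m + 1)) * (n - j))))) := by
          rw [Finset.sum_const, smul_eq_mul]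
      _ ≤ 2 * (q ^ n * (2 ^ m * q ^ (n * m) * (2 * q ^ ((j - w - 2 * (m + 1)) * (n - j))))) :=
          Nat.mul_le_mul_left _ (Nat.mul_le_mul_right _ hGn)
      _ = _ := by
          rw [mul_add n m 1, pow_add q, pow_succ 2 m]
          ring

end Pool.Agent.Helper46.E
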